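import Pool.Agent.H.MP_43e44c_ag.GZ.Sub

/-!
Galois CM subfields and odd representations of the Galois group of the closure.
-/

set_option autoImplicit false

open NumberField Finset Module

namespace Pool.MP43e44c.GZ

open Pool.MP43e44c.GL

variable {K : Type*} [Field K] [NumberField K]

/-- PROOF. `faithfulGG` (NCl.lean): both sides act in the same way on the embeddings (`conjG_smul`,
`hcgK`). -/
theorem conjG_comm [IsCMField K] (g : GG K) : conjG K * g = g * conjG K := by
  apply FaithfulSMul.eq_of_smul_eq_smul (M := GG K) (α := K →+* ℂ)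
  intro φ
  rw [mul_smul, mul_smul, conjG_smul, conjG_smul, hcgK]

theorem conjG_sq : conjG K * conjG K = 1 := by
  apply FaithfulSMul.eq_of_smul_eq_smul (M := GG K) (α := K →+* ℂ)
  intro φ
  rw [mul_smul, conjG_smul, conjG_smul, one_smul]
  ext x
  simp [ComplexEmbedding.conjugate_coe_eq]

/-- The restriction homomorphism.  PROOF. Let `F' = F.map (lft x₀)` in `GC K`, isomorphic to `F` by
`F.equivMap (lft x₀)`, hence Galois.  `s` is `AlgEquiv.restrictNormalHom F'` followed by conjugation with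
the isomorphism (`AlgEquiv.autCongr`). -/
theorem exists_restr (x₀ : K →+* ℂ) (F : IntermediateField ℚ K) [IsGalois ℚ F] :
    ∃ s : GG K →* (F ≃ₐ[ℚ] F), Function.Surjective s ∧
      ∀ g : GG K, ∀ z : F, g (lft x₀ (z : K)) = lft x₀ ((s g z : F) : K) := by
  let e : F ≃ₐ[ℚ] F.map (lft x₀) := F.equivMap (lft x₀)
  have he : ∀ z : F, ((e z : F.map (lft x₀)) : GC K) = lft x₀ (z : K) := fun z => rfl
  have hgal : IsGalois ℚ (F.map (lft x₀)) := IsGalois.of_algEquiv e
  refine ⟨(AlgEquiv.autCongr e.symm).toMonoidHom.comp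
    (AlgEquiv.restrictNormalHom (F := ℚ) (K₁ := GC K) (F.map (lft x₀))), ?_, ?_⟩
  · refine (AlgEquiv.autCongr e.symm).surjective.comp ?_
    exact AlgEquiv.restrictNormalHom_surjective (GC K)
  · intro g z
    have h1 : (((AlgEquiv.autCongr e.symm).toMonoidHom.comp
        (AlgEquiv.restrictNormalHom (F := ℚ) (K₁ := GC K) (F.map (lft x₀)))) g) z
        = e.symm (g.restrictNormal (F.map (lft x₀)) (e z)) := rfl
    rw [h1, ← he, ← he, e.apply_symm_apply]
    exact (AlgEquiv.restrictNormal_commutes g (F.map (lft x₀)) (e z)).symm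

/-- PROOF. `F` is Galois; `s` from `exists_restr`, `τ` from `exists_model` (GL/FldA.lean), `ρ = τ ∘ s`.
`z = s (conjG K)` satisfies `z * z = 1`, commutes with everything (`s` is surjective, `conjG_comm`), and
`z ≠ 1` because `F` is not real (`nr_iff`).  So `ρ (conjG K) = -1`.  `ρ g = 1` iff `s g = 1` (`τ` injective) iff
`(g • x₀) z = x₀ z` for all `z ∈ F`. -/
theorem exists_repX [IsCMField K] (x₀ : K →+* ℂ) {k : Fin 5} {F : IntermediateField ℚ K}
    (hF : F ∈ GSub K k) : ∃ ρ : GG K →* M2, Typ (conjG K) k ρ ∧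
      ∀ g : GG K, ρ g = 1 ↔ res F (g • x₀) = res F x₀ := by
  obtain ⟨hgal, hNR, htyp⟩ := hF
  have : IsGalois ℚ F := hgal
  obtain ⟨τ, hinj, hmem, hsurj, hz⟩ := exists_model htyp
  obtain ⟨s, hs, hsg⟩ := exists_restr x₀ F
  have hs1 : ∀ g : GG K, s g = 1 ↔ res F (g • x₀) = res F x₀ := by
    intro g
    constructor
    · intro h
      ext z
      rw [res_apply, res_apply, smul_apply, hsg, h]
      rfl
    · intro h
      ext z
      have h1 : (g • x₀) (z : K) = x₀ (z : K) := by
        rw [← res_apply F, ← res_apply F, h]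
      have h2 : (lft x₀ ((s g z : F) : K) : GC K) = lft x₀ (z : K) := by
        rw [← hsg]
        apply Subtype.ext
        rw [← smul_apply, h1, coe_lft]
      exact (lft x₀).toRingHom.injective h2
  refine ⟨τ.comp s, ⟨?_, fun g => hmem _, ?_⟩, ?_⟩
  · rw [MonoidHom.comp_apply]
    apply hz
    · intro h
      have h1 := (hs1 _).1 h
      rw [conjG_smul, res_conj] at h1
      exact nr_iff hNR x₀ h1
    · rw [← map_mul, conjG_sq, map_one]
    · intro g
      obtain ⟨g', rfl⟩ := hs g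
      rw [← map_mul, conjG_comm, map_mul]
  · intro t ht
    obtain ⟨g, hg⟩ := hsurj t ht
    obtain ⟨g', rfl⟩ := hs g
    exact ⟨g', hg⟩
  · intro g
    rw [← hs1, MonoidHom.comp_apply]
    constructor
    · intro h
      apply hinj
      rw [h, map_one]
    · intro h
      rw [h, map_one]

/-- The matrix function.  PROOF. `M (g • x₀) = ρ g` is well defined: if `g • x₀ = h • x₀` then
`(h⁻¹ * g) • x₀ = x₀`, so `ρ (h⁻¹ * g) = 1` and `ρ g = ρ h`. -/
theorem exists_mat (x₀ : K →+* ℂ) {F : IntermediateField ℚ K} (ρ : GG K →* M2)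
    (h : ∀ g : GG K, ρ g = 1 ↔ res F (g • x₀) = res F x₀) :
    ∃ M : (K →+* ℂ) → M2, ∀ g : GG K, M (g • x₀) = ρ g := by
  have hex : ∀ φ : K →+* ℂ, ∃ g : GG K, g • x₀ = φ := fun φ => exists_smul_eq x₀ φ
  choose G hG using hex
  refine ⟨fun φ => ρ (G φ), fun g => ?_⟩
  have h1 : (g⁻¹ * G (g • x₀)) • x₀ = x₀ := by
    rw [mul_smul, hG, inv_smul_smul]
  have h2 : ρ (g⁻¹ * G (g • x₀)) = 1 := by
    rw [h, h1]
  have h3 : G (g • x₀) = g * (g⁻¹ * G (g • x₀)) := by group
  show ρ (G (g • x₀)) = ρ g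
  rw [h3, map_mul, h2, mul_one]

end Pool.MP43e44c.GZ
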