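import Pool.Agent.H.MP_43e44c_ag.GZ.Def

/-!
Stable subspaces of dimension at most two of the space of odd functions.
-/

set_option autoImplicit false

open Finset Module

namespace Pool.MP43e44c.GZ

open Pool.MP43e44c.GL

/-- There is an odd stable subspace of dimension at most two which is orthogonal to `A`. -/
def Sml (G : Type*) {X : Type*} [Group G] [MulAction G X] (c : X → X) (A : Finset X) : Prop :=
  ∃ U : Submodule ℚ (X → ℚ), U ≠ ⊥ ∧ finrank ℚ U ≤ 2 ∧ (∀ f ∈ U, ∀ x, f (c x) = - f x) ∧
    (∀ g : G, ∀ f ∈ U, (fun x => f (g • x)) ∈ U) ∧ ∀ f ∈ U, ∑ x ∈ A, f x = 0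

/-- PROOF. If there is `f ≠ 0` in `U` such that every translate `f (g • ·)` is a multiple of `f`, this is
the first case (it occurs if `finrank ℚ U = 1`; `U ≠ ⊥`; `X` is finite so all dimensions are finite).
Otherwise `finrank ℚ U = 2`; let `f₀, f₁` be a basis and `a x = ![f₀ x, f₁ x]`.  Write
`f_i (g • x) = ∑ j, R g i j * f_j x` (coordinates with respect to the basis).  `R` is multiplicative, because
`f_i (g • (h • x)) = ∑ j, R g i j * f_j (h • x) = ∑ k, (R g * R h) i k * f_k x` and `f₀, f₁` are
linearly independent.  If `∑ i, l i * a x i = 0` for all `x` then `l = 0` by linear independence.  If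
`v ᵥ* R g` is a multiple of `v ≠ 0` for all `g`, then `f = ∑ i, v i • f_i ≠ 0` is as in the first case.  (In the
statement below the multiple is `t • v`.) -/
theorem sml_cases {G X : Type*} [Group G] [MulAction G X] [Fintype X] {c : X → X} {A : Finset X}
    (h : Sml G c A) :
    (∃ f : X → ℚ, f ≠ 0 ∧ (∀ x, f (c x) = - f x) ∧ (∀ g : G, ∃ s : ℚ, ∀ x, f (g • x) = s * f x) ∧
      ∑ x ∈ A, f x = 0) ∨
    ∃ (a : X → Fin 2 → ℚ) (R : G →* Matrix (Fin 2) (Fin 2) ℚ), (∀ x, a (c x) = - a x) ∧
      (∀ g x, a (g • x) = (R g).mulVec (a x)) ∧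
      (∀ l : Fin 2 → ℚ, (∀ x, ∑ i, l i * a x i = 0) → l = 0) ∧
      (∀ v : Fin 2 → ℚ, v ≠ 0 → ∃ g, ∀ t : ℚ, Matrix.vecMul v (R g) ≠ t • v) ∧
      ∑ x ∈ A, a x = 0 := by
  classical
  obtain ⟨U, hU0, hdim, hodd, hstab, hsum⟩ := h
  by_cases hex : ∃ f ∈ U, f ≠ 0 ∧ ∀ g : G, ∃ s : ℚ, (fun x => f (g • x)) = s • f
  · left
    obtain ⟨f, hfU, hf0, hf⟩ := hex
    refine ⟨f, hf0, hodd f hfU, ?_, hsum f hfU⟩
    intro g
    obtain ⟨s, hs⟩ := hf g
    exact ⟨s, fun x => congrFun hs x⟩
  · right
    push Not at hex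
    have hpos : 1 ≤ finrank ℚ U := by
      rw [Submodule.one_le_finrank_iff]
      exact hU0
    have h1 : finrank ℚ U ≠ 1 := by
      intro h1
      obtain ⟨f, hfU, hf0⟩ := (Submodule.ne_bot_iff U).1 hU0
      obtain ⟨g, hg⟩ := hex f hfU hf0
      have hne : (⟨f, hfU⟩ : U) ≠ 0 := by
        intro h
        exact hf0 (congrArg Subtype.val h)
      obtain ⟨s, hs⟩ := (finrank_eq_one_iff_of_nonzero' (⟨f, hfU⟩ : U) hne).1 h1
        ⟨fun x => f (g • x), hstab g f hfU⟩
      exact hg s (congrArg Subtype.val hs).symm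
    have h2 : finrank ℚ U = 2 := by omega
    let b : Basis (Fin 2) ℚ U := Module.finBasisOfFinrankEq ℚ U h2
    let F : Fin 2 → X → ℚ := fun i => (b i : X → ℚ)
    have hFU : ∀ i, F i ∈ U := fun i => (b i).2
    have hind : ∀ l : Fin 2 → ℚ, (∀ x, ∑ i, l i * F i x = 0) → l = 0 := by
      intro l hl
      have h3 := Fintype.linearIndependent_iff.1 b.linearIndependent l (by
        apply Subtype.ext
        funext x
        rw [Submodule.coe_sum, Finset.sum_apply]
        exact hl x)
      funext i
      exact h3 i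
    have hind2 : ∀ l l' : Fin 2 → ℚ, (∀ x, ∑ i, l i * F i x = ∑ i, l' i * F i x) → l = l' := by
      intro l l' hl
      have h3 := hind (l - l') (fun x => by
        have h4 := hl x
        rw [← sub_eq_zero, ← Finset.sum_sub_distrib] at h4
        rw [← h4]
        refine Finset.sum_congr rfl fun i _ => ?_
        rw [Pi.sub_apply]
        ring)
      exact sub_eq_zero.1 h3
    let r : G → Matrix (Fin 2) (Fin 2) ℚ := fun g => Matrix.of fun i j =>
      b.repr ⟨fun x => F i (g • x), hstab g (F i) (hFU i)⟩ j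
    have hr : ∀ g i x, F i (g • x) = ∑ j, r g i j * F j x := by
      intro g i x
      have h3 := b.sum_repr ⟨fun x => F i (g • x), hstab g (F i) (hFU i)⟩
      have h4 := congrFun (congrArg Subtype.val h3) x
      rw [Submodule.coe_sum, Finset.sum_apply] at h4
      exact h4.symm
    have hr1 : r 1 = 1 := by
      funext i
      refine hind2 _ _ fun x => ?_
      rw [← hr, one_smul]
      simp [Matrix.one_apply]
    have hrm : ∀ g h, r (g * h) = r g * r h := by
      intro g h
      funext i
      refine hind2 _ _ fun x => ?_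
      rw [← hr, mul_smul, hr]
      simp_rw [hr h, Matrix.mul_apply, Finset.mul_sum, Finset.sum_mul]
      rw [Finset.sum_comm]
      refine Finset.sum_congr rfl fun k _ => Finset.sum_congr rfl fun j _ => ?_
      ring
    refine ⟨fun x i => F i x, ⟨⟨r, hr1⟩, hrm⟩, ?_, ?_, ?_, ?_, ?_⟩
    · intro x
      funext i
      exact hodd (F i) (hFU i) x
    · intro g x
      funext i
      exact hr g i x
    · intro l hl
      exact hind l hl
    · intro v hv
      have hvU : (∑ i, v i • F i) ∈ U := U.sum_mem fun i _ => U.smul_mem _ (hFU i)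
      have hv0 : (∑ i, v i • F i) ≠ 0 := by
        intro h
        apply hv
        refine hind v fun x => ?_
        have h3 := congrFun h x
        rw [Finset.sum_apply] at h3
        exact h3
      obtain ⟨g, hg⟩ := hex _ hvU hv0
      refine ⟨g, fun t ht => hg t ?_⟩
      funext x
      show (∑ i, v i • F i) (g • x) = t * (∑ i, v i • F i) x
      rw [Finset.sum_apply, Finset.sum_apply]
      have h5 : ∀ j, ∑ i, v i * r g i j = t * v j := fun j => congrFun ht j
      calc ∑ i, (v i • F i) (g • x) = ∑ i, v i * ∑ j, r g i j * F j x := by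
            refine Finset.sum_congr rfl fun i _ => ?_
            rw [Pi.smul_apply, smul_eq_mul, hr]
        _ = ∑ j, (∑ i, v i * r g i j) * F j x := by
            simp_rw [Finset.mul_sum, Finset.sum_mul]
            rw [Finset.sum_comm]
            refine Finset.sum_congr rfl fun k _ => Finset.sum_congr rfl fun j _ => ?_
            ring
        _ = t * ∑ j, (v j • F j) x := by
            rw [Finset.mul_sum]
            refine Finset.sum_congr rfl fun j _ => ?_
            rw [h5, Pi.smul_apply, smul_eq_mul]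
            ring
    · funext i
      rw [Finset.sum_apply]
      exact hsum (F i) (hFU i)

end Pool.MP43e44c.GZ
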