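import Pool.Agent.H.MP_43e44c_ag.GL.Kin
import Pool.Agent.H.MP_43e44c_ag.GL.Half

/-!
Sets with an involution and a transitive group: half systems, odd vector valued functions.
-/

set_option autoImplicit false

open Finset

namespace Pool.MP43e44c.GZ

open Pool.MP43e44c.GL

/-- An involution without fixed points. -/
structure Inv {X : Type*} (c : X → X) : Prop where
  cc : ∀ x, c (c x) = x
  ne : ∀ x, c x ≠ x

/-- A half system. -/
def IsH {X : Type*} (c : X → X) (A : Finset X) : Prop := ∀ x, x ∈ A ↔ c x ∉ A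

open Classical in
/-- The half systems with a degenerate sum of matrices. -/
noncomputable def Ma {X : Type*} [Fintype X] (c : X → X) (M : X → M2) : Finset (Finset X) :=
  univ.filter fun A => IsH c A ∧ (∑ x ∈ A, M x).det = 0

open Classical in
/-- The half systems with vanishing sum of vectors. -/
noncomputable def Va {X : Type*} [Fintype X] (c : X → X) (a : X → Fin 2 → ℤ) :
    Finset (Finset X) :=
  univ.filter fun A => IsH c A ∧ ∑ x ∈ A, a x = 0

/-- The first column. -/
def col (s : M2) : Fin 2 → ℤ := fun i => s i 0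

/-- An odd function with values in `ℤ²` which spans an irreducible representation of dimension two; the
values are the first columns of the matrices in `full k` (used for `k = 1`: `± e₁, ± e₂`, and `k = 2`:
`± (1, 0), ± (0, 1), ± (-1, 1)`). -/
structure VTyp (G : Type*) {X : Type*} [Group G] [MulAction G X] (c : X → X) (k : Fin 5)
    (a : X → Fin 2 → ℤ) : Prop where
  odd : ∀ x, a (c x) = - a x
  mem : ∀ x, ∃ s ∈ full k, a x = col s
  surj : ∀ s ∈ full k, ∃ x, a x = col s
  act : ∀ g : G, ∃ R : M2, ∀ x, a (g • x) = R.mulVec (a x)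
  irr : ∀ l : Fin 2 → ℚ, l ≠ 0 → ∃ g : G,
    (∃ x, ∑ i, l i * (a (g • x) i : ℚ) ≠ ∑ i, l i * (a x i : ℚ)) ∧
      ∃ x, ∑ i, l i * (a (g • x) i : ℚ) ≠ - ∑ i, l i * (a x i : ℚ)

theorem col_inj {k : Fin 5} (hk : k = 1 ∨ k = 2) :
    ∀ s ∈ full k, ∀ s' ∈ full k, col s = col s' → s = s' := by
  have h : ∀ k : Fin 5, (k = 1 ∨ k = 2) → ∀ s ∈ full k, ∀ s' ∈ full k,
      (s 0 0 = s' 0 0 ∧ s 1 0 = s' 1 0) → s = s' := by decide
  intro s hs s' hs' hc
  exact h k hk s hs s' hs' ⟨congrFun hc 0, congrFun hc 1⟩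

end Pool.MP43e44c.GZ
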