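import Pool.Agent.H.MP_43e44c_ag.GZ.SymX
import Pool.Agent.H.MP_43e44c_ag.EX.ExLat

/-!
CM fields: degenerate CM types without symmetry have exotic Hodge classes.
-/

set_option autoImplicit false

open NumberField Finset Module

namespace Pool.MP43e44c.GZ

open Pool.MP43e44c.GL

variable {K : Type*} [Field K] [NumberField K]

/-- There is a nonzero odd function with values in `ℤ²`, on which the group acts linearly, with sum `0`. -/
def Deg (A : Finset (K →+* ℂ)) : Prop := ∃ a : (K →+* ℂ) → Fin 2 → ℤ,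
  (∀ x, a (ComplexEmbedding.conjugate x) = - a x) ∧
    (∀ g : GG K, ∃ R : M2, ∀ x, a (g • x) = R.mulVec (a x)) ∧ a ≠ 0 ∧ ∑ x ∈ A, a x = 0

theorem deg_of_Va {k : Fin 5} {a : (K →+* ℂ) → Fin 2 → ℤ}
    (h : VTyp (GG K) (ComplexEmbedding.conjugate : (K →+* ℂ) → (K →+* ℂ)) k a)
    (hk : k = 1 ∨ k = 2) {A : Finset (K →+* ℂ)}
    (hA : A ∈ Va (ComplexEmbedding.conjugate : (K →+* ℂ) → (K →+* ℂ)) a) : Deg A := by
  classical
  refine ⟨a, h.odd, h.act, ?_, (mem_filter.1 hA).2.2⟩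
  intro h0
  have h1 : ∀ k : Fin 5, (k = 1 ∨ k = 2) → ∃ s ∈ full k, s 0 0 ≠ 0 := by decide
  obtain ⟨s, hs, hs0⟩ := h1 k hk
  obtain ⟨x, hx⟩ := h.surj s hs
  apply hs0
  have h2 := congrFun hx 0
  rw [h0] at h2
  exact h2.symm

/-- PROOF. Let `w ≠ 0` be an integral vector with `(∑ x ∈ A, M x) *ᵥ w = 0`
(`Matrix.exists_mulVec_eq_zero_iff`) and `a x = M x *ᵥ w`; `a x₀ = w ≠ 0`. -/
theorem deg_of_Ma {M : (K →+* ℂ) → M2} (hodd : ∀ x, M (ComplexEmbedding.conjugate x) = - M x)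
    (hact : ∀ g : GG K, ∃ R : M2, ∀ x, M (g • x) = R * M x) {x₀ : K →+* ℂ} (h1 : M x₀ = 1)
    {A : Finset (K →+* ℂ)}
    (hA : A ∈ Ma (ComplexEmbedding.conjugate : (K →+* ℂ) → (K →+* ℂ)) M) : Deg A := by
  classical
  obtain ⟨w, hw0, hw⟩ := Matrix.exists_mulVec_eq_zero_iff.2 (mem_filter.1 hA).2.2
  refine ⟨fun x => (M x).mulVec w, ?_, ?_, ?_, ?_⟩
  · intro x
    simp only
    rw [hodd, Matrix.neg_mulVec]
  · intro g
    obtain ⟨R, hR⟩ := hact g
    refine ⟨R, fun x => ?_⟩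
    simp only
    rw [hR, Matrix.mulVec_mulVec]
  · intro h0
    apply hw0
    have h2 : (M x₀).mulVec w = 0 := congrFun h0 x₀
    rwa [h1, Matrix.one_mulVec] at h2
  · rw [← Matrix.sum_mulVec]
    exact hw

/-- PROOF. Let `i, x₁` with `a x₁ i ≠ 0` and `f x = a x i`.  Then `f` is odd, and for `g` in the group
`∑ x, f x * sg Φ (g • x) = ∑ x, (a (g⁻¹ • x)) i * sg Φ x = (R *ᵥ ∑ x, sg Φ x • a x) i = 0`, because
`∑ x, sg Φ x • a x = 2 • ∑ x ∈ Φ, a x - ∑ x, a x` and `∑ x, a x = 0` (odd).  So `f ∈ lat (GG K) conj Φ`, apply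
`not_generated_of_lat` (EX/ExLat.lean).  Compare `exotic_of_rep` (GL/ExA.lean). -/
theorem exotic_of_deg [IsCMField K] {Φ : Finset (K →+* ℂ)} (hΦ : IsCMType Φ)
    (hprim : ∀ φ φ' : K →+* ℂ, Perp Φ φ φ' → φ' = ComplexEmbedding.conjugate φ) (h : Deg Φ) :
    ¬ HodgeRingGeneratedByDivisors Φ := by
  classical
  obtain ⟨a, hodd, hact, ha0, hsum⟩ := h
  obtain ⟨x₁, hx₁⟩ := Function.ne_iff.1 ha0
  obtain ⟨i, hi⟩ := Function.ne_iff.1 hx₁
  -- the sum over all embeddings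
  have hT : ∑ x, a x = 0 := by
    have h1 : ∑ x, a x = - ∑ x, a x := by
      rw [← Finset.sum_neg_distrib]
      refine Fintype.sum_equiv
        (Function.Involutive.toPerm (ComplexEmbedding.conjugate : (K →+* ℂ) → (K →+* ℂ)) conj_conj)
        _ _ fun x => ?_
      change a x = - a (ComplexEmbedding.conjugate x)
      rw [hodd, neg_neg]
    funext j
    have h2 := congrFun h1 j
    rw [Pi.neg_apply] at h2
    rw [Pi.zero_apply]
    omega
  have hS : ∑ x, sg Φ x • a x = 0 := by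
    have h1 : ∀ x, sg Φ x • a x = (2 : ℤ) • (if x ∈ Φ then a x else 0) - a x := by
      intro x
      by_cases hx : x ∈ Φ
      · rw [sg_mem hx, if_pos hx, one_smul, two_smul, add_sub_cancel_right]
      · rw [sg_notMem hx, if_neg hx, smul_zero, zero_sub, neg_smul, one_smul]
    rw [sum_congr rfl fun x _ => h1 x, sum_sub_distrib, hT, sub_zero, ← smul_sum, sum_ite_mem,
      univ_inter, hsum, smul_zero]
  refine not_generated_of_lat hΦ hprim (f := fun x => a x i) ⟨?_, ?_⟩ ?_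
  · intro x
    simp only
    rw [hodd, Pi.neg_apply]
  · intro g
    obtain ⟨R, hR⟩ := hact g⁻¹
    have h1 : ∑ x, a x i * sg Φ (g • x) = ∑ x, a (g⁻¹ • x) i * sg Φ x := by
      refine Fintype.sum_equiv (MulAction.toPerm g) _ _ fun x => ?_
      rw [MulAction.toPerm_apply, inv_smul_smul]
    have h2 : ∑ x, sg Φ x • a (g⁻¹ • x) = 0 := by
      have h3 : ∑ x, sg Φ x • a (g⁻¹ • x) = R.mulVec (∑ x, sg Φ x • a x) := by
        rw [Matrix.mulVec_sum]
        refine sum_congr rfl fun x _ => ?_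
        rw [hR, Matrix.mulVec_smul]
      rw [h3, hS, Matrix.mulVec_zero]
    have h4 := congrFun h2 i
    rw [Finset.sum_apply, Pi.zero_apply] at h4
    simp only
    rw [h1, ← h4]
    refine sum_congr rfl fun x _ => ?_
    rw [Pi.smul_apply, smul_eq_mul, mul_comm]
  · intro hcon
    exact hi (congrFun hcon x₁)

/-- PROOF. The elements of `E` without `φ, φ'` with `Perp A φ φ'`, `φ' ≠ conj φ` have exotic classes, the
others are counted by `card_symmX` (`GG K` acts transitively, `hcgK`).  Compare `card_ev_le`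
(GL/ExB.lean). -/
theorem card_deg_le [IsCMField K] {n : ℕ} (hn : finrank ℚ K = 2 * n)
    (E : Finset (Finset (K →+* ℂ))) (hE : ∀ A ∈ E, IsCMType A ∧ Deg A) :
    E.card ≤ {Φ : Finset (K →+* ℂ) | IsCMType Φ ∧ ¬ HodgeRingGeneratedByDivisors Φ}.ncard
      + 2 * n * 2 ^ (n / 2) := by
  classical
  have hcard : Fintype.card (K →+* ℂ) = 2 * n := by rw [NumberField.Embeddings.card K ℂ, hn]
  have hInv : Inv (ComplexEmbedding.conjugate : (K →+* ℂ) → (K →+* ℂ)) := ⟨conj_conj, conj_ne⟩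
  rw [← Set.ncard_coe_finset]
  have hsub : (E : Set (Finset (K →+* ℂ))) ⊆
      {Φ : Finset (K →+* ℂ) | IsCMType Φ ∧ ¬ HodgeRingGeneratedByDivisors Φ} ∪
      {A : Finset (K →+* ℂ) | IsH ComplexEmbedding.conjugate A ∧ ∃ x y : K →+* ℂ,
        y ≠ ComplexEmbedding.conjugate x ∧ ∀ g : GG K, g • x ∈ A ↔ g • y ∉ A} := by
    intro A hA
    obtain ⟨h1, h2⟩ := hE A (mem_coe.1 hA)
    by_cases h : ∀ φ φ' : K →+* ℂ, Perp A φ φ' → φ' = ComplexEmbedding.conjugate φ
    · exact Or.inl ⟨h1, exotic_of_deg h1 h h2⟩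
    · push Not at h
      obtain ⟨φ, φ', h3, h4⟩ := h
      exact Or.inr ⟨h1, φ, φ', h4, h3⟩
  refine (Set.ncard_le_ncard hsub (Set.toFinite _)).trans ((Set.ncard_union_le _ _).trans
    (Nat.add_le_add le_rfl ?_))
  exact card_symmX hInv hcgK hcard

end Pool.MP43e44c.GZ
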