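import Pool.Agent.H.MP_43e44c_ag.GZ.Sub

/-!
Quartic CM subfields and odd functions.
-/

set_option autoImplicit false

open NumberField Finset Module

namespace Pool.MP43e44c.GZ

open Pool.MP43e44c.GL

variable {K : Type*} [Field K] [NumberField K] [IsCMField K]

/-- A quadratic character trivial on the stabiliser of the restriction.  PROOF. Let `H = s.ker`, it has
index two (`Subgroup.index_ker`, the image is all of `ℤˣ` because `s (conjG K) = -1`) and contains the
stabiliser of `x₀`.  `exists_sub` gives `E` with `finrank ℚ E = 2`; `sub_le`: `E ≤ F`.  `E` is not real: if all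
`φ x`, `x ∈ E`, were real then `res E (conjG K • x₀) = res E x₀` (`conjG_smul`) and `conjG K ∈ H`. -/
theorem exists_quad (x₀ : K →+* ℂ) {F : IntermediateField ℚ K} (s : GG K →* ℤˣ)
    (hs : s (conjG K) = -1) (h : ∀ g : GG K, res F (g • x₀) = res F x₀ → s g = 1) :
    ∃ E ≤ F, finrank ℚ E = 2 ∧ NR E := by
  have hne : (1 : ℤˣ) ≠ -1 := by decide
  have hidx : s.ker.index = 2 := by
    rw [Subgroup.index_ker]
    have h1 : s.range = ⊤ := by
      rw [eq_top_iff]
      intro u _
      rcases Int.units_eq_one_or u with h2 | h2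
      · rw [h2]; exact one_mem _
      · exact ⟨conjG K, by rw [hs, h2]⟩
    rw [h1]
    rw [Nat.card_congr (Subgroup.topEquiv (G := ℤˣ)).toEquiv]
    rw [Nat.card_eq_fintype_card]
    decide
  have hst : MulAction.stabilizer (GG K) x₀ ≤ s.ker := by
    intro g hg
    rw [MulAction.mem_stabilizer_iff] at hg
    exact h g (by rw [hg])
  obtain ⟨E, hE1, hE2⟩ := exists_sub x₀ hst
  refine ⟨E, sub_le x₀ fun g hg => (hE2 g).2 (h g hg), by rw [hE1, hidx], ?_⟩
  by_contra hcon
  apply hne
  have h3 : res E (conjG K • x₀) = res E x₀ := by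
    rw [res_eq_iff, conjG_smul]
    intro z hz
    rw [ComplexEmbedding.conjugate_coe_eq, Complex.conj_eq_iff_im]
    by_contra h4
    exact hcon ⟨z, hz, x₀, h4⟩
  have h5 : s (conjG K) = 1 := (hE2 _).1 h3
  exact h5.symm.trans hs

omit [IsCMField K] in
/-- Four points with an involution without fixed points. -/
theorem fq_four {Z : Type*} [Fintype Z] (c : Z → Z) (hcc : ∀ z, c (c z) = z) (hne : ∀ z, c z ≠ z)
    (hcard : Fintype.card Z = 4) : ∃ b : Z → Fin 2 → ℤ, Function.Injective b ∧
      (∀ z, b (c z) = - b z) ∧ ∃ z₁ z₂, b z₁ = ![1, 0] ∧ b z₂ = ![0, 1] ∧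
        ∀ z, z = z₁ ∨ z = c z₁ ∨ z = z₂ ∨ z = c z₂ := by
  classical
  obtain ⟨z₁⟩ : Nonempty Z := Fintype.card_pos_iff.1 (by omega)
  have h1 : ∃ z₂, z₂ ∉ ({z₁, c z₁} : Finset Z) := by
    by_contra hcon
    push Not at hcon
    have h2 : (univ : Finset Z) ⊆ {z₁, c z₁} := fun z _ => hcon z
    have h3 := card_le_card h2
    have h4 : ({z₁, c z₁} : Finset Z).card ≤ 2 := card_le_two
    rw [card_univ] at h3
    omega
  obtain ⟨z₂, hz₂⟩ := h1
  rw [mem_insert, mem_singleton, not_or] at hz₂
  obtain ⟨h21, h2c⟩ := hz₂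
  have hc21 : c z₂ ≠ z₁ := by
    intro h
    apply h2c
    rw [← h, hcc]
  have hc2c : c z₂ ≠ c z₁ := by
    intro h
    apply h21
    have := congrArg c h
    rwa [hcc, hcc] at this
  have hall : ∀ z, z = z₁ ∨ z = c z₁ ∨ z = z₂ ∨ z = c z₂ := by
    have h5 : ({z₁, c z₁, z₂, c z₂} : Finset Z).card = 4 := by
      rw [card_insert_of_notMem, card_insert_of_notMem, card_insert_of_notMem, card_singleton]
      · rw [mem_singleton]; exact (hne z₂).symm
      · rw [mem_insert, mem_singleton, not_or]
        exact ⟨fun h => h2c h.symm, fun h => hc2c h.symm⟩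
      · rw [mem_insert, mem_insert, mem_singleton, not_or, not_or]
        exact ⟨(hne z₁).symm, fun h => h21 h.symm, fun h => hc21 h.symm⟩
    have h6 : ({z₁, c z₁, z₂, c z₂} : Finset Z) = univ := by
      rw [← card_eq_iff_eq_univ, h5, hcard]
    intro z
    have h7 : z ∈ ({z₁, c z₁, z₂, c z₂} : Finset Z) := by rw [h6]; exact mem_univ _
    simpa using h7
  let b : Z → Fin 2 → ℤ := fun z =>
    if z = z₁ then ![1, 0] else if z = c z₁ then ![-1, 0] else if z = z₂ then ![0, 1] else ![0, -1]
  have b1 : b z₁ = ![1, 0] := by simp [b]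
  have b2 : b (c z₁) = ![-1, 0] := by simp [b, hne z₁]
  have b3 : b z₂ = ![0, 1] := by simp [b, h21, h2c]
  have b4 : b (c z₂) = ![0, -1] := by simp [b, hc21, hc2c, hne z₂]
  refine ⟨b, ?_, ?_, z₁, z₂, b1, b3, hall⟩
  · intro z z' hzz
    rcases hall z with h | h | h | h <;> rcases hall z' with h' | h' | h' | h' <;>
      rw [h, h'] at hzz ⊢ <;> exfalso <;> simp only [b1, b2, b3, b4] at hzz <;>
      first
      | exact absurd (congrFun hzz 0) (by decide)
      | exact absurd (congrFun hzz 1) (by decide)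
  · intro z
    rcases hall z with h | h | h | h <;> rw [h] <;> simp [hcc, b1, b2, b3, b4]

/-- PROOF. There are four embeddings of `F`: `ψ₁, conj ψ₁, ψ₂, conj ψ₂` (`nr_iff`, `res_surj`,
`NumberField.Embeddings.card`).  Let `a x = ± e₁` if `res F x = ψ₁, conj ψ₁` and `± e₂` if
`res F x = ψ₂, conj ψ₂`.  `odd`, `mem`, `surj` and the last claim are clear (the first columns of the matrices
in `full 1` are `± e₁, ± e₂`).  `act`: for `g` in the group let `x₁, x₂` be extensions of `ψ₁, ψ₂` and `R` the
matrix with columns `a (g • x₁), a (g • x₂)`; `a (g • x)` depends only on `res F x` (`res_smul`) and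
`a (g • conj x) = - a (g • x)` (`hcgK`).  `irr`: suppose that for some `l ≠ 0` and all `g` the function
`h x = ∑ i, l i * a x i` satisfies `h (g • x) = h x` for all `x` or `h (g • x) = - h x` for all `x`.  `h ≠ 0`.  Then
`s g = ± 1` with `h (g • x) = s g * h x` defines a homomorphism with `s (conjG K) = -1`; `h` has constant
absolute value by transitivity, so `h x₀ ≠ 0` and `res F (g • x₀) = res F x₀` implies `h (g • x₀) = h x₀`,
`s g = 1`.  `exists_quad` contradicts the last condition of `XSub K 1`. -/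
theorem exists_four {F : IntermediateField ℚ K} (hF : F ∈ XSub K 1) :
    ∃ a : (K →+* ℂ) → Fin 2 → ℤ,
      VTyp (GG K) (ComplexEmbedding.conjugate : (K →+* ℂ) → (K →+* ℂ)) 1 a ∧
      ∀ x y, a x = a y ↔ res F x = res F y := by
  classical
  obtain ⟨hNR, hdeg, -, hquad⟩ : NR F ∧ finrank ℚ F = 4 ∧ Even (finrank F K) ∧
    ∀ E ≤ F, finrank ℚ E = 2 → ¬ NR E := hF
  have hcard : Fintype.card (F →+* ℂ) = 4 := by
    rw [NumberField.Embeddings.card F ℂ, hdeg]
  have hne : ∀ z : F →+* ℂ, ComplexEmbedding.conjugate z ≠ z := by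
    intro z
    obtain ⟨x, rfl⟩ := res_surj F z
    exact nr_iff hNR x
  obtain ⟨b, hb, hbc, z₁, z₂, hb1, hb2, hall⟩ :=
    fq_four (fun z : F →+* ℂ => ComplexEmbedding.conjugate z) (fun z => by ext; simp) hne hcard
  obtain ⟨x₁, hx₁⟩ := res_surj F z₁
  obtain ⟨x₂, hx₂⟩ := res_surj F z₂
  have hodd : ∀ x : K →+* ℂ, b (res F (ComplexEmbedding.conjugate x)) = - b (res F x) := by
    intro x
    rw [res_conj]
    exact hbc _
  have hcases : ∀ x : K →+* ℂ, res F x = res F x₁ ∨ res F x = res F (ComplexEmbedding.conjugate x₁) ∨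
      res F x = res F x₂ ∨ res F x = res F (ComplexEmbedding.conjugate x₂) := by
    intro x
    rw [res_conj, res_conj, hx₁, hx₂]
    exact hall _
  have ha1 : b (res F x₁) = ![1, 0] := by rw [hx₁, hb1]
  have ha2 : b (res F x₂) = ![0, 1] := by rw [hx₂, hb2]
  have hgc : ∀ (g : GG K) (x : K →+* ℂ),
      b (res F (g • ComplexEmbedding.conjugate x)) = - b (res F (g • x)) := by
    intro g x
    rw [hcgK, hodd]
  refine ⟨fun x => b (res F x), ⟨hodd, ?_, ?_, ?_, ?_⟩, fun x y => hb.eq_iff⟩
  · -- mem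
    intro x
    show ∃ s ∈ full 1, b (res F x) = col s
    rcases hcases x with h | h | h | h
    · refine ⟨1, by decide, ?_⟩
      rw [h, ha1]
      funext i; fin_cases i <;> rfl
    · refine ⟨-1, by decide, ?_⟩
      rw [h, hodd, ha1]
      funext i; fin_cases i <;> rfl
    · refine ⟨rot 0, by decide, ?_⟩
      rw [h, ha2]
      funext i; fin_cases i <;> rfl
    · refine ⟨-rot 0, by decide, ?_⟩
      rw [h, hodd, ha2]
      funext i; fin_cases i <;> rfl
  · -- surj
    have hf : ∀ s ∈ full 1, (s 0 0 = 1 ∧ s 1 0 = 0) ∨ (s 0 0 = -1 ∧ s 1 0 = 0) ∨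
      (s 0 0 = 0 ∧ s 1 0 = 1) ∨ (s 0 0 = 0 ∧ s 1 0 = -1) := by decide
    intro s hs
    show ∃ x, b (res F x) = col s
    rcases hf s hs with h | h | h | h
    · refine ⟨x₁, ?_⟩
      rw [ha1]
      funext i; fin_cases i
      · exact h.1.symm
      · exact h.2.symm
    · refine ⟨ComplexEmbedding.conjugate x₁, ?_⟩
      rw [hodd, ha1]
      funext i; fin_cases i
      · exact h.1.symm
      · exact h.2.symm
    · refine ⟨x₂, ?_⟩
      rw [ha2]
      funext i; fin_cases i
      · exact h.1.symm
      · exact h.2.symm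
    · refine ⟨ComplexEmbedding.conjugate x₂, ?_⟩
      rw [hodd, ha2]
      funext i; fin_cases i
      · exact h.1.symm
      · exact h.2.symm
  · -- act
    intro g
    show ∃ R : M2, ∀ x, b (res F (g • x)) = R.mulVec (b (res F x))
    refine ⟨Matrix.of fun i j => if j = 0 then b (res F (g • x₁)) i else b (res F (g • x₂)) i, ?_⟩
    intro x
    rcases hcases x with h | h | h | h
    · rw [res_smul F h g, h, ha1]
      funext i
      simp [Matrix.mulVec, dotProduct, Fin.sum_univ_two]
    · rw [res_smul F h g, h, hgc, hodd, ha1]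
      funext i
      simp [Matrix.mulVec, dotProduct, Fin.sum_univ_two]
    · rw [res_smul F h g, h, ha2]
      funext i
      simp [Matrix.mulVec, dotProduct, Fin.sum_univ_two]
    · rw [res_smul F h g, h, hgc, hodd, ha2]
      funext i
      simp [Matrix.mulVec, dotProduct, Fin.sum_univ_two]
  · -- irr
    intro l hl
    let hh : (K →+* ℂ) → ℚ := fun x => ∑ i, l i * (b (res F x) i : ℚ)
    show ∃ g : GG K, (∃ x, hh (g • x) ≠ hh x) ∧ ∃ x, hh (g • x) ≠ - hh x
    by_contra hcon
    push Not at hcon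
    have hdich : ∀ g : GG K, (∀ x, hh (g • x) = hh x) ∨ ∀ x, hh (g • x) = - hh x := by
      intro g
      by_cases h1 : ∀ x, hh (g • x) = hh x
      · exact Or.inl h1
      · right
        push Not at h1
        exact hcon g h1
    have h1 : hh x₁ = l 0 := by
      show ∑ i, l i * (b (res F x₁) i : ℚ) = l 0
      rw [ha1]
      simp [Fin.sum_univ_two]
    have h2 : hh x₂ = l 1 := by
      show ∑ i, l i * (b (res F x₂) i : ℚ) = l 1
      rw [ha2]
      simp [Fin.sum_univ_two]
    have h3 : ∃ y, hh y ≠ 0 := by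
      by_contra hcon2
      push Not at hcon2
      apply hl
      funext i
      fin_cases i
      · show l 0 = 0
        rw [← h1]; exact hcon2 _
      · show l 1 = 0
        rw [← h2]; exact hcon2 _
    obtain ⟨y, hy⟩ := h3
    have hnz : ∀ x, hh x ≠ 0 := by
      intro x
      obtain ⟨g, rfl⟩ := MulAction.exists_smul_eq (GG K) y x
      rcases hdich g with h4 | h4
      · rw [h4]; exact hy
      · rw [h4]; exact neg_ne_zero.2 hy
    have hex : ∀ g : GG K, ∃ u : ℤˣ, ∀ x, hh (g • x) = ((u : ℤ) : ℚ) * hh x := by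
      intro g
      rcases hdich g with h4 | h4
      · exact ⟨1, fun x => by rw [h4]; simp⟩
      · exact ⟨-1, fun x => by rw [h4]; simp⟩
    choose s hs using hex
    have huniq : ∀ u v : ℤˣ, ((u : ℤ) : ℚ) * hh y = ((v : ℤ) : ℚ) * hh y → u = v := by
      intro u v huv
      have h5 := mul_right_cancel₀ hy huv
      apply Units.ext
      exact_mod_cast h5
    have hs1 : s 1 = 1 := by
      apply huniq
      rw [← hs, one_smul]; simp
    have hsm : ∀ g g', s (g * g') = s g * s g' := by
      intro g g'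
      apply huniq
      rw [← hs, mul_smul, hs, hs]
      push_cast
      ring
    let S : GG K →* ℤˣ := ⟨⟨s, hs1⟩, hsm⟩
    have hSc : S (conjG K) = -1 := by
      show s (conjG K) = -1
      apply huniq
      rw [← hs, conjG_smul]
      show ∑ i, l i * (b (res F (ComplexEmbedding.conjugate y)) i : ℚ) =
        _ * ∑ i, l i * (b (res F y) i : ℚ)
      rw [hodd]
      simp only [Pi.neg_apply]
      push_cast
      simp only [Fin.sum_univ_two]
      ring
    obtain ⟨E, hE1, hE2, hE3⟩ := exists_quad y (F := F) S hSc (by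
      intro g hg
      show s g = 1
      apply huniq
      rw [← hs]
      show ∑ i, l i * (b (res F (g • y)) i : ℚ) = _ * ∑ i, l i * (b (res F y) i : ℚ)
      rw [hg]
      simp)
    exact hquad E hE1 hE2 hE3

end Pool.MP43e44c.GZ
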