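import Pool.Agent.H.MP_43e44c_ag.GZ.Sub

/-!
Sextic CM subfields which contain an imaginary quadratic field and odd functions.
-/

set_option autoImplicit false

open NumberField Finset Module

namespace Pool.MP43e44c.GZ

open Pool.MP43e44c.GL

variable {K : Type*} [Field K] [NumberField K] [IsCMField K]

omit [IsCMField K] in
theorem FS_res_le {E F : IntermediateField ℚ K} (hEF : E ≤ F) {y z : K →+* ℂ}
    (h : res F y = res F z) : res E y = res E z := by
  rw [res_eq_iff] at h ⊢
  intro w hw
  exact h w (hEF hw)

/-- The embeddings of an imaginary quadratic field. -/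
theorem FS_two {E : IntermediateField ℚ K} (hE : finrank ℚ E = 2) (hEN : NR E) (x₀ : K →+* ℂ)
    (ψ : E →+* ℂ) : ψ = res E x₀ ∨ ψ = ComplexEmbedding.conjugate (res E x₀) := by
  classical
  by_contra h
  rw [not_or] at h
  have h1 : Fintype.card (E →+* ℂ) = 2 := by rw [NumberField.Embeddings.card, hE]
  have h2 : ({ψ, res E x₀, ComplexEmbedding.conjugate (res E x₀)} :
      Finset (E →+* ℂ)).card = 3 := by
    rw [Finset.card_insert_of_notMem, Finset.card_insert_of_notMem, Finset.card_singleton]
    · rw [Finset.mem_singleton]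
      exact (nr_iff hEN x₀).symm
    · rw [Finset.mem_insert, Finset.mem_singleton, not_or]
      exact h
  have h3 := Finset.card_le_univ ({ψ, res E x₀, ComplexEmbedding.conjugate (res E x₀)} :
      Finset (E →+* ℂ))
  omega

/-- The embeddings of `F` over a given embedding of the quadratic field `E`.  PROOF. `Fintype.card`
(or `Nat.card`) of the embeddings of `F` is `6` (`NumberField.Embeddings.card`), those of `E` are
`ε, conj ε`; conjugation exchanges the embeddings of `F` over `ε` and over `conj ε`, so there are
three over each. -/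
theorem exists_three {E F : IntermediateField ℚ K} (hEF : E ≤ F) (hF : finrank ℚ F = 6)
    (hE : finrank ℚ E = 2) (hEN : NR E) (x₀ : K →+* ℂ) :
    ∃ x : Fin 3 → (K →+* ℂ), (∀ j, res E (x j) = res E x₀) ∧
      (∀ i j, res F (x i) = res F (x j) → i = j) ∧
      ∀ y : K →+* ℂ, (res E y = res E x₀ → ∃ j, res F y = res F (x j)) ∧
        (res E y ≠ res E x₀ → res E y = ComplexEmbedding.conjugate (res E x₀)) := by
  classical
  set r : (F →+* ℂ) → (K →+* ℂ) := fun ψ => (res_surj F ψ).choose with hr
  have hr1 : ∀ ψ, res F (r ψ) = ψ := fun ψ => (res_surj F ψ).choose_spec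
  set A : Finset (F →+* ℂ) := univ.filter fun ψ => res E (r ψ) = res E x₀ with hA
  have hAc : A.card = 3 := by
    have h1 : Fintype.card (F →+* ℂ) = 6 := by rw [NumberField.Embeddings.card, hF]
    have h2 : Aᶜ.card = A.card := by
      symm
      refine Finset.card_bij' (fun ψ _ => ComplexEmbedding.conjugate ψ)
        (fun ψ _ => ComplexEmbedding.conjugate ψ) ?_ ?_ ?_ ?_
      · intro ψ hψ
        rw [hA, Finset.mem_filter] at hψ
        rw [Finset.mem_compl, hA, Finset.mem_filter, not_and]
        intro _ h3
        have h4 : res E (r (ComplexEmbedding.conjugate ψ)) =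
            res E (ComplexEmbedding.conjugate (r ψ)) := by
          apply FS_res_le hEF
          rw [hr1, res_conj, hr1]
        rw [h4, res_conj, hψ.2] at h3
        exact nr_iff hEN x₀ h3
      · intro ψ hψ
        rw [Finset.mem_compl, hA, Finset.mem_filter, not_and] at hψ
        have h5 := hψ (Finset.mem_univ _)
        rw [hA, Finset.mem_filter]
        refine ⟨Finset.mem_univ _, ?_⟩
        have h4 : res E (r (ComplexEmbedding.conjugate ψ)) =
            res E (ComplexEmbedding.conjugate (r ψ)) := by
          apply FS_res_le hEF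
          rw [hr1, res_conj, hr1]
        rw [h4, res_conj]
        rcases FS_two hE hEN x₀ (res E (r ψ)) with h6 | h6
        · exact absurd h6 h5
        · rw [h6]
          exact star_star _
      · intro ψ _
        exact star_star _
      · intro ψ _
        exact star_star _
    have h3 := Finset.card_compl_add_card A
    omega
  set f : Fin 3 ≃ A := (Fintype.equivFinOfCardEq (by rw [Fintype.card_coe, hAc])).symm with hf
  refine ⟨fun j => r (f j), ?_, ?_, ?_⟩
  · intro j
    have h1 : ((f j : A) : F →+* ℂ) ∈ A := (f j).2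
    exact (Finset.mem_filter.mp h1).2
  · intro i j hij
    rw [hr1, hr1] at hij
    exact f.injective (Subtype.ext hij)
  · intro y
    constructor
    · intro hy
      have h1 : res F y ∈ A := by
        rw [hA, Finset.mem_filter]
        refine ⟨Finset.mem_univ _, ?_⟩
        rw [← hy]
        apply FS_res_le hEF
        rw [hr1]
      refine ⟨f.symm ⟨res F y, h1⟩, ?_⟩
      rw [hr1, f.apply_symm_apply]
    · intro hy
      rcases FS_two hE hEN x₀ (res E y) with h6 | h6
      · exact absurd h6 hy
      · exact h6

/-- The three vectors. -/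
def FS_v : Fin 3 → Fin 2 → ℤ := ![![1, 0], ![0, -1], ![-1, 1]]

/-- The six vectors. -/
def FS_w (js : Fin 3 × Bool) : Fin 2 → ℤ := if js.2 then - FS_v js.1 else FS_v js.1

theorem FS_w_inj : ∀ a b : Fin 3 × Bool, FS_w a = FS_w b → a = b := by decide

theorem FS_w_mem : ∀ a : Fin 3 × Bool, ∃ s ∈ full 2, FS_w a = col s := by decide

theorem FS_w_surj : ∀ s ∈ full 2, ∃ a : Fin 3 × Bool, FS_w a = col s := by decide

theorem FS_w_neg (j : Fin 3) (s : Bool) : FS_w (j, !s) = - FS_w (j, s) := by
  cases s
  · rfl
  · simp [FS_w]

theorem FS_sum (k : Fin 3 → Fin 3) (hk : Function.Injective k) (t : Bool) :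
    FS_w (k 0, t) + FS_w (k 1, t) + FS_w (k 2, t) = 0 := by
  revert hk t
  revert k
  decide

/-- PROOF. `E ≤ F` from the definition, `x₀` some embedding, `x j` from `exists_three`,
`v 0 = ![1, 0]`, `v 1 = ![0, -1]`, `v 2 = ![-1, 1]`, so `v 0 + v 1 + v 2 = 0`.  Let `a y = v j` if
`res F y = res F (x j)` and `a y = - v j` if `res F y = conj (res F (x j))` (every `y` is in exactly one of
the six cases: `res E y = res E x₀` or `res E (conj y) = res E x₀`; the two cases exclude each other by
`nr_iff`).  `odd`, `mem`, `surj`: clear (the first columns of the matrices of `full 2` are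
`± (1, 0), ± (0, 1), ± (-1, 1)`).  `act`: let `g` be in the group.  `res E (g • x j)` does not depend on `j`
(`res_smul`), so either all `res F (g • x j)` are over `res E x₀`, and `a (g • x j) = v (π j)` with a map `π`,
injective since `res F (g • x i) = res F (g • x j)` implies `res F (x i) = res F (x j)` (apply `g⁻¹`), hence a
permutation; or all are over the conjugate, and `a (g • x j) = - v (π j)`.  In both cases
`∑ j, a (g • x j) = 0`, and the matrix `R` with `R *ᵥ v 0 = a (g • x 0)`, `R *ᵥ v 1 = a (g • x 1)` (`v 0, - v 1` is the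
standard basis) satisfies `R *ᵥ v 2 = a (g • x 2)`.  `irr`: let `l ≠ 0`, `h y = ∑ i, l i * a y i` and suppose
that for all `g`: `h (g • ·) = h` or `h (g • ·) = - h`.  By transitivity `|h|` is a constant `t`;
`h (x 0) + h (x 1) + h (x 2) = 0` with `h (x j) = ± t` forces `t = 0`, then `l = 0` (`h (x 0) = l 0`,
`h (x 1) = - l 1`).  The last claim is clear. -/
theorem exists_six {F : IntermediateField ℚ K} (hF : F ∈ XSub K 2) :
    ∃ a : (K →+* ℂ) → Fin 2 → ℤ,
      VTyp (GG K) (ComplexEmbedding.conjugate : (K →+* ℂ) → (K →+* ℂ)) 2 a ∧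
      ∀ x y, a x = a y ↔ res F x = res F y := by
  classical
  obtain ⟨-, hF6, E, hEF, hE, hEN⟩ := hF
  obtain ⟨x₀⟩ : Nonempty (K →+* ℂ) := inferInstance
  obtain ⟨x, hx1, hx2, hx3⟩ := exists_three hEF hF6 hE hEN x₀
  have hcc : ∀ {L : Type _} [Field L] (ψ : L →+* ℂ),
      ComplexEmbedding.conjugate (ComplexEmbedding.conjugate ψ) = ψ := fun ψ => star_star ψ
  -- the six classes
  set e : Fin 3 × Bool → (K →+* ℂ) := fun js =>
    if js.2 then ComplexEmbedding.conjugate (x js.1) else x js.1 with he
  have heE : ∀ js : Fin 3 × Bool, res E (e js) =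
      if js.2 then ComplexEmbedding.conjugate (res E x₀) else res E x₀ := by
    rintro ⟨j, s⟩
    cases s
    · simp only [he, Bool.false_eq_true, if_false]
      exact hx1 j
    · simp only [he, if_true]
      rw [res_conj, hx1 j]
  have heN : ∀ (j : Fin 3) (s : Bool), e (j, !s) = ComplexEmbedding.conjugate (e (j, s)) := by
    intro j s
    cases s
    · rfl
    · simp only [he, Bool.not_true, Bool.false_eq_true, if_false, if_true]
      exact (hcc _).symm
  have hsurj : ∀ y : K →+* ℂ, ∃ js : Fin 3 × Bool, res F y = res F (e js) := by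
    intro y
    by_cases hy : res E y = res E x₀
    · obtain ⟨j, hj⟩ := (hx3 y).1 hy
      exact ⟨(j, false), hj⟩
    · have h1 := (hx3 y).2 hy
      have h2 : res E (ComplexEmbedding.conjugate y) = res E x₀ := by
        rw [res_conj, h1]
        exact hcc _
      obtain ⟨j, hj⟩ := (hx3 _).1 h2
      refine ⟨(j, true), ?_⟩
      have h3 : e (j, true) = ComplexEmbedding.conjugate (x j) := rfl
      rw [h3, res_conj, ← hj, res_conj]
      exact (hcc _).symm
  have hinj : ∀ a b : Fin 3 × Bool, res F (e a) = res F (e b) → a = b := by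
    rintro ⟨i, s⟩ ⟨j, t⟩ h
    have h1 := FS_res_le hEF h
    rw [heE, heE] at h1
    have hne := nr_iff hEN x₀
    cases s <;> cases t
    · have h2 : i = j := hx2 i j h
      rw [h2]
    · simp only [Bool.false_eq_true, if_false, if_true] at h1
      exact absurd h1.symm hne
    · simp only [Bool.false_eq_true, if_false, if_true] at h1
      exact absurd h1 hne
    · have h2 : i = j := by
        apply hx2
        have h3 : e (i, true) = ComplexEmbedding.conjugate (x i) := rfl
        have h4 : e (j, true) = ComplexEmbedding.conjugate (x j) := rfl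
        rw [h3, h4, res_conj, res_conj] at h
        have h5 := congrArg ComplexEmbedding.conjugate h
        rw [hcc, hcc] at h5
        exact h5
      rw [h2]
  set ix : (K →+* ℂ) → Fin 3 × Bool := fun y => (hsurj y).choose with hix
  have hix1 : ∀ y, res F y = res F (e (ix y)) := fun y => (hsurj y).choose_spec
  have hix2 : ∀ y js, res F y = res F (e js) → ix y = js := fun y js h =>
    hinj _ _ ((hix1 y).symm.trans h)
  have hixc : ∀ y, ix (ComplexEmbedding.conjugate y) = ((ix y).1, !(ix y).2) := by
    intro y
    apply hix2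
    rw [heN, res_conj, res_conj, hix1 y]
  set a : (K →+* ℂ) → Fin 2 → ℤ := fun y => FS_w (ix y) with ha
  have hodd : ∀ y, a (ComplexEmbedding.conjugate y) = - a y := by
    intro y
    simp only [ha]
    rw [hixc, FS_w_neg]
  have hax : ∀ js, a (e js) = FS_w js := by
    intro js
    simp only [ha]
    rw [hix2 _ js rfl]
  have haF : ∀ y z, res F y = res F z → a y = a z := by
    intro y z h
    simp only [ha]
    rw [hix2 y (ix z) (h.trans (hix1 z))]
  have hlast : ∀ y z, a y = a z ↔ res F y = res F z := by
    intro y z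
    refine ⟨fun h => ?_, haF y z⟩
    have h1 := FS_w_inj _ _ h
    rw [hix1 y, h1, ← hix1 z]
  have hx0 : ∀ j, a (x j) = FS_v j := fun j => hax (j, false)
  refine ⟨a, ⟨hodd, fun y => FS_w_mem _, ?_, ?_, ?_⟩, hlast⟩
  · intro s hs
    obtain ⟨js, h⟩ := FS_w_surj s hs
    exact ⟨e js, by rw [hax, h]⟩
  · intro g
    have ht : ∀ j, (ix (g • x j)).2 = (ix (g • x 0)).2 := by
      intro j
      have h1 : res E (g • x j) = res E (g • x 0) := res_smul E ((hx1 j).trans (hx1 0).symm) g
      rw [FS_res_le hEF (hix1 (g • x j)), FS_res_le hEF (hix1 (g • x 0)), heE, heE] at h1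
      have hne := nr_iff hEN x₀
      rcases h2 : (ix (g • x j)).2 <;> rcases h3 : (ix (g • x 0)).2
      · rfl
      · rw [h2, h3] at h1
        simp only [Bool.false_eq_true, if_false, if_true] at h1
        exact absurd h1.symm hne
      · rw [h2, h3] at h1
        simp only [Bool.false_eq_true, if_false, if_true] at h1
        exact absurd h1 hne
      · rfl
    have hk : Function.Injective fun j => (ix (g • x j)).1 := by
      intro i j hij
      have h1 : ix (g • x i) = ix (g • x j) := Prod.ext hij ((ht i).trans (ht j).symm)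
      have h2 : res F (g • x i) = res F (g • x j) := by
        rw [hix1 (g • x i), h1, ← hix1 (g • x j)]
      have h3 := res_smul F h2 g⁻¹
      rw [inv_smul_smul, inv_smul_smul] at h3
      exact hx2 i j h3
    have haj : ∀ j, a (g • x j) = FS_w ((ix (g • x j)).1, (ix (g • x 0)).2) := by
      intro j
      rw [← ht j]
    have hs := FS_sum _ hk (ix (g • x 0)).2
    rw [← haj 0, ← haj 1, ← haj 2] at hs
    set R : M2 := Matrix.of fun i l => if l = 0 then a (g • x 0) i else - a (g • x 1) i with hR
    have hRv : ∀ j, R.mulVec (FS_v j) = a (g • x j) := by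
      intro j
      have hs' : ∀ i, a (g • x 0) i + a (g • x 1) i + a (g • x 2) i = 0 := fun i => by
        have := congrFun hs i
        simpa using this
      fin_cases j
      · ext i
        simp [Matrix.mulVec, dotProduct, Fin.sum_univ_two, hR, FS_v]
      · ext i
        simp [Matrix.mulVec, dotProduct, Fin.sum_univ_two, hR, FS_v]
      · ext i
        simp only [Matrix.mulVec, dotProduct, Fin.sum_univ_two, hR, FS_v]
        simp
        linarith [hs' i]
    refine ⟨R, fun y => ?_⟩
    obtain ⟨⟨j, s⟩, h⟩ := hsurj y
    have h1 := res_smul F h g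
    rw [haF _ _ h1, haF _ _ h]
    cases s
    · change a (g • x j) = R.mulVec (a (x j))
      rw [hx0, hRv]
    · change a (g • ComplexEmbedding.conjugate (x j)) =
        R.mulVec (a (ComplexEmbedding.conjugate (x j)))
      rw [hcgK, hodd, hodd, Matrix.mulVec_neg, hx0, hRv]
  · intro l hl
    by_contra hcon
    push Not at hcon
    set h : (K →+* ℂ) → ℚ := fun y => ∑ i, l i * (a y i : ℚ) with hh
    have h1 : ∀ g : GG K, h (g • x 0) = h (x 0) ∨ h (g • x 0) = - h (x 0) := by
      intro g
      by_cases h2 : ∃ y, h (g • y) ≠ h y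
      · exact Or.inr (hcon g h2 (x 0))
      · push Not at h2
        exact Or.inl (h2 (x 0))
    have h2 : ∀ y, h y = h (x 0) ∨ h y = - h (x 0) := by
      intro y
      obtain ⟨g, hg⟩ := exists_smul_eq (x 0) y
      rw [← hg]
      exact h1 g
    have h3 : h (x 0) + h (x 1) + h (x 2) = 0 := by
      simp only [hh, hx0, Fin.sum_univ_two, FS_v]
      simp
      ring
    have h4 : h (x 0) = 0 := by
      rcases h2 (x 1) with h5 | h5 <;> rcases h2 (x 2) with h6 | h6 <;>
        rw [h5, h6] at h3 <;> linarith
    have h5 : h (x 1) = 0 := by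
      rcases h2 (x 1) with h5 | h5 <;> rw [h5, h4] <;> simp
    apply hl
    ext i
    fin_cases i
    · simp only [hh, hx0, Fin.sum_univ_two, FS_v] at h4
      simpa using h4
    · simp only [hh, hx0, Fin.sum_univ_two, FS_v] at h5
      simpa using h5

end Pool.MP43e44c.GZ
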