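import Pool.Agent.H.MP_43e44c_ag.GZ.Def

/-!
Fibres of equivariant maps.
-/

set_option autoImplicit false

open Finset

namespace Pool.MP43e44c.GZ

/-- PROOF. Let `y = g • x`.  The map `z ↦ g • z` is a bijection between the fibres (the inverse is
`z ↦ g⁻¹ • z`). -/
theorem fib_eq {G X Z : Type*} [Group G] [MulAction G X] [MulAction.IsPretransitive G X] [Finite X]
    (p : X → Z) (hp : ∀ (g : G) x y, p x = p y → p (g • x) = p (g • y)) (x y : X) :
    {z | p z = p x}.ncard = {z | p z = p y}.ncard := by
  obtain ⟨g, hg⟩ := MulAction.exists_smul_eq G x y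
  refine Set.ncard_congr (fun z _ => g • z) ?_ ?_ ?_
  · intro z hz
    have h := hp g z x hz
    rw [hg] at h
    exact h
  · intro a b _ _ hab
    exact MulAction.injective g hab
  · intro z hz
    refine ⟨g⁻¹ • z, ?_, smul_inv_smul g z⟩
    have h := hp g⁻¹ z y hz
    rw [← hg, inv_smul_smul] at h
    exact h

/-- PROOF. `X` is the disjoint union of the fibres over the image of `p`
(`Finset.card_eq_sum_card_fiberwise` or `Finset.card_eq_sum_card_image`). -/
theorem fib_mul {G X Z : Type*} [Group G] [MulAction G X] [MulAction.IsPretransitive G X] [Fintype X]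
    [DecidableEq Z] (p : X → Z) (hp : ∀ (g : G) x y, p x = p y → p (g • x) = p (g • y)) (x : X) :
    (univ.image p).card * {z | p z = p x}.ncard = Fintype.card X := by
  classical
  have h1 : ∀ y : X, (univ.filter fun z => p z = p y).card = {z | p z = p x}.ncard := by
    intro y
    rw [fib_eq (G := G) p hp x y, ← Set.ncard_coe_finset]
    congr 1
    ext z
    simp
  have h2 := Finset.card_eq_sum_card_image p (univ : Finset X)
  have h3 : ∑ b ∈ univ.image p, (univ.filter fun a => p a = b).card =
      ∑ _b ∈ univ.image p, {z | p z = p x}.ncard := by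
    refine Finset.sum_congr rfl ?_
    intro b hb
    obtain ⟨y, -, rfl⟩ := Finset.mem_image.mp hb
    exact h1 y
  rw [Finset.sum_const, smul_eq_mul] at h3
  rw [← h3, ← h2, Finset.card_univ]

end Pool.MP43e44c.GZ
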