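import Pool.Agent.H.MP_43e44c_ag.GL.MainA
import Pool.Agent.H.MP_43e44c_ag.AB.Bonf

/-!
Families of representations of one group: lower bound for the union.
-/

set_option autoImplicit false

open Finset

namespace Pool.MP43e44c.GZ

open Pool.MP43e44c.GL

/-- PROOF. This is the group theoretic part of the proof of `kind_lower` (GL/MainA.lean): `union_lower`
with `ev_low` and `ev_pair`. -/
theorem grp_lower.{u, w} (k : Fin 5) : ∃ c₀ : ℝ, 0 < c₀ ∧ ∃ n₀ : ℕ,
    ∀ {G : Type u} [Group G] [Fintype G] [DecidableEq G] {c : G}, c * c = 1 →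
    ∀ {ι : Type w} (S : Finset ι) (ρ : ι → G →* M2), (∀ i ∈ S, Typ c k (ρ i)) →
      (∀ i ∈ S, ∀ j ∈ S, i ≠ j → (ρ i).ker ≠ (ρ j).ker) →
      ∀ n : ℕ, Fintype.card G = 2 * n → n₀ ≤ n → (k = 0 → 2 ∣ n) → (k = 1 → 4 ∣ n) →
      c₀ * min 1 (S.card * al k n) * 2 ^ n ≤ ((S.biUnion fun i => Ev c (ρ i)).card : ℝ) := by
  obtain ⟨c₁, hc₁, n₁, hlow⟩ := ev_low.{u} k
  obtain ⟨C, hC, hpair⟩ := ev_pair.{u} k
  have hκ1 : (1 : ℝ) ≤ max 1 (C / c₁ ^ 2) := le_max_left _ _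
  have hκ2 : C / c₁ ^ 2 ≤ max 1 (C / c₁ ^ 2) := le_max_right _ _
  obtain ⟨κ, hκ⟩ : ∃ κ : ℝ, κ = max 1 (C / c₁ ^ 2) := ⟨_, rfl⟩
  rw [← hκ] at hκ1 hκ2
  have hκ0 : 0 < κ := by linarith
  have hev : ∀ᶠ n : ℕ in Filter.atTop, al k n < 1 / (κ * c₁) :=
    (mainA_tendsto k).eventually_lt_const (by positivity)
  obtain ⟨n₂, hn₂⟩ := Filter.eventually_atTop.1 hev
  refine ⟨1 / (4 * κ) * min 1 c₁, by positivity, max (max n₁ n₂) 2, ?_⟩
  intro G _ _ _ c hc2 ι S ρ hρ hker n hcG hn0 hd2 hd4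
  have hn1 : n₁ ≤ n := (le_max_left _ _).trans ((le_max_left _ _).trans hn0)
  have hn2 : n₂ ≤ n := (le_max_right _ _).trans ((le_max_left _ _).trans hn0)
  have hn3 : 2 ≤ n := (le_max_right _ _).trans hn0
  have hal : 0 < al k n := mainA_pos k hn3
  have hα : 0 < c₁ * al k n := mul_pos hc₁ hal
  have hκα : κ * (c₁ * al k n) ≤ 1 := by
    have h1 := (hn₂ n hn2).le
    rw [le_div_iff₀ (by positivity)] at h1
    linarith
  have h1 := union_lower S (fun F => Ev c (ρ F)) (N := 2 ^ n) (α := c₁ * al k n) (κ := κ)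
    (by positivity) hα hκ1 hκα
    (fun F hF => hlow hc2 (hρ F hF) n hcG hn1 hd2 hd4)
    (fun F hF F' hF' hne => by
      have h2 := hpair hc2 (hρ F hF) (hρ F' hF') (hker F hF F' hF' hne) n hcG hn3
      refine h2.trans ?_
      apply mul_le_mul_of_nonneg_right _ (by positivity)
      have h3 : κ * (c₁ * al k n) ^ 2 = (κ * c₁ ^ 2) * (al k n) ^ 2 := by ring
      rw [h3]
      apply mul_le_mul_of_nonneg_right _ (by positivity)
      rwa [div_le_iff₀ (by positivity)] at hκ2)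
  refine le_trans ?_ h1
  have hx : 0 ≤ (S.card : ℝ) * al k n := by positivity
  have h4 : min 1 c₁ * min 1 ((S.card : ℝ) * al k n) ≤ min 1 ((S.card : ℝ) * (c₁ * al k n)) := by
    have ha : 0 ≤ min 1 c₁ := (lt_min one_pos hc₁).le
    have hb : 0 ≤ min 1 ((S.card : ℝ) * al k n) := le_min zero_le_one hx
    apply le_min
    · calc min 1 c₁ * min 1 ((S.card : ℝ) * al k n) ≤ 1 * 1 :=
            mul_le_mul (min_le_left _ _) (min_le_left _ _) hb zero_le_one
        _ = 1 := one_mul 1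
    · calc min 1 c₁ * min 1 ((S.card : ℝ) * al k n) ≤ c₁ * ((S.card : ℝ) * al k n) :=
            mul_le_mul (min_le_right _ _) (min_le_right _ _) hb hc₁.le
        _ = (S.card : ℝ) * (c₁ * al k n) := by ring
  apply mul_le_mul_of_nonneg_right _ (by positivity)
  rw [mul_assoc]
  exact mul_le_mul_of_nonneg_left h4 (by positivity)

end Pool.MP43e44c.GZ
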