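import Pool.Agent.H.MP_43e44c_ag.GZ.Def

/-!
Transport of half systems.
-/

set_option autoImplicit false

open Finset

namespace Pool.MP43e44c.GZ

open Pool.MP43e44c.GL

private theorem Trans_half {Ω : Type*} [Finite Ω] (τ : Ω → Ω) (hτ : ∀ ω, τ (τ ω) = ω)
    (hne : ∀ ω, τ ω ≠ ω) : ∃ S : Ω → Prop, ∀ ω, S ω ↔ ¬ S (τ ω) := by
  have : Fintype Ω := Fintype.ofFinite Ω
  let e := Fintype.equivFin Ω
  refine ⟨fun ω => e ω < e (τ ω), fun ω => ?_⟩
  show e ω < e (τ ω) ↔ ¬ e (τ ω) < e (τ (τ ω))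
  rw [hτ, not_lt]
  have h1 : e (τ ω) ≠ e ω := fun h => hne ω (e.injective h)
  exact ⟨fun h => h.le, fun h => lt_of_le_of_ne h (Ne.symm h1)⟩

/-- PROOF. `exists_half` (Tower.lean or Lat.lean; see the proof of `card_half_systems_le` in Tower.lean)
gives a set `T ⊆ Z` which contains exactly one of `z`, `cz z`.  For `z ∈ T` choose a bijection
`ε z : {x | p x = z} ≃ {y | q y = z}` (equal cardinalities).  Let `e x = ε (p x) x` if `p x ∈ T` and
`e x = c' (ε (cz (p x)) (c x))` if `p x ∉ T`.  Then `q (e x) = p x` and `e (c x) = c' (e x)`; `e` is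
injective (compare `p x`, then `ε`), and bijective since `X` and `Y` have the same cardinality (sum over
the fibres, `Finset.card_eq_sum_card_fiberwise`), or construct the inverse in the same way. -/
theorem exists_equiv {X Y Z : Type*} [Fintype X] [Fintype Y] [Fintype Z] {c : X → X} {c' : Y → Y}
    {cz : Z → Z} (hc : ∀ x, c (c x) = x) (hc' : ∀ y, c' (c' y) = y) (hz : Inv cz) (p : X → Z)
    (q : Y → Z) (hp : ∀ x, p (c x) = cz (p x)) (hq : ∀ y, q (c' y) = cz (q y))
    (hcard : ∀ z, {x | p x = z}.ncard = {y | q y = z}.ncard) :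
    ∃ e : X ≃ Y, (∀ x, e (c x) = c' (e x)) ∧ ∀ x, q (e x) = p x := by
  classical
  obtain ⟨S, hS⟩ := Trans_half cz hz.cc hz.ne
  have hg0 : ∀ z, Nonempty ({x // p x = z} ≃ {y // q y = z}) := by
    intro z
    have h1 : Nat.card {x // p x = z} = Nat.card {y // q y = z} := hcard z
    exact Finite.card_eq.1 h1
  have g := fun z => Classical.choice (hg0 z)
  have hgg : ∀ (z z' : Z) (x x' : X) (_ : x = x') (hx : p x = z) (hx' : p x' = z'),
      (g z ⟨x, hx⟩ : Y) = g z' ⟨x', hx'⟩ := by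
    intro z z' x x' hxx hx hx'
    subst hxx
    subst hx
    subst hx'
    rfl
  let f : X → Y := fun x =>
    if S (p x) then (g (p x) ⟨x, rfl⟩ : Y) else c' (g (cz (p x)) ⟨c x, hp x⟩)
  have hf1 : ∀ x, S (p x) → f x = (g (p x) ⟨x, rfl⟩ : Y) := fun x hx => if_pos hx
  have hf2 : ∀ x, ¬ S (p x) → f x = c' (g (cz (p x)) ⟨c x, hp x⟩) := fun x hx => if_neg hx
  have hqf : ∀ x, q (f x) = p x := by
    intro x
    by_cases hx : S (p x)
    · rw [hf1 x hx]
      exact (g (p x) ⟨x, rfl⟩).2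
    · rw [hf2 x hx, hq, (g (cz (p x)) ⟨c x, hp x⟩).2, hz.cc]
  have hcf : ∀ x, f (c x) = c' (f x) := by
    intro x
    by_cases hx : S (p x)
    · have h1 : ¬ S (p (c x)) := by rw [hp]; exact (hS _).1 hx
      rw [hf1 x hx, hf2 (c x) h1]
      congr 1
      exact hgg _ _ _ _ (hc x) _ _
    · have h1 : S (p (c x)) := by
        rw [hp]
        by_contra h2
        exact hx ((hS _).2 h2)
      rw [hf1 (c x) h1, hf2 x hx, hc']
      exact hgg _ _ _ _ rfl _ _
  have hinj : Function.Injective f := by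
    intro x x' h
    have h1 : p x = p x' := by rw [← hqf x, ← hqf x', h]
    by_cases hx : S (p x)
    · have hx' : S (p x') := h1 ▸ hx
      rw [hf1 x hx, hf1 x' hx', hgg (p x') (p x) x' x' rfl rfl h1.symm] at h
      exact congrArg Subtype.val ((g (p x)).injective (Subtype.ext h))
    · have hx' : ¬ S (p x') := h1 ▸ hx
      rw [hf2 x hx, hf2 x' hx'] at h
      have h2 := congrArg c' h
      rw [hc', hc', hgg (cz (p x')) (cz (p x)) (c x') (c x') rfl (hp x')
        (by rw [hp, h1])] at h2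
      have h3 := congrArg Subtype.val ((g (cz (p x))).injective (Subtype.ext h2))
      have h4 : c x = c x' := h3
      rw [← hc x, h4, hc]
  have hcardXY : Fintype.card X = Fintype.card Y :=
    Fintype.card_congr ((Equiv.sigmaFiberEquiv p).symm.trans
      ((Equiv.sigmaCongrRight g).trans (Equiv.sigmaFiberEquiv q)))
  have hbij : Function.Bijective f :=
    (Fintype.bijective_iff_injective_and_card f).2 ⟨hinj, hcardXY⟩
  exact ⟨Equiv.ofBijective f hbij, hcf, hqf⟩

/-- `A.map e` is a half system. -/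
theorem isH_map {X Y : Type*} {c : X → X} {c' : Y → Y} (e : X ≃ Y) (he : ∀ x, e (c x) = c' (e x))
    (A : Finset X) : IsH c' (A.map e.toEmbedding) ↔ IsH c A := by
  have h : ∀ x, e x ∈ A.map e.toEmbedding ↔ x ∈ A := fun x => mem_map' e.toEmbedding
  unfold IsH
  rw [e.surjective.forall]
  refine forall_congr' fun x => ?_
  rw [← he, h, h]

/-- For a function of a group element. -/
theorem isH_iff {G : Type*} [Group G] {c : G} {A : Finset G} :
    IsHf c A ↔ IsH (fun g => g * c) A := Iff.rfl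

/-- PROOF. The map `A ↦ A.map e` is a bijection between the half systems (`isH_map`), and
`∑ y ∈ A.map e, N y = ∑ x ∈ A, M x` (`Finset.sum_map`). -/
theorem map_Ma {X Y : Type*} [Fintype X] [Fintype Y] {c : X → X} {c' : Y → Y} (e : X ≃ Y)
    (he : ∀ x, e (c x) = c' (e x)) {M : X → M2} {N : Y → M2} (hN : ∀ x, N (e x) = M x)
    (A : Finset X) : A.map e.toEmbedding ∈ Ma c' N ↔ A ∈ Ma c M := by
  classical
  unfold Ma
  rw [mem_filter, mem_filter, isH_map e he, sum_map]
  have h : ∑ x ∈ A, N (e.toEmbedding x) = ∑ x ∈ A, M x := sum_congr rfl fun x _ => hN x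
  rw [h]
  simp

private theorem Trans_map_symm {X Y : Type*} (e : X ≃ Y) (B : Finset Y) :
    (B.map e.symm.toEmbedding).map e.toEmbedding = B := by
  ext y
  simp

/-- PROOF. `(∀ B ∈ E', ∃ A ∈ E, A.map e = B)`: the map `A ↦ A.map e` is injective and surjective. -/
theorem card_Ma {X Y : Type*} [Fintype X] [Fintype Y] {c : X → X} {c' : Y → Y} (e : X ≃ Y)
    (he : ∀ x, e (c x) = c' (e x)) {M : X → M2} {N : Y → M2} (hN : ∀ x, N (e x) = M x) :
    (Ma c M).card = (Ma c' N).card := by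
  refine card_bij (fun A _ => A.map e.toEmbedding) (fun A hA => (map_Ma e he hN A).2 hA)
    (fun A _ A' _ h => map_injective _ h) ?_
  intro B hB
  refine ⟨B.map e.symm.toEmbedding, ?_, Trans_map_symm e B⟩
  rw [← map_Ma e he hN, Trans_map_symm]
  exact hB

/-- The same for unions. -/
theorem card_biUnion_Ma {X Y : Type*} [Fintype X] [Fintype Y] [DecidableEq X] [DecidableEq Y]
    {c : X → X} {c' : Y → Y} (e : X ≃ Y) (he : ∀ x, e (c x) = c' (e x)) {ι : Type*}
    (S : Finset ι) {M : ι → X → M2} {N : ι → Y → M2} (hN : ∀ i ∈ S, ∀ x, N i (e x) = M i x) :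
    (S.biUnion fun i => Ma c (M i)).card = (S.biUnion fun i => Ma c' (N i)).card := by
  have key : ∀ A : Finset X, A.map e.toEmbedding ∈ (S.biUnion fun i => Ma c' (N i)) ↔
      A ∈ S.biUnion fun i => Ma c (M i) := by
    intro A
    rw [mem_biUnion, mem_biUnion]
    constructor
    · rintro ⟨i, hi, h⟩
      exact ⟨i, hi, (map_Ma e he (hN i hi) A).1 h⟩
    · rintro ⟨i, hi, h⟩
      exact ⟨i, hi, (map_Ma e he (hN i hi) A).2 h⟩
  refine card_bij (fun A _ => A.map e.toEmbedding) (fun A hA => (key A).2 hA)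
    (fun A _ A' _ h => map_injective _ h) ?_
  intro B hB
  refine ⟨B.map e.symm.toEmbedding, ?_, Trans_map_symm e B⟩
  rw [← key, Trans_map_symm]
  exact hB

end Pool.MP43e44c.GZ
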