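import Pool.Agent.H.MP_43e44c_ag.GZ.GrpL
import Pool.Agent.H.MP_43e44c_ag.GZ.Trans
import Pool.Agent.H.MP_43e44c_ag.GZ.Fib

/-!
Matrix valued functions on a transitive set: lower bound for the union.
-/

set_option autoImplicit false

open Finset

namespace Pool.MP43e44c.GZ

open Pool.MP43e44c.GL

/-- The common kernel. -/
def cker {G ι : Type*} [Group G] (S : Finset ι) (ρ : ι → G →* M2) : Subgroup G :=
  ⨅ i ∈ S, (ρ i).ker

instance cker_normal {G ι : Type*} [Group G] (S : Finset ι) (ρ : ι → G →* M2) :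
    (cker S ρ).Normal := by
  unfold cker
  refine Subgroup.normal_iInf_normal fun i => ?_
  refine Subgroup.normal_iInf_normal fun _ => ?_
  infer_instance

theorem MUni_mem_cker {G ι : Type*} [Group G] {S : Finset ι} {ρ : ι → G →* M2} {g : G} :
    g ∈ cker S ρ ↔ ∀ i ∈ S, ρ i g = 1 := by
  unfold cker
  simp only [Subgroup.mem_iInf, MonoidHom.mem_ker]

/-- The representations of the quotient.  PROOF. `QuotientGroup.lift`; `Typ` and the kernels pass to the
quotient (the kernel of `ρ i` is the preimage of the kernel of `ρ' i`). -/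
theorem exists_quot {G ι : Type*} [Group G] {c : G} {k : Fin 5} (S : Finset ι) (ρ : ι → G →* M2)
    (hρ : ∀ i ∈ S, Typ c k (ρ i)) (hne : ∀ i ∈ S, ∀ j ∈ S, i ≠ j → (ρ i).ker ≠ (ρ j).ker) :
    ∃ ρ' : ι → (G ⧸ cker S ρ) →* M2, (∀ i ∈ S, ∀ g : G, ρ' i (g : G ⧸ cker S ρ) = ρ i g) ∧
      (∀ i ∈ S, Typ (c : G ⧸ cker S ρ) k (ρ' i)) ∧
      ∀ i ∈ S, ∀ j ∈ S, i ≠ j → (ρ' i).ker ≠ (ρ' j).ker := by
  classical
  have hle : ∀ i ∈ S, ∀ g ∈ cker S ρ, ρ i g = 1 := fun i hi g hg => MUni_mem_cker.1 hg i hi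
  let ρ' : ι → (G ⧸ cker S ρ) →* M2 := fun i =>
    if h : i ∈ S then QuotientGroup.lift (cker S ρ) (ρ i) (hle i h) else 1
  have hρ' : ∀ i ∈ S, ∀ g : G, ρ' i (g : G ⧸ cker S ρ) = ρ i g := by
    intro i hi g
    simp only [ρ', dif_pos hi]
    exact QuotientGroup.lift_mk _ _ _
  refine ⟨ρ', hρ', ?_, ?_⟩
  · intro i hi
    refine ⟨?_, ?_, ?_⟩
    · rw [hρ' i hi]
      exact (hρ i hi).odd
    · intro q
      obtain ⟨g, rfl⟩ := QuotientGroup.mk_surjective q
      rw [hρ' i hi]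
      exact (hρ i hi).mem g
    · intro s hs
      obtain ⟨g, hg⟩ := (hρ i hi).surj s hs
      exact ⟨(g : G ⧸ cker S ρ), by rw [hρ' i hi]; exact hg⟩
  · intro i hi j hj hij heq
    refine hne i hi j hj hij ?_
    ext g
    rw [MonoidHom.mem_ker, MonoidHom.mem_ker, ← hρ' i hi, ← hρ' j hj, ← MonoidHom.mem_ker,
      ← MonoidHom.mem_ker, heq]

theorem MUni_Ev {Y : Type*} [Group Y] [Fintype Y] (c' : Y) (σ : Y →* M2) (N : Y → M2)
    (h : ∀ y, σ y = N y) : Ev c' σ = Ma (fun y => y * c') N := by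
  classical
  ext A
  unfold Ev Ma
  simp only [Finset.mem_filter, Finset.mem_univ, true_and]
  have h1 : ∑ y ∈ A, σ y = ∑ y ∈ A, N y := Finset.sum_congr rfl fun y _ => h y
  rw [h1]
  exact Iff.rfl

/-- PROOF. If `S` is empty the left side is `0`.  Let `N = cker S ρ`, `Q = G ⧸ N`, `ρ'` from `exists_quot`.
`p : X → Q`, `p (g • x₀) = g` is well defined since the stabilizer of `x₀` is contained in all kernels;
`p (c • x) = c * p x = p x * c` (`c` central).  Fibres: `p x = p y → p (g • x) = p (g • y)`, so each fibre has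
`b = card X / card Q` elements (`fib_eq`, `fib_mul`; `p` is surjective), `b ≥ 1`.  Let
`Y = Q × Multiplicative (ZMod b)`, `c' = (c, 1)`, so `Fintype.card Y = 2 * n`; `exists_equiv` with `Z = Q`,
`cz q = q * c` (no fixed points: otherwise `c ∈ N`, but `ρ i c = -1 ≠ 1`), `q = fst`.
`card_biUnion_Ma` with `N i y = ρ' i y.1`, and `grp_lower` for `Y` with `ρ' i ∘ fst` (`Typ` and different
kernels are clear). -/
theorem ma_union.{u, v, w} (k : Fin 5) : ∃ c₀ : ℝ, 0 < c₀ ∧ ∃ n₀ : ℕ,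
    ∀ {G : Type u} {X : Type v} [Group G] [Finite G] [MulAction G X] [MulAction.IsPretransitive G X]
      [Fintype X] [DecidableEq X] {c : G} (x₀ : X), c * c = 1 → (∀ g, c * g = g * c) →
      (∀ x : X, c • x ≠ x) →
    ∀ {ι : Type w} (S : Finset ι) (ρ : ι → G →* M2) (M : ι → X → M2), (∀ i ∈ S, Typ c k (ρ i)) →
      (∀ i ∈ S, ∀ g : G, M i (g • x₀) = ρ i g) →
      (∀ i ∈ S, ∀ j ∈ S, i ≠ j → (ρ i).ker ≠ (ρ j).ker) →
      ∀ n : ℕ, Fintype.card X = 2 * n → n₀ ≤ n → (k = 0 → 2 ∣ n) → (k = 1 → 4 ∣ n) →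
      c₀ * min 1 (S.card * al k n) * 2 ^ n
        ≤ ((S.biUnion fun i => Ma (fun x => c • x) (M i)).card : ℝ) := by
  classical
  obtain ⟨c₀, hc₀, n₀, hmain⟩ := grp_lower.{u, w} k
  refine ⟨c₀, hc₀, n₀, ?_⟩
  intro G X _ _ _ _ _ _ c x₀ hcc hcen hfix ι S ρ M hρ hM hne n hn hn₀ hk0 hk1
  rcases S.eq_empty_or_nonempty with hS | ⟨i₀, hi₀⟩
  · subst hS
    simp
  obtain ⟨ρ', hρ', hTyp, hker⟩ := exists_quot (c := c) (k := k) S ρ hρ hne
  have hex : ∀ x : X, ∃ g : G, g • x₀ = x := fun x => MulAction.exists_smul_eq G x₀ x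
  choose γ hγ using hex
  set Q := G ⧸ cker S ρ with hQ
  let p : X → Q := fun x => (γ x : Q)
  have hp1 : ∀ g : G, p (g • x₀) = (g : Q) := by
    intro g
    show ((γ (g • x₀) : G) : Q) = (g : Q)
    rw [QuotientGroup.eq, MUni_mem_cker]
    intro i hi
    have h1 : ρ i (γ (g • x₀)) = ρ i g := by
      rw [← hM i hi, ← hM i hi, hγ]
    rw [map_mul, ← h1, ← map_mul, inv_mul_cancel, map_one]
  have hp2 : ∀ (g : G) (x : X), p (g • x) = (g : Q) * p x := by
    intro g x
    have h1 : p (g • x) = ((g * γ x : G) : Q) := by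
      rw [← hp1, mul_smul, hγ]
    rw [h1]
    rfl
  have hcQ : ∀ q : Q, (c : Q) * q = q * (c : Q) := by
    intro q
    obtain ⟨g, rfl⟩ := QuotientGroup.mk_surjective q
    have h1 : ((c * g : G) : Q) = ((g * c : G) : Q) := by rw [hcen]
    exact h1
  have hccQ : (c : Q) * (c : Q) = 1 := by
    have h1 : ((c * c : G) : Q) = ((1 : G) : Q) := by rw [hcc]
    exact h1
  have hpc : ∀ x : X, p (c • x) = p x * (c : Q) := by
    intro x
    rw [hp2, hcQ]
  have hcne : (c : Q) ≠ 1 := by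
    intro h
    have h1 : ρ' i₀ (c : Q) = 1 := by rw [h, map_one]
    rw [(hTyp i₀ hi₀).odd] at h1
    have h2 := congrFun (congrFun h1 0) 0
    simp at h2
  have hsurj : Function.Surjective p := by
    intro q
    obtain ⟨g, rfl⟩ := QuotientGroup.mk_surjective q
    exact ⟨g • x₀, hp1 g⟩
  have hfib : ∀ (g : G) (x y : X), p x = p y → p (g • x) = p (g • y) := by
    intro g x y h
    rw [hp2, hp2, h]
  have hfinQ : Finite Q := by
    rw [hQ]
    infer_instance
  have : Fintype Q := Fintype.ofFinite Q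
  set b : ℕ := {z | p z = p x₀}.ncard with hb
  have hb0 : 0 < b := by
    rw [hb, Set.ncard_pos (Set.toFinite _)]
    exact ⟨x₀, rfl⟩
  have : NeZero b := ⟨hb0.ne'⟩
  have hcardQ : Fintype.card Q * b = Fintype.card X := by
    have h1 := fib_mul (G := G) p hfib x₀
    have h2 : (univ.image p) = (univ : Finset Q) := Finset.image_univ_of_surjective hsurj
    rw [h2, Finset.card_univ] at h1
    exact h1
  let Y := Q × Multiplicative (ZMod b)
  let c' : Y := ((c : Q), 1)
  have hcardY : Fintype.card Y = 2 * n := by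
    rw [← hn, ← hcardQ]
    show Fintype.card (Q × Multiplicative (ZMod b)) = _
    rw [Fintype.card_prod, Fintype.card_multiplicative, ZMod.card]
  have hc'2 : c' * c' = 1 := by
    show ((c : Q) * (c : Q), (1 : Multiplicative (ZMod b)) * 1) = 1
    rw [hccQ, mul_one]
    rfl
  have hcard : ∀ z : Q, {x | p x = z}.ncard = {y : Y | y.1 = z}.ncard := by
    intro z
    obtain ⟨x, rfl⟩ := hsurj z
    have h1 : {x' | p x' = p x}.ncard = b := fib_eq (G := G) p hfib x x₀
    have h2 : {y : Y | y.1 = p x} = (fun t : Multiplicative (ZMod b) => ((p x, t) : Y)) '' Set.univ := by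
      ext ⟨y1, y2⟩
      constructor
      · intro h
        refine ⟨y2, Set.mem_univ _, ?_⟩
        have h3 : y1 = p x := h
        rw [h3]
      · rintro ⟨t, -, ht⟩
        have h3 := congrArg Prod.fst ht
        exact h3.symm
    rw [h1, h2, Set.ncard_image_of_injective _ (fun t t' h => (congrArg Prod.snd h : t = t')),
      Set.ncard_univ, Nat.card_eq_fintype_card, Fintype.card_multiplicative, ZMod.card]
  obtain ⟨e, he1, he2⟩ := exists_equiv (c := fun x : X => c • x) (c' := fun y : Y => y * c')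
    (cz := fun q : Q => q * (c : Q))
    (fun x => by
      show c • c • x = x
      rw [← mul_smul, hcc, one_smul])
    (fun y => by
      show y * c' * c' = y
      rw [mul_assoc, hc'2, mul_one])
    ⟨fun q => by
      show q * (c : Q) * (c : Q) = q
      rw [mul_assoc, hccQ, mul_one], fun q h => by
      have h1 : q * (c : Q) = q := h
      exact hcne (mul_left_cancel (a := q) (by rw [mul_one]; exact h1))⟩
    p (Prod.fst : Y → Q) hpc (fun y => rfl) hcard
  have hMN : ∀ i ∈ S, ∀ x, (fun (i : ι) (y : Y) => ρ' i y.1) i (e x) = M i x := by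
    intro i hi x
    show ρ' i (e x).1 = M i x
    rw [he2]
    show ρ' i ((γ x : G) : Q) = M i x
    rw [hρ' i hi, ← hM i hi, hγ]
  have h10 := card_biUnion_Ma (c := fun x : X => c • x) (c' := fun y : Y => y * c') e he1 S (M := M) (N := fun (i : ι) (y : Y) => ρ' i y.1) hMN
  rw [h10]
  let σ : ι → Y →* M2 := fun i => (ρ' i).comp (MonoidHom.fst Q (Multiplicative (ZMod b)))
  have h11 : ∀ i, Ev c' (σ i) = Ma (fun y : Y => y * c') (fun y : Y => ρ' i y.1) :=
    fun i => MUni_Ev c' (σ i) _ fun y => rfl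
  have h12 : (S.biUnion fun i => Ma (fun y : Y => y * c') (fun y : Y => ρ' i y.1)) =
      S.biUnion fun i => Ev c' (σ i) := by
    refine Finset.biUnion_congr rfl fun i _ => ?_
    rw [h11]
  rw [h12]
  refine hmain (c := c') hc'2 S σ ?_ ?_ n hcardY hn₀ hk0 hk1
  · intro i hi
    refine ⟨(hTyp i hi).odd, fun y => (hTyp i hi).mem y.1, fun s hs => ?_⟩
    obtain ⟨q, hq⟩ := (hTyp i hi).surj s hs
    exact ⟨((q, 1) : Y), hq⟩
  · intro i hi j hj hij heq
    refine hker i hi j hj hij ?_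
    ext q
    have h13 : ((q, 1) : Y) ∈ (σ i).ker ↔ ((q, 1) : Y) ∈ (σ j).ker := by rw [heq]
    rw [MonoidHom.mem_ker, MonoidHom.mem_ker] at h13
    rw [MonoidHom.mem_ker, MonoidHom.mem_ker]
    exact h13

end Pool.MP43e44c.GZ
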