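import Pool.Agent.H.MP_43e44c_ag.GZ.VLin
import Pool.Agent.H.MP_43e44c_ag.GZ.Fib
import Pool.Agent.H.MP_43e44c_ag.GL.Atom
import Pool.Agent.H.MP_43e44c_ag.Tower

/-!
Vector valued functions: upper bound for two functions.
-/

set_option autoImplicit false

open Finset

namespace Pool.MP43e44c.GZ

open Pool.MP43e44c.GL

theorem VPair_hc (k : Fin 5) : 2 * hc k ≤ 12 := by
  revert k; decide

/-- The half system where `a` takes the values in one half.  PROOF. `full k` is the disjoint union of
`hf k` and `- hf k` (`hf_neg`), `col_inj`. -/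
theorem half_preV {G X : Type*} [Group G] [MulAction G X] [Fintype X] {c : X → X} {k : Fin 5}
    (hk : k = 1 ∨ k = 2) {a : X → Fin 2 → ℤ} (h : VTyp G c k a) [DecidableEq X] (T : Finset X)
    (hT : ∀ x, x ∈ T ↔ ∃ s ∈ hf k, a x = col s) : IsH c T := by
  have hsub : ∀ s ∈ hf k, s ∈ full k := fun s hs => mem_union_left _ hs
  have hcn : ∀ s : M2, col (-s) = - col s := fun s => by
    funext i
    simp [col]
  intro x
  rw [hT, hT, h.odd]
  constructor
  · rintro ⟨s, hs, hs2⟩ ⟨s', hs', hs2'⟩
    have h1 : col (-s) = col s' := by rw [hcn, ← hs2, hs2']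
    have h2 := col_inj hk _ (neg_mem k s (hsub s hs)) _ (hsub s' hs') h1
    apply hf_neg k s hs
    rw [h2]
    exact hs'
  · intro h1
    obtain ⟨s, hs, hs2⟩ := h.mem x
    unfold full at hs
    rcases mem_union.1 hs with h3 | h3
    · exact ⟨s, h3, hs2⟩
    · exfalso
      obtain ⟨s', hs', hs3⟩ := mem_image.1 h3
      apply h1
      refine ⟨s', hs', ?_⟩
      rw [hs2, ← hs3, hcn, neg_neg]

/-- As `half_sum` (GL/Half.lean). -/
theorem half_sumX {X : Type*} [DecidableEq X] {c : X → X} (hc : Inv c) {T A : Finset X}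
    (hT : IsH c T) (hA : IsH c A) {β : Type*} [AddCommGroup β] (x : X → β)
    (hx : ∀ g, x (c g) = - x g) :
    ∑ g ∈ A, x g = ∑ t : T, if (t : X) ∈ A then x t else - x t := by
  have h1 : ∑ g ∈ A \ T, x g = ∑ t ∈ T \ A, x (c t) := by
    symm
    refine Finset.sum_bij (fun t _ => c t) ?_ ?_ ?_ ?_
    · intro t ht
      rw [mem_sdiff] at ht ⊢
      refine ⟨?_, (hT t).1 ht.1⟩
      by_contra h
      exact ht.2 ((hA t).2 h)
    · intro a _ b _ hab
      rw [← hc.cc a, ← hc.cc b]
      exact congrArg c hab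
    · intro g hg
      rw [mem_sdiff] at hg
      refine ⟨c g, ?_, ?_⟩
      · rw [mem_sdiff]
        refine ⟨?_, (hA g).1 hg.1⟩
        by_contra h
        exact hg.2 ((hT g).2 h)
      · exact hc.cc g
    · intro t _
      rfl
  have h2 : ∑ g ∈ A, x g = ∑ g ∈ A ∩ T, x g + ∑ g ∈ A \ T, x g :=
    (Finset.sum_inter_add_sum_sdiff A T x).symm
  have h3 : ∑ t : T, (if (t : X) ∈ A then x t else - x t) =
      ∑ t ∈ T, (if t ∈ A then x t else - x t) :=
    Finset.sum_coe_sort T (fun t => if t ∈ A then x t else - x t)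
  have h4 : ∑ t ∈ T, (if t ∈ A then x t else - x t) =
      ∑ t ∈ T ∩ A, (if t ∈ A then x t else - x t) + ∑ t ∈ T \ A, (if t ∈ A then x t else - x t) :=
    (Finset.sum_inter_add_sum_sdiff T A _).symm
  rw [h3, h4, h2, h1]
  congr 1
  · rw [inter_comm]
    refine Finset.sum_congr rfl fun t ht => ?_
    rw [if_pos (mem_inter.1 ht).2]
  · refine Finset.sum_congr rfl fun t ht => ?_
    rw [if_neg (mem_sdiff.1 ht).2, hx]

/-- As `half_card`, `half_le` (GL/Half.lean). -/
theorem half_cardX {X : Type*} [Fintype X] {c : X → X} (hc : Inv c) {T : Finset X} (hT : IsH c T) :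
    2 * T.card = Fintype.card X := by
  classical
  have h1 : (Tᶜ).card = T.card := by
    symm
    refine Finset.card_bij (fun t _ => c t) ?_ ?_ ?_
    · intro t ht
      rw [mem_compl]
      exact (hT t).1 ht
    · intro a _ b _ hab
      rw [← hc.cc a, ← hc.cc b]
      exact congrArg c hab
    · intro g hg
      rw [mem_compl] at hg
      refine ⟨c g, ?_, hc.cc g⟩
      by_contra h
      exact hg ((hT g).2 h)
  have h2 := Finset.card_add_card_compl T
  omega

theorem half_leX {X : Type*} [Fintype X] [DecidableEq X] {c : X → X} (hc : Inv c) {T : Finset X}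
    (hT : IsH c T) (P : Finset X → Prop) (Q : (T → Bool) → Prop)
    (h : ∀ A, IsH c A → P A → Q fun t => decide ((t : X) ∈ A)) :
    {A | IsH c A ∧ P A}.ncard ≤ {v | Q v}.ncard := by
  refine Set.ncard_le_ncard_of_injOn (fun A : Finset X => fun t : T => decide ((t : X) ∈ A))
    ?_ ?_ (Set.toFinite _)
  · rintro A ⟨h1, h2⟩
    exact h A h1 h2
  · rintro A ⟨h1, -⟩ B ⟨h2, -⟩ hAB
    have key : ∀ g ∈ T, (g ∈ A ↔ g ∈ B) := by
      intro g hg
      have h3 := congrFun hAB ⟨g, hg⟩
      simpa using h3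
    ext g
    by_cases hg : g ∈ T
    · exact key g hg
    · have hgc : c g ∈ T := by
        by_contra h3
        exact hg ((hT g).2 h3)
      rw [h1 g, h2 g, key _ hgc]

/-- PROOF. As `ev_pair` (GL/UpC.lean), but only for the value `0`.  `T` is the half system of `half_preV`
for `a`.  `A ∈ Va c a ∩ Va c a'` implies `∑ x ∈ A, jnt a a' x = 0`; `half_sumX`, `half_leX`, `atom` (GL/Atom)
with `κ = Fin 2 ⊕ Fin 2`, `η = 1 / 144`, `b q = jnt a a' (t q)` (`basis_pairV`); `|jnt a a' x p| ≤ 1`
(`full_abs`).  The fibre of `jnt a a'` through `t ∈ T` is contained in `T` (`a` is constant on it) and has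
at least `card X / 144` elements: `fib_mul` for `p = jnt a a'` (invariance by `act`), the image has at
most `(2 * hc k) ^ 2 ≤ 144` elements.  Finally `n ^ (- 4 / 2) = (1 / n) ^ 2 = (al k n) ^ 2` for
`k = 1, 2`. -/
theorem va_pair.{v, u} {k : Fin 5} (hk : k = 1 ∨ k = 2) : ∃ C : ℝ, 0 < C ∧
    ∀ {G : Type v} {X : Type u} [Group G] [MulAction G X] [MulAction.IsPretransitive G X]
      [Fintype X] [DecidableEq X] {c : X → X} {a a' : X → Fin 2 → ℤ}, Inv c → VTyp G c k a →
      VTyp G c k a' → (¬ ∀ x y, a x = a y ↔ a' x = a' y) →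
      ∀ n : ℕ, Fintype.card X = 2 * n → 1 ≤ n →
      ((Va c a ∩ Va c a').card : ℝ) ≤ C * (al k n) ^ 2 * 2 ^ n := by
  obtain ⟨C₁, c₁, hC₁, hc₁, hatom⟩ := atom.{u, 0} (Fin 2 ⊕ Fin 2) (η := 1 / 144) (by norm_num)
  refine ⟨C₁, hC₁, ?_⟩
  intro G X _ _ _ _ _ c a a' hc h h' hne n hn h1n
  obtain ⟨T, hTdef⟩ : ∃ T : Finset X, T = univ.filter fun x => ∃ s ∈ hf k, a x = col s :=
    ⟨_, rfl⟩
  have hTm : ∀ x, x ∈ T ↔ ∃ s ∈ hf k, a x = col s := fun x => by
    rw [hTdef, mem_filter]
    simp
  have hT : IsH c T := half_preV hk h T hTm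
  have hTn : T.card = n := by
    have h1 := half_cardX hc hT
    omega
  have hTc : Fintype.card T = n := by
    rw [Fintype.card_coe, hTn]
  obtain ⟨t, ht⟩ := basis_pairV hk h h' hne hT
  have hn0 : (0 : ℝ) < n := by exact_mod_cast h1n
  have hodd : ∀ x, jnt a a' (c x) = - jnt a a' x := by
    intro x
    funext p
    rcases p with p | p
    · simp only [jnt, Sum.elim_inl, Pi.neg_apply, h.odd]
    · simp only [jnt, Sum.elim_inr, Pi.neg_apply, h'.odd]
  have habs : ∀ x p, |jnt a a' x p| ≤ 1 := by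
    intro x p
    rcases p with p | p
    · obtain ⟨s, hs, hs2⟩ := h.mem x
      simp only [jnt, Sum.elim_inl, hs2, col]
      exact full_abs k s hs _ _
    · obtain ⟨s, hs, hs2⟩ := h'.mem x
      simp only [jnt, Sum.elim_inr, hs2, col]
      exact full_abs k s hs _ _
  have hfib : ∀ i : T, (1 / 144 : ℝ) * n ≤
      ({j : T | jnt a a' j = jnt a a' i}.ncard : ℝ) := by
    intro i
    have h1 := fib_mul (G := G) (jnt a a') (by
      intro g x y hxy
      obtain ⟨R, hR⟩ := h.act g
      obtain ⟨R', hR'⟩ := h'.act g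
      have e1 : a x = a y := funext fun p => congrFun hxy (Sum.inl p)
      have e2 : a' x = a' y := funext fun p => congrFun hxy (Sum.inr p)
      funext p
      rcases p with p | p
      · simp only [jnt, Sum.elim_inl, hR, e1]
      · simp only [jnt, Sum.elim_inr, hR', e2]) (i : X)
    have h2 : (univ.image (jnt a a')).card ≤ 144 := by
      have h3 : univ.image (jnt a a') ⊆ ((full k).image col ×ˢ (full k).image col).image
          (fun q : (Fin 2 → ℤ) × (Fin 2 → ℤ) => (Sum.elim q.1 q.2 : Fin 2 ⊕ Fin 2 → ℤ)) := by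
        intro z hz
        obtain ⟨x, -, rfl⟩ := mem_image.1 hz
        obtain ⟨s, hs, hs2⟩ := h.mem x
        obtain ⟨s', hs', hs2'⟩ := h'.mem x
        refine mem_image.2 ⟨(a x, a' x), mem_product.2 ⟨?_, ?_⟩, rfl⟩
        · exact mem_image.2 ⟨s, hs, hs2.symm⟩
        · exact mem_image.2 ⟨s', hs', hs2'.symm⟩
      refine (card_le_card h3).trans (card_image_le.trans ?_)
      rw [card_product]
      have h4 : ((full k).image col).card ≤ 12 := by
        refine card_image_le.trans ?_
        rw [full_card]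
        exact VPair_hc k
      calc ((full k).image col).card * ((full k).image col).card ≤ 12 * 12 :=
            Nat.mul_le_mul h4 h4
        _ = 144 := by norm_num
    have h3 : {z | jnt a a' z = jnt a a' i}.ncard ≤
        {j : T | jnt a a' j = jnt a a' i}.ncard := by
      have hsub : {z | jnt a a' z = jnt a a' i} ⊆
          Subtype.val '' {j : T | jnt a a' j = jnt a a' i} := by
        intro z hz
        have hz' : jnt a a' z = jnt a a' i := hz
        have e1 : a z = a i := funext fun p => congrFun hz' (Sum.inl p)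
        have hzT : z ∈ T := by
          rw [hTm, e1]
          exact (hTm _).1 i.2
        exact ⟨⟨z, hzT⟩, hz', rfl⟩
      exact (Set.ncard_le_ncard hsub (Set.toFinite _)).trans (Set.ncard_image_le (Set.toFinite _))
    have h4 : 2 * n ≤ 144 * {j : T | jnt a a' j = jnt a a' i}.ncard := by
      rw [← hn, ← h1]
      exact Nat.mul_le_mul h2 h3
    have h5 : (2 * n : ℝ) ≤ 144 * ({j : T | jnt a a' j = jnt a a' i}.ncard : ℝ) := by
      exact_mod_cast h4
    linarith
  have h1 := half_leX hc hT (fun A => ∑ x ∈ A, jnt a a' x = 0)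
    (fun v => ∑ i : T, (if v i then jnt a a' i else - jnt a a' i) = 0) (by
      intro A hA hAz
      have h3 := half_sumX hc hT hA (fun x => jnt a a' x) hodd
      rw [← hAz, h3]
      refine Finset.sum_congr rfl fun i _ => ?_
      by_cases hi : (i : X) ∈ A
      · simp [hi]
      · simp [hi])
  have h3 := hatom (ι := T) (fun i => jnt a a' i) (fun i p => habs i p)
    (fun q => jnt a a' (t q)) ht (by
      intro q
      rw [hTc]
      exact hfib (t q)) (by omega) 0
  rw [hTc] at h3
  have h4 : ((Va c a ∩ Va c a').card : ℝ) ≤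
      ({A | IsH c A ∧ ∑ x ∈ A, jnt a a' x = 0}.ncard : ℝ) := by
    rw [← Set.ncard_coe_finset]
    refine Nat.cast_le.2 (Set.ncard_le_ncard ?_ (Set.toFinite _))
    intro A hA
    have hA1 := Finset.mem_inter.1 (Finset.mem_coe.1 hA)
    have hA2 := hA1.1
    have hA3 := hA1.2
    simp only [Va, Finset.mem_filter] at hA2 hA3
    refine ⟨hA2.2.1, ?_⟩
    funext p
    rw [Finset.sum_apply]
    rcases p with p | p
    · have e1 := congrFun hA2.2.2 p
      rw [Finset.sum_apply] at e1
      simp only [jnt, Sum.elim_inl]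
      exact e1
    · have e1 := congrFun hA3.2.2 p
      rw [Finset.sum_apply] at e1
      simp only [jnt, Sum.elim_inr]
      exact e1
  refine h4.trans (((Nat.cast_le.2 h1).trans h3).trans (le_of_eq ?_))
  have h5 : (n : ℝ) ^ (-(Fintype.card (Fin 2 ⊕ Fin 2) : ℝ) / 2) = (al k n) ^ 2 := by
    have e1 : (-(Fintype.card (Fin 2 ⊕ Fin 2) : ℝ) / 2) = ((-2 : ℤ) : ℝ) := by
      simp
      norm_num
    have e2 : al k n = 1 / n := by
      rcases hk with rfl | rfl
      · rfl
      · rfl
    rw [e1, Real.rpow_intCast, e2]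
    rw [zpow_neg, one_div, inv_pow]
    norm_cast
  rw [h5]
  simp

end Pool.MP43e44c.GZ
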