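import Pool.Agent.H.MP_43e44c_ag.GZ.ExoX
import Pool.Agent.H.MP_43e44c_ag.GZ.FQ
import Pool.Agent.H.MP_43e44c_ag.GZ.FS
import Pool.Agent.H.MP_43e44c_ag.GZ.FG
import Pool.Agent.H.MP_43e44c_ag.GZ.MUni
import Pool.Agent.H.MP_43e44c_ag.GZ.VUni

/-!
CM fields: the lower bound.
-/

set_option autoImplicit false

open NumberField Finset Module

namespace Pool.MP43e44c.GZ

open Pool.MP43e44c.GL

/-- PROOF. `conjugate` has no fixed points on the embeddings of a CM field (`conj_ne`), `conj_conj`. -/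
theorem inv_conj {K : Type*} [Field K] [NumberField K] [IsCMField K] :
    Inv (ComplexEmbedding.conjugate : (K →+* ℂ) → (K →+* ℂ)) :=
  ⟨conj_conj, conj_ne⟩

theorem MainL_four {K : Type*} [Field K] [NumberField K] {n : ℕ} (hn : finrank ℚ K = 2 * n)
    {F : IntermediateField ℚ K} (hF : F ∈ XSub K 1) : 4 ∣ n := by
  obtain ⟨-, h1, ⟨m, hm⟩, -⟩ := hF
  have h2 := finrank_mul_finrank ℚ F K
  rw [h1, hm, hn] at h2
  exact ⟨m, by omega⟩

theorem MainL_two {K : Type*} [Field K] [NumberField K] {n : ℕ} (hn : finrank ℚ K = 2 * n)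
    {F : IntermediateField ℚ K} (hF : F ∈ XSub K 0) : 2 ∣ n := by
  obtain ⟨-, h1, ⟨m, hm⟩⟩ := hF
  have h2 := finrank_mul_finrank ℚ F K
  rw [h1, hm, hn] at h2
  exact ⟨m, by omega⟩

theorem MainL_quad {K : Type*} [Field K] [NumberField K] {F : IntermediateField ℚ K}
    (hF : F ∈ XSub K 0) : F ∈ GSub K 0 := by
  obtain ⟨h0, h1, -⟩ := hF
  have : Algebra.IsQuadraticExtension ℚ F := ⟨h1⟩
  have hG : IsGalois ℚ F := Algebra.IsQuadraticExtension.isGalois ℚ F
  refine ⟨hG, h0, ?_, ?_⟩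
  · exact Algebra.IsQuadraticExtension.isCyclic ℚ F
  · rw [IsGalois.card_aut_eq_finrank, h1]

theorem MainL_sub {K : Type*} [Field K] [NumberField K] {k : Fin 5} (hk : ¬ (k = 1 ∨ k = 2))
    {F : IntermediateField ℚ K} (hF : F ∈ XSub K k) : F ∈ GSub K k := by
  fin_cases k
  · exact MainL_quad hF
  · exact absurd (Or.inl rfl) hk
  · exact absurd (Or.inr rfl) hk
  · exact hF
  · exact hF

theorem MainL_zero {k : Fin 5} {n : ℕ} {c₀ N : ℝ} (hN : 0 ≤ N) :
    c₀ * min 1 (((0 : ℕ) : ℝ) * al k n) * 2 ^ n ≤ N + 2 * n * 2 ^ (n / 2) := by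
  rw [Nat.cast_zero, zero_mul, min_eq_right zero_le_one, mul_zero, zero_mul]
  positivity

theorem MainL_fin (K : Type*) [Field K] [NumberField K] (k : Fin 5) : (XSub K k).Finite := by
  have : Finite (IntermediateField ℚ K) := Field.exists_primitive_element_iff_finite_intermediateField
    ℚ K |>.1 ⟨inferInstance, Field.exists_primitive_element ℚ K⟩
  exact Set.toFinite _

theorem MainL_vec.{u} (k : Fin 5) (hk : k = 1 ∨ k = 2) : ∃ c₀ : ℝ, 0 < c₀ ∧ ∃ n₀ : ℕ,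
    ∀ {K : Type u} [Field K] [NumberField K] [IsCMField K] {n : ℕ},
    finrank ℚ K = 2 * n → n₀ ≤ n →
    c₀ * min 1 ((XSub K k).ncard * al k n) * 2 ^ n
      ≤ ({Φ : Finset (K →+* ℂ) | IsCMType Φ ∧ ¬ HodgeRingGeneratedByDivisors Φ}.ncard : ℝ)
        + 2 * n * 2 ^ (n / 2) := by
  obtain ⟨c₀, hc₀, n₀, h⟩ := va_union.{0, u, u} hk
  refine ⟨c₀, hc₀, n₀, ?_⟩
  intro K _ _ _ n hn hn0
  classical
  have hfin : (XSub K k).Finite := MainL_fin K k
  obtain ⟨S, hS⟩ : ∃ S : Finset (IntermediateField ℚ K), S = hfin.toFinset := ⟨_, rfl⟩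
  have hmem : ∀ F, F ∈ S ↔ F ∈ XSub K k := by
    intro F
    rw [hS, Set.Finite.mem_toFinset]
  have hcard : (XSub K k).ncard = S.card := by
    rw [hS, Set.ncard_eq_toFinset_card _ hfin]
  rcases S.eq_empty_or_nonempty with hS0 | ⟨F₀, hF₀⟩
  · rw [hcard, hS0, Finset.card_empty]
    exact MainL_zero (Nat.cast_nonneg _)
  have hcX : Fintype.card (K →+* ℂ) = 2 * n := by
    rw [NumberField.Embeddings.card, hn]
  have hex : ∀ F : IntermediateField ℚ K, ∃ a : (K →+* ℂ) → Fin 2 → ℤ, F ∈ S →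
      VTyp (GG K) (ComplexEmbedding.conjugate : (K →+* ℂ) → (K →+* ℂ)) k a ∧
      ∀ x y, a x = a y ↔ res F x = res F y := by
    intro F
    by_cases hF : F ∈ S
    · rcases hk with rfl | rfl
      · obtain ⟨a, h1, h2⟩ := exists_four ((hmem F).1 hF)
        exact ⟨a, fun _ => ⟨h1, h2⟩⟩
      · obtain ⟨a, h1, h2⟩ := exists_six ((hmem F).1 hF)
        exact ⟨a, fun _ => ⟨h1, h2⟩⟩
    · exact ⟨0, fun h => absurd h hF⟩
  choose a ha using hex
  have h1 := h (G := GG K) (inv_conj (K := K)) S a (fun F hF => (ha F hF).1)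
    (fun F hF F' hF' hne h1 => by
      apply hne
      apply sub_eq
      intro x y
      rw [← (ha F hF).2 x y, ← (ha F' hF').2 x y]
      exact (h1 x y).symm) n hcX hn0 (fun hk1 => by
        subst hk1
        exact MainL_four hn ((hmem F₀).1 hF₀))
  have h2 := card_deg_le hn
    (S.biUnion fun i => Va (ComplexEmbedding.conjugate : (K →+* ℂ) → (K →+* ℂ)) (a i)) (by
      intro A hA
      obtain ⟨F, hF, hA⟩ := mem_biUnion.1 hA
      refine ⟨?_, deg_of_Va (ha F hF).1 hk hA⟩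
      unfold Va at hA
      rw [mem_filter] at hA
      exact hA.2.1)
  have h3 : ((S.biUnion fun i =>
      Va (ComplexEmbedding.conjugate : (K →+* ℂ) → (K →+* ℂ)) (a i)).card : ℝ)
      ≤ ({Φ : Finset (K →+* ℂ) | IsCMType Φ ∧ ¬ HodgeRingGeneratedByDivisors Φ}.ncard : ℝ)
        + 2 * n * 2 ^ (n / 2) := by
    exact_mod_cast h2
  rw [hcard]
  exact h1.trans h3

theorem MainL_mat.{u} (k : Fin 5) (hk : ¬ (k = 1 ∨ k = 2)) : ∃ c₀ : ℝ, 0 < c₀ ∧ ∃ n₀ : ℕ,
    ∀ {K : Type u} [Field K] [NumberField K] [IsCMField K] {n : ℕ},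
    finrank ℚ K = 2 * n → n₀ ≤ n →
    c₀ * min 1 ((XSub K k).ncard * al k n) * 2 ^ n
      ≤ ({Φ : Finset (K →+* ℂ) | IsCMType Φ ∧ ¬ HodgeRingGeneratedByDivisors Φ}.ncard : ℝ)
        + 2 * n * 2 ^ (n / 2) := by
  obtain ⟨c₀, hc₀, n₀, h⟩ := ma_union.{0, u, u} k
  refine ⟨c₀, hc₀, n₀, ?_⟩
  intro K _ _ _ n hn hn0
  classical
  have hfin : (XSub K k).Finite := MainL_fin K k
  obtain ⟨S, hS⟩ : ∃ S : Finset (IntermediateField ℚ K), S = hfin.toFinset := ⟨_, rfl⟩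
  have hmem : ∀ F, F ∈ S ↔ F ∈ XSub K k := by
    intro F
    rw [hS, Set.Finite.mem_toFinset]
  have hcard : (XSub K k).ncard = S.card := by
    rw [hS, Set.ncard_eq_toFinset_card _ hfin]
  rcases S.eq_empty_or_nonempty with hS0 | ⟨F₀, hF₀⟩
  · rw [hcard, hS0, Finset.card_empty]
    exact MainL_zero (Nat.cast_nonneg _)
  have hcX : Fintype.card (K →+* ℂ) = 2 * n := by
    rw [NumberField.Embeddings.card, hn]
  obtain ⟨x₀⟩ : Nonempty (K →+* ℂ) := inferInstance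
  have hex : ∀ F : IntermediateField ℚ K, ∃ ρ : GG K →* M2, ∃ M : (K →+* ℂ) → M2, F ∈ S →
      Typ (conjG K) k ρ ∧ (∀ g : GG K, ρ g = 1 ↔ res F (g • x₀) = res F x₀) ∧
      ∀ g : GG K, M (g • x₀) = ρ g := by
    intro F
    by_cases hF : F ∈ S
    · obtain ⟨ρ, h1, h2⟩ := exists_repX x₀ (MainL_sub hk ((hmem F).1 hF))
      obtain ⟨M, hM⟩ := exists_mat x₀ ρ h2
      exact ⟨ρ, M, fun _ => ⟨h1, h2, hM⟩⟩
    · exact ⟨1, 0, fun h => absurd h hF⟩
  choose ρ M hρ using hex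
  have hfun : (fun x : K →+* ℂ => conjG K • x) = ComplexEmbedding.conjugate :=
    funext fun x => conjG_smul x
  have h1 := h (G := GG K) (X := K →+* ℂ) (c := conjG K) x₀ conjG_sq (fun g => conjG_comm g)
    (fun x => by rw [conjG_smul]; exact conj_ne x) S ρ M (fun F hF => (hρ F hF).1)
    (fun F hF g => (hρ F hF).2.2 g)
    (fun F hF F' hF' hne hker => by
      apply hne
      have h5 : ∀ g : GG K, res F (g • x₀) = res F x₀ ↔ res F' (g • x₀) = res F' x₀ := by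
        intro g
        rw [← (hρ F hF).2.1 g, ← (hρ F' hF').2.1 g, ← MonoidHom.mem_ker, hker,
          MonoidHom.mem_ker]
      exact le_antisymm (sub_le x₀ fun g hg => (h5 g).2 hg) (sub_le x₀ fun g hg => (h5 g).1 hg))
    n hcX hn0 (fun hk0 => by
        subst hk0
        exact MainL_two hn ((hmem F₀).1 hF₀)) (fun hk1 => absurd (Or.inl hk1) hk)
  rw [hfun] at h1
  have h2 := card_deg_le hn
    (S.biUnion fun i => Ma (ComplexEmbedding.conjugate : (K →+* ℂ) → (K →+* ℂ)) (M i)) (by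
      intro A hA
      obtain ⟨F, hF, hA⟩ := mem_biUnion.1 hA
      obtain ⟨hT, -, hM⟩ := hρ F hF
      refine ⟨?_, deg_of_Ma (M := M F) (x₀ := x₀) ?_ ?_ ?_ hA⟩
      · unfold Ma at hA
        rw [mem_filter] at hA
        exact hA.2.1
      · intro x
        obtain ⟨g, rfl⟩ := exists_smul_eq x₀ x
        rw [← conjG_smul, ← mul_smul, hM, hM, map_mul, hT.odd, neg_one_mul]
      · intro g
        refine ⟨ρ F g, fun x => ?_⟩
        obtain ⟨h, rfl⟩ := exists_smul_eq x₀ x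
        rw [← mul_smul, hM, hM, map_mul]
      · have h6 := hM 1
        rwa [one_smul, map_one] at h6)
  have h3 : ((S.biUnion fun i =>
      Ma (ComplexEmbedding.conjugate : (K →+* ℂ) → (K →+* ℂ)) (M i)).card : ℝ)
      ≤ ({Φ : Finset (K →+* ℂ) | IsCMType Φ ∧ ¬ HodgeRingGeneratedByDivisors Φ}.ncard : ℝ)
        + 2 * n * 2 ^ (n / 2) := by
    exact_mod_cast h2
  rw [hcard]
  exact h1.trans h3

/-- PROOF. `k = 1, 2`: let `S` be the finite set `XSub K k`, `a F` from `exists_four`, `exists_six`; different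
fields have different functions by the last claim there and `sub_eq`; `va_union` (`X` the set of the
embeddings, `Fintype.card = 2 * n`); for `k = 1`: `finrank ℚ F * finrank F K = 2 * n` gives
`finrank F K = n / 2` even, so `4 ∣ n` (if `XSub K 1` is empty the left side is `0`); the union is bounded by
`card_deg_le` (`deg_of_Va`).  `k = 0, 3, 4`: `F ∈ XSub K 0` is in `GSub K 0` (quadratic fields are Galois with
cyclic group) and `2 ∣ n`; `ρ F` from `exists_repX`, `M F` from `exists_mat`; `ma_union` for `c = conjG K`;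
different fields have different kernels by `sub_le` (in both directions); `deg_of_Ma` with `M x₀ = ρ 1 = 1`,
`M (g • x) = ρ g * M x`, `M (conj x) = - M x` (`conjG_smul`, `ρ (conjG K) = -1`). -/
theorem kind_lowerX.{u} (k : Fin 5) : ∃ c₀ : ℝ, 0 < c₀ ∧ ∃ n₀ : ℕ,
    ∀ {K : Type u} [Field K] [NumberField K] [IsCMField K] {n : ℕ},
    finrank ℚ K = 2 * n → n₀ ≤ n →
    c₀ * min 1 ((XSub K k).ncard * al k n) * 2 ^ n
      ≤ ({Φ : Finset (K →+* ℂ) | IsCMType Φ ∧ ¬ HodgeRingGeneratedByDivisors Φ}.ncard : ℝ)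
        + 2 * n * 2 ^ (n / 2) := by
  by_cases hk : k = 1 ∨ k = 2
  · exact MainL_vec.{u} k hk
  · exact MainL_mat.{u} k hk

theorem MainL_al_ge (k : Fin 5) {n : ℕ} (hn : 3 ≤ n) : 1 / (n : ℝ) ≤ al k n := by
  have hn3 : (3 : ℝ) ≤ n := by exact_mod_cast hn
  have hn0 : (0 : ℝ) < n := by linarith
  have hlog : 1 ≤ Real.log n := by
    rw [Real.le_log_iff_exp_le hn0]
    have := Real.exp_one_lt_d9
    linarith
  have h3 : 1 / (n : ℝ) ≤ Real.log n / n := by gcongr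
  have h0 : 1 / (n : ℝ) ≤ 1 / √n := by
    have hs : 0 < √(n : ℝ) := Real.sqrt_pos.2 hn0
    have hle : √(n : ℝ) ≤ n := by
      rw [Real.sqrt_le_left hn0.le]
      nlinarith
    exact one_div_le_one_div_of_le hs hle
  fin_cases k
  · exact h0
  · exact le_rfl
  · exact le_rfl
  · exact h3
  · exact h3

theorem MainL_err {c : ℝ} (hc : 0 < c) : ∃ n₁ : ℕ, ∀ n : ℕ, n₁ ≤ n →
    2 * (n : ℝ) * 2 ^ (n / 2) ≤ c / 2 * (1 / n) * 2 ^ n := by
  have hlim := tendsto_pow_const_div_const_pow_of_one_lt 2 (by norm_num : (1 : ℝ) < 2)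
  have hev := hlim.eventually (gt_mem_nhds (show (0 : ℝ) < c / 36 by positivity))
  obtain ⟨m₁, hm₁⟩ := Filter.eventually_atTop.1 hev
  refine ⟨2 * m₁ + 2, fun n hn => ?_⟩
  have hm : m₁ ≤ n / 2 := by omega
  have hm1 : 1 ≤ n / 2 := by omega
  have h1 := hm₁ (n / 2) hm
  have hn0 : (0 : ℝ) < n := by
    have : 0 < n := by omega
    exact_mod_cast this
  have hnm : (n : ℝ) ≤ 3 * ((n / 2 : ℕ) : ℝ) := by
    have : n ≤ 3 * (n / 2) := by omega
    exact_mod_cast this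
  have hpow : (2 : ℝ) ^ (n / 2) * 2 ^ (n / 2) ≤ 2 ^ n := by
    rw [← pow_add]
    exact pow_le_pow_right₀ (by norm_num) (by omega)
  generalize ((n / 2 : ℕ) : ℝ) = m at h1 hnm
  have hp : (0 : ℝ) < 2 ^ (n / 2) := by positivity
  rw [div_lt_iff₀ hp] at h1
  have hsq : (n : ℝ) * n ≤ 9 * m ^ 2 := by nlinarith
  have h2 : 4 * ((n : ℝ) * n) ≤ c * 2 ^ (n / 2) := by linarith
  have h3 : 4 * ((n : ℝ) * n) * 2 ^ (n / 2) ≤ c * 2 ^ n := by
    calc 4 * ((n : ℝ) * n) * 2 ^ (n / 2) ≤ c * 2 ^ (n / 2) * 2 ^ (n / 2) :=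
          mul_le_mul_of_nonneg_right h2 hp.le
      _ = c * (2 ^ (n / 2) * 2 ^ (n / 2)) := by ring
      _ ≤ c * 2 ^ n := mul_le_mul_of_nonneg_left hpow hc.le
  have h4 : c / 2 * (1 / n) * 2 ^ n = c * 2 ^ n / (2 * n) := by
    field_simp
  rw [h4, le_div_iff₀ (by positivity)]
  calc 2 * (n : ℝ) * 2 ^ (n / 2) * (2 * n) = 4 * ((n : ℝ) * n) * 2 ^ (n / 2) := by ring
    _ ≤ c * 2 ^ n := h3

/-- PROOF. As `gal_lower` (GL/MainB.lean), which uses only `kind_lower`. -/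
theorem cm_lower.{u} : ∃ c₀ : ℝ, 0 < c₀ ∧ ∃ n₀ : ℕ,
    ∀ {K : Type u} [Field K] [NumberField K] [IsCMField K] {n : ℕ},
    finrank ℚ K = 2 * n → n₀ ≤ n →
    c₀ * min 1 (∑ k, (XSub K k).ncard * al k n) * 2 ^ n
      ≤ ({Φ : Finset (K →+* ℂ) | IsCMType Φ ∧ ¬ HodgeRingGeneratedByDivisors Φ}.ncard : ℝ) := by
  choose c hc n₀ hlow using fun k => kind_lowerX.{u} k
  obtain ⟨k₀, -, hk₀⟩ := Finset.exists_min_image (univ : Finset (Fin 5)) c ⟨0, mem_univ 0⟩
  obtain ⟨n₁, hn₁⟩ := MainL_err (hc k₀)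
  refine ⟨c k₀ / 10, by have := hc k₀; positivity, n₁ + 3 + ∑ k, n₀ k, ?_⟩
  intro K _ _ _ n hK hn
  have hn3 : 3 ≤ n := by omega
  have hn1 : n₁ ≤ n := by omega
  obtain ⟨k, -, hk⟩ := Finset.exists_max_image (univ : Finset (Fin 5))
    (fun k => ((XSub K k).ncard : ℝ) * al k n) ⟨0, mem_univ 0⟩
  have hnk : n₀ k ≤ n := by
    have := Finset.single_le_sum (f := n₀) (fun i _ => Nat.zero_le (n₀ i)) (mem_univ k)
    omega
  have h1 := hlow k (K := K) hK hnk
  have hal : 1 / (n : ℝ) ≤ al k n := MainL_al_ge k hn3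
  have hn0 : (0 : ℝ) < n := by
    have : 0 < n := by omega
    exact_mod_cast this
  have hal0 : 0 < al k n := lt_of_lt_of_le (by positivity) hal
  have hN : (0 : ℝ) ≤
      ({Φ : Finset (K →+* ℂ) | IsCMType Φ ∧ ¬ HodgeRingGeneratedByDivisors Φ}.ncard : ℝ) :=
    Nat.cast_nonneg _
  have hsum : ∑ j, ((XSub K j).ncard : ℝ) * al j n ≤ 5 * (((XSub K k).ncard : ℝ) * al k n) := by
    have h2 := Finset.sum_le_card_nsmul (univ : Finset (Fin 5))
      (fun j => ((XSub K j).ncard : ℝ) * al j n) (((XSub K k).ncard : ℝ) * al k n)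
      (fun j hj => hk j hj)
    rw [Finset.card_univ, Fintype.card_fin, nsmul_eq_mul] at h2
    exact_mod_cast h2
  have hx0 : 0 ≤ ((XSub K k).ncard : ℝ) * al k n := mul_nonneg (Nat.cast_nonneg _) hal0.le
  have hmin : min 1 (∑ j, ((XSub K j).ncard : ℝ) * al j n) ≤
      5 * min 1 (((XSub K k).ncard : ℝ) * al k n) := by
    rcases le_total 1 (((XSub K k).ncard : ℝ) * al k n) with h | h
    · rw [min_eq_left h]
      have := min_le_left 1 (∑ j, ((XSub K j).ncard : ℝ) * al j n)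
      linarith
    · rw [min_eq_right h]
      exact (min_le_right _ _).trans hsum
  have h2n : (0 : ℝ) < 2 ^ n := by positivity
  have hc0 := hc k₀
  have hck : c k₀ ≤ c k := hk₀ k (mem_univ k)
  rcases Nat.eq_zero_or_pos (XSub K k).ncard with h0 | h0
  · have h5 : min 1 (∑ j, ((XSub K j).ncard : ℝ) * al j n) ≤ 0 := by
      refine hmin.trans ?_
      rw [h0, Nat.cast_zero, zero_mul, min_eq_right zero_le_one, mul_zero]
    have h6 : c k₀ / 10 * min 1 (∑ j, ((XSub K j).ncard : ℝ) * al j n) * 2 ^ n ≤ 0 := by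
      have h7 : c k₀ / 10 * min 1 (∑ j, ((XSub K j).ncard : ℝ) * al j n) ≤ 0 :=
        mul_nonpos_of_nonneg_of_nonpos (by positivity) h5
      exact mul_nonpos_of_nonpos_of_nonneg h7 h2n.le
    exact h6.trans hN
  · have hcard : (1 : ℝ) ≤ (XSub K k).ncard := by exact_mod_cast h0
    have hx : 1 / (n : ℝ) ≤ ((XSub K k).ncard : ℝ) * al k n := by
      refine hal.trans ?_
      exact le_mul_of_one_le_left hal0.le hcard
    have hn1' : 1 / (n : ℝ) ≤ 1 := by
      rw [div_le_one hn0]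
      exact_mod_cast (by omega : 1 ≤ n)
    have hmin2 : 1 / (n : ℝ) ≤ min 1 (((XSub K k).ncard : ℝ) * al k n) := le_min hn1' hx
    generalize min 1 (((XSub K k).ncard : ℝ) * al k n) = y at h1 hmin hmin2
    generalize min 1 (∑ j, ((XSub K j).ncard : ℝ) * al j n) = z at hmin ⊢
    generalize ({Φ : Finset (K →+* ℂ) | IsCMType Φ ∧
      ¬ HodgeRingGeneratedByDivisors Φ}.ncard : ℝ) = N at h1 hN ⊢
    have herr := hn₁ n hn1
    have hy0 : 0 ≤ y := le_trans (by positivity) hmin2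
    have h8 : c k₀ / 2 * (1 / n) * 2 ^ n ≤ c k₀ / 2 * y * 2 ^ n := by
      refine mul_le_mul_of_nonneg_right ?_ h2n.le
      exact mul_le_mul_of_nonneg_left hmin2 (by positivity)
    have h9 : c k₀ * y * 2 ^ n ≤ c k * y * 2 ^ n := by
      refine mul_le_mul_of_nonneg_right ?_ h2n.le
      exact mul_le_mul_of_nonneg_right hck hy0
    have h10 : c k₀ / 10 * z * 2 ^ n ≤ c k₀ / 10 * (5 * y) * 2 ^ n := by
      refine mul_le_mul_of_nonneg_right ?_ h2n.le
      exact mul_le_mul_of_nonneg_left hmin (by positivity)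
    have h11 : c k₀ / 10 * (5 * y) * 2 ^ n = c k₀ / 2 * y * 2 ^ n := by ring
    have h12 : c k₀ * y * 2 ^ n = 2 * (c k₀ / 2 * y * 2 ^ n) := by ring
    linarith

end Pool.MP43e44c.GZ
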