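import Pool.Agent.H.MP_43e44c_ag.GZ.Def

/-!
Stable lines of odd functions.
-/

set_option autoImplicit false

open Finset Module

namespace Pool.MP43e44c.GZ

open Pool.MP43e44c.GL

/-- PROOF. `f (g • x) = s g * f x`; `s g` is determined since `f ≠ 0`, `s (g * h) = s g * s h`, and `|s g| = 1`
(compare the maxima of `|f|`; or `s g ^ m = 1` with `m = Nat.card G`), so `s g = 1` or `s g = -1`.
`ρ g = 1` or `-1` accordingly (`full 0 = {1, -1}`); `ρ c = -1` because `f` is odd and not zero.  `f x₀ ≠ 0` by
transitivity.  `M x = 1` if `f x = f x₀`, and `M x = -1` if `f x = - f x₀`; then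
`f x₀ * (∑ x ∈ A, M x) i j = (∑ x ∈ A, f x) * (1 : M2) i j = 0`. -/
theorem sml_one {G X : Type*} [Group G] [Finite G] [MulAction G X] [MulAction.IsPretransitive G X]
    [Fintype X] {c : G} (x₀ : X) {A : Finset X} (hA : IsH (fun x => c • x) A) {f : X → ℚ}
    (hf : f ≠ 0) (hodd : ∀ x, f (c • x) = - f x) (hs : ∀ g : G, ∃ s : ℚ, ∀ x, f (g • x) = s * f x)
    (h0 : ∑ x ∈ A, f x = 0) :
    ∃ ρ : G →* M2, Typ c 0 ρ ∧ ∃ M : X → M2, (∀ g, M (g • x₀) = ρ g) ∧
      A ∈ Ma (fun x => c • x) M := by
  classical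
  choose s hs using hs
  obtain ⟨x1, hx1⟩ : ∃ x, f x ≠ 0 := by
    by_contra h
    push Not at h
    exact hf (funext h)
  have hs1 : s 1 = 1 := by
    have h := hs 1 x1
    rw [one_smul] at h
    have h2 : (s 1 - 1) * f x1 = 0 := by rw [sub_mul, one_mul, ← h, sub_self]
    rcases mul_eq_zero.1 h2 with h3 | h3
    · linarith
    · exact absurd h3 hx1
  have hsm : ∀ g h, s (g * h) = s g * s h := by
    intro g h
    have h1 := hs (g * h) x1
    rw [mul_smul, hs g, hs h] at h1
    have h2 : (s (g * h) - s g * s h) * f x1 = 0 := by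
      rw [sub_mul, ← h1]
      ring
    rcases mul_eq_zero.1 h2 with h3 | h3
    · linarith
    · exact absurd h3 hx1
  have hpow : ∀ (g : G) (n : ℕ), s (g ^ n) = s g ^ n := by
    intro g n
    induction n with
    | zero => rw [pow_zero, pow_zero, hs1]
    | succ n ih => rw [pow_succ, hsm, ih, pow_succ]
  have hpm : ∀ g, s g = 1 ∨ s g = -1 := by
    intro g
    have h1 : s g ^ Nat.card G = 1 := by
      rw [← hpow, pow_card_eq_one', hs1]
    have h2 : |s g| ^ Nat.card G = 1 := by
      rw [← abs_pow, h1, abs_one]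
    have h3 : |s g| = 1 := (pow_eq_one_iff_of_nonneg (abs_nonneg _) Nat.card_pos.ne').1 h2
    exact eq_or_eq_neg_of_abs_eq h3
  have hx0 : f x₀ ≠ 0 := by
    obtain ⟨g, hg⟩ := MulAction.exists_smul_eq G x₀ x1
    intro h
    apply hx1
    rw [← hg, hs g, h, mul_zero]
  have h11 : (1 : ℚ) ≠ -1 := by norm_num
  let ρ : G →* M2 :=
    { toFun := fun g => if s g = 1 then 1 else -1
      map_one' := by simp [hs1]
      map_mul' := by
        intro g h
        show (if s (g * h) = 1 then (1 : M2) else -1)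
          = (if s g = 1 then (1 : M2) else -1) * (if s h = 1 then (1 : M2) else -1)
        rw [hsm]
        rcases hpm g with h1 | h1 <;> rcases hpm h with h2 | h2 <;> simp [h1, h2, h11.symm] }
  have hρ : ∀ g, ρ g = if s g = 1 then 1 else -1 := fun g => rfl
  have hfull : full 0 = {1, -1} := by decide
  have hsc : s c = -1 := by
    have h1 := hs c x1
    rw [hodd] at h1
    have h2 : (s c + 1) * f x1 = 0 := by rw [add_mul, ← h1]; ring
    rcases mul_eq_zero.1 h2 with h3 | h3
    · linarith
    · exact absurd h3 hx1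
  have hρc : ρ c = -1 := by rw [hρ, hsc, if_neg h11.symm]
  refine ⟨ρ, ⟨hρc, ?_, ?_⟩, fun x => if f x = f x₀ then 1 else -1, ?_, ?_⟩
  · intro g
    rw [hfull, hρ, mem_insert, mem_singleton]
    by_cases h : s g = 1
    · left
      rw [if_pos h]
    · right
      rw [if_neg h]
  · intro u hu
    rw [hfull, mem_insert, mem_singleton] at hu
    rcases hu with rfl | rfl
    · exact ⟨1, map_one ρ⟩
    · exact ⟨c, hρc⟩
  · intro g
    rw [hρ]
    show (if f (g • x₀) = f x₀ then (1 : M2) else -1) = _
    rw [hs g x₀]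
    by_cases h : s g = 1
    · rw [if_pos h, h, one_mul, if_pos rfl]
    · have h2 : s g = -1 := (hpm g).resolve_left h
      rw [if_neg h, h2, if_neg]
      intro h3
      apply hx0
      linarith
  · unfold Ma
    rw [mem_filter]
    refine ⟨mem_univ _, hA, ?_⟩
    -- the signs
    have hsg : ∀ x, f x = ((if f x = f x₀ then (1 : ℤ) else -1 : ℤ) : ℚ) * f x₀ := by
      intro x
      by_cases h : f x = f x₀
      · rw [if_pos h, h]
        simp
      · rw [if_neg h]
        obtain ⟨g, hg⟩ := MulAction.exists_smul_eq G x₀ x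
        have h1 := hs g x₀
        rw [hg] at h1
        rcases hpm g with h2 | h2
        · exfalso
          apply h
          rw [h1, h2, one_mul]
        · rw [h1, h2]
          push_cast
          ring
    have hz : (∑ x ∈ A, (if f x = f x₀ then (1 : ℤ) else -1)) = 0 := by
      have h1 : ((∑ x ∈ A, (if f x = f x₀ then (1 : ℤ) else -1) : ℤ) : ℚ) * f x₀ = 0 := by
        rw [Int.cast_sum, sum_mul, ← h0]
        exact sum_congr rfl fun x _ => (hsg x).symm
      rcases mul_eq_zero.1 h1 with h2 | h2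
      · exact_mod_cast h2
      · exact absurd h2 hx0
    have hM : (∑ x ∈ A, (if f x = f x₀ then (1 : M2) else -1))
        = (∑ x ∈ A, (if f x = f x₀ then (1 : ℤ) else -1)) • (1 : M2) := by
      rw [sum_smul]
      refine sum_congr rfl fun x _ => ?_
      by_cases h : f x = f x₀
      · rw [if_pos h, if_pos h, one_smul]
      · rw [if_neg h, if_neg h, neg_smul, one_smul]
    show (∑ x ∈ A, (if f x = f x₀ then (1 : M2) else -1)).det = 0
    rw [hM, hz, zero_smul]
    exact Matrix.det_zero

end Pool.MP43e44c.GZ
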