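import Pool.Agent.H.MP_43e44c_ag.GZ.Def
import Pool.Agent.H.MP_43e44c_ag.GU.MatB

/-!
Irreducible planes of odd functions.
-/

set_option autoImplicit false

open Finset Module

namespace Pool.MP43e44c.GZ

open Pool.MP43e44c.GL Pool.MP43e44c.GU

/-- The trace parameter: `rot (tk k)` is in `full k`. -/
def tk : Fin 5 → ℤ
  | 0 => 0
  | 1 => 0
  | 2 => 1
  | 3 => 0
  | 4 => 1

/-- The type of the subgroup of the rotations. -/
def ro : Fin 5 → Fin 5
  | 0 => 0
  | 1 => 1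
  | 2 => 2
  | 3 => 1
  | 4 => 2

/-- PROOF. All by `decide` for the five values of `k`. -/
theorem ro_sub (k : Fin 5) : full (ro k) ⊆ full k := by
  revert k; decide

/-- The matrix which commutes with the rotations and maps `e₁` to `w`. -/
def Pw (t : ℤ) (w : Fin 2 → ℚ) : Matrix (Fin 2) (Fin 2) ℚ := w 0 • 1 + w 1 • toQ2 (rot t)

theorem SmC_form {k : Fin 5} (hk : k ≠ 0) {s : M2} (hs : s ∈ full (ro k)) :
    s 0 1 = - s 1 0 ∧ s 1 1 = s 0 0 + tk k * s 1 0 := by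
  have h : ∀ k : Fin 5, k ≠ 0 → ∀ s ∈ full (ro k), s 0 1 = - s 1 0 ∧
      s 1 1 = s 0 0 + tk k * s 1 0 := by decide
  exact h k hk s hs

theorem SmC_tk (k : Fin 5) : tk k = 0 ∨ tk k = 1 := by
  revert k; decide

theorem SmC_quad {t : ℤ} (ht : t = 0 ∨ t = 1) {x y : ℚ} (h : x ^ 2 + t * x * y + y ^ 2 = 0) :
    x = 0 ∧ y = 0 := by
  rcases ht with rfl | rfl
  · push_cast at h
    constructor
    · have h1 : x ^ 2 = 0 := le_antisymm (by nlinarith [sq_nonneg x, sq_nonneg y]) (sq_nonneg x)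
      exact pow_eq_zero_iff (two_ne_zero) |>.1 h1
    · have h1 : y ^ 2 = 0 := le_antisymm (by nlinarith [sq_nonneg x, sq_nonneg y]) (sq_nonneg y)
      exact pow_eq_zero_iff (two_ne_zero) |>.1 h1
  · push_cast at h
    constructor
    · have h1 : x ^ 2 = 0 := le_antisymm (by nlinarith [sq_nonneg (x + 2 * y), sq_nonneg y])
        (sq_nonneg x)
      exact pow_eq_zero_iff (two_ne_zero) |>.1 h1
    · have h1 : y ^ 2 = 0 := le_antisymm (by nlinarith [sq_nonneg (2 * x + y), sq_nonneg y])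
        (sq_nonneg y)
      exact pow_eq_zero_iff (two_ne_zero) |>.1 h1

/-- PROOF. `Pw t w * toQ2 s = toQ2 s * Pw t w` for `s ∈ full (ro k)`, `t = tk k` (the elements of
`full 1` and `full 2` are `± rot t ^ j`), and `Pw t w *ᵥ e₁ = w` (the first column of `rot t` is
`(0, 1)`).  So `toQ2 s *ᵥ w = Pw t w *ᵥ (toQ2 s *ᵥ e₁)`. -/
theorem Pw_col {k : Fin 5} (hk : k ≠ 0) {s : M2} (hs : s ∈ full (ro k)) (w : Fin 2 → ℚ) :
    (toQ2 s).mulVec w = (Pw (tk k) w).mulVec (fun i => (col s i : ℚ)) := by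
  obtain ⟨h1, h2⟩ := SmC_form hk hs
  ext i
  fin_cases i
  · simp [Pw, toQ2, rot, col, Matrix.mulVec, dotProduct, Fin.sum_univ_two, h1]
    ring
  · simp [Pw, toQ2, rot, col, Matrix.mulVec, dotProduct, Fin.sum_univ_two, h2]
    ring

/-- PROOF. `det = w₀ ^ 2 + w₁ ^ 2` for `t = 0` and `w₀ ^ 2 + w₀ * w₁ + w₁ ^ 2` for `t = 1`. -/
theorem Pw_det {k : Fin 5} {w : Fin 2 → ℚ} (hw : w ≠ 0) : IsUnit (Pw (tk k) w).det := by
  rw [isUnit_iff_ne_zero]
  intro h0
  have h1 : (Pw (tk k) w).det = (w 0) ^ 2 + (tk k : ℤ) * (w 0) * (w 1) + (w 1) ^ 2 := by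
    rw [Matrix.det_fin_two]
    simp [Pw, toQ2, rot]
    ring
  rw [h1] at h0
  obtain ⟨h2, h3⟩ := SmC_quad (SmC_tk k) h0
  apply hw
  funext i
  fin_cases i
  · exact h2
  · exact h3

/-- Every element is a rotation times a power of a given reflection.  PROOF. `decide` for each `k`
(for `k = 1, 2` every element is a rotation). -/
theorem rot_cosets (k : Fin 5) : ∀ s ∈ full k, s ∉ full (ro k) → ∀ u ∈ full k, u ∈ full (ro k) ∨
    ∃ r ∈ full (ro k), u = r * s := by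
  revert k; decide

/-- A nontrivial element with a fixed vector is not a rotation.  PROOF. If `s ≠ 1` is a rotation then
`det (s - 1) ≠ 0` (`decide`), so `s *ᵥ w = w` implies `w = 0`. -/
theorem not_rot_of_fix {k : Fin 5} (hk : k ≠ 0) {s : M2} (hs : s ∈ full k) (h1 : s ≠ 1)
    {w : Fin 2 → ℚ} (hw : w ≠ 0) (hfix : (toQ2 s).mulVec w = w) : s ∉ full (ro k) := by
  intro hs'
  obtain ⟨h2, h3⟩ := SmC_form hk hs'
  have e0 := congrFun hfix 0
  have e1 := congrFun hfix 1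
  simp [toQ2, Matrix.mulVec, dotProduct, Fin.sum_univ_two, h2, h3] at e0 e1
  have hd : ((s 0 0 : ℚ) - 1) ^ 2 + (tk k : ℤ) * ((s 0 0 : ℚ) - 1) * (s 1 0 : ℚ) +
      (s 1 0 : ℚ) ^ 2 = 0 := by
    by_contra hne
    apply hw
    funext i
    have hw0 : (((s 0 0 : ℚ) - 1) ^ 2 + (tk k : ℤ) * ((s 0 0 : ℚ) - 1) * (s 1 0 : ℚ) +
      (s 1 0 : ℚ) ^ 2) * w 0 = 0 := by
      linear_combination ((s 0 0 : ℚ) - 1 + (tk k : ℤ) * (s 1 0 : ℚ)) * e0 + (s 1 0 : ℚ) * e1
    have hw1 : (((s 0 0 : ℚ) - 1) ^ 2 + (tk k : ℤ) * ((s 0 0 : ℚ) - 1) * (s 1 0 : ℚ) +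
      (s 1 0 : ℚ) ^ 2) * w 1 = 0 := by
      linear_combination (-(s 1 0 : ℚ)) * e0 + ((s 0 0 : ℚ) - 1) * e1
    fin_cases i
    · exact (mul_eq_zero.1 hw0).resolve_left hne
    · exact (mul_eq_zero.1 hw1).resolve_left hne
  obtain ⟨h4, h5⟩ := SmC_quad (SmC_tk k) hd
  have h6 : s 1 0 = 0 := by exact_mod_cast h5
  have h7 : s 0 0 = 1 := by
    have : (s 0 0 : ℚ) = 1 := by linarith
    exact_mod_cast this
  apply h1
  ext i j
  fin_cases i <;> fin_cases j
  · simpa using h7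
  · simpa [h6] using h2
  · simpa using h6
  · simpa [h6, h7] using h3

/-- PROOF. `b x` is the integral vector with `w`-coordinates: since every value `a' x = toQ2 (ρ g) *ᵥ w` is
of the form `toQ2 s *ᵥ w = Pw *ᵥ col s` with a rotation `s ∈ full (ro k)` (`hC`), put `b x = col s`; it is
unique because `Pw` is invertible.  `odd`, `mem` clear; `surj`: for `s ∈ full (ro k) ⊆ full k` choose `g`
with `ρ g = s`, `x = g • x₀`.  `act`: `R' = Pw⁻¹ * toQ2 (ρ g) * Pw` maps the first columns of the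
matrices in `full (ro k)` to such columns; in particular the images of `e₁ = col 1` and
`e₂ = col (rot t)` are integral, so `R'` is integral.  `irr`: let `l ≠ 0` and suppose that for all `g` the
function `x ↦ ∑ i, l i * b (g • x) i` is `±` the function `x ↦ ∑ i, l i * b x i`.  With the row vector
`v = l ᵥ* Pw⁻¹ ≠ 0`, `∑ i, l i * b x i = ∑ i, v i * a' x i`, so `v ᵥ* toQ2 (ρ g) = ± v` for all `g` (the values
of `a'` span the plane), against `hirr`.  `∑ x ∈ A, b x = 0` since `Pw` is invertible. -/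
theorem sml_vec {G X : Type*} [Group G] [MulAction G X] [MulAction.IsPretransitive G X] [Fintype X]
    {c : G} (x₀ : X) {k : Fin 5} (hk : k ≠ 0) {ρ : G →* M2} (hρ : Typ c k ρ)
    {a' : X → Fin 2 → ℚ} (hact : ∀ g x, a' (g • x) = (toQ2 (ρ g)).mulVec (a' x))
    (hsp : ∀ l : Fin 2 → ℚ, (∀ x, ∑ i, l i * a' x i = 0) → l = 0)
    (hirr : ∀ v : Fin 2 → ℚ, v ≠ 0 → ∃ g, ∀ t : ℚ, Matrix.vecMul v (toQ2 (ρ g)) ≠ t • v)
    (hC : ∀ g : G, ∃ s ∈ full (ro k), a' (g • x₀) = (toQ2 s).mulVec (a' x₀)) {A : Finset X}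
    (hA : IsH (fun x => c • x) A) (h0 : ∑ x ∈ A, a' x = 0) :
    ∃ b : X → Fin 2 → ℤ, VTyp G (fun x => c • x) (ro k) b ∧ A ∈ Va (fun x => c • x) b := by
  classical
  have hw : a' x₀ ≠ 0 := by
    intro h
    have h1 : ∀ x, a' x = 0 := by
      intro x
      obtain ⟨g, rfl⟩ := MulAction.exists_smul_eq G x₀ x
      rw [hact, h, Matrix.mulVec_zero]
    have h2 := hsp (fun _ => 1) (fun x => by simp [h1 x])
    have h3 := congrFun h2 0
    simp at h3
  obtain ⟨M, hM⟩ : ∃ M, M = Pw (tk k) (a' x₀) := ⟨_, rfl⟩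
  have hMd : IsUnit M.det := by rw [hM]; exact Pw_det hw
  have hC' : ∀ x, ∃ s ∈ full (ro k), a' x = (toQ2 s).mulVec (a' x₀) := by
    intro x
    obtain ⟨g, rfl⟩ := MulAction.exists_smul_eq G x₀ x
    exact hC g
  choose s hs1 hs2 using hC'
  have hcol : ∀ x, a' x = M.mulVec (fun i => ((col (s x) i : ℤ) : ℚ)) := by
    intro x
    rw [hs2 x, hM]
    exact Pw_col hk (hs1 x) _
  have hinv : ∀ x, (fun i => ((col (s x) i : ℤ) : ℚ)) = M⁻¹.mulVec (a' x) := by
    intro x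
    rw [hcol x, Matrix.mulVec_mulVec, Matrix.nonsing_inv_mul _ hMd, Matrix.one_mulVec]
  have huniq : ∀ x (v : Fin 2 → ℤ), a' x = M.mulVec (fun i => ((v i : ℤ) : ℚ)) →
      col (s x) = v := by
    intro x v hv
    have h1 := hinv x
    rw [hv, Matrix.mulVec_mulVec, Matrix.nonsing_inv_mul _ hMd, Matrix.one_mulVec] at h1
    funext i
    have h2 := congrFun h1 i
    simpa using h2
  have hsurj : ∀ r ∈ full (ro k), ∃ x, col (s x) = col r := by
    intro r hr
    obtain ⟨g, hg⟩ := hρ.surj r (ro_sub k hr)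
    refine ⟨g • x₀, huniq _ _ ?_⟩
    rw [hact, hg, hM]
    exact Pw_col hk hr _
  have hdot : ∀ (l : Fin 2 → ℚ) x, ∑ i, l i * ((col (s x) i : ℤ) : ℚ) =
      ∑ i, (Matrix.vecMul l M⁻¹) i * a' x i := by
    intro l x
    have h1 : ∑ i, l i * ((col (s x) i : ℤ) : ℚ) =
        l ⬝ᵥ (fun i => ((col (s x) i : ℤ) : ℚ)) := rfl
    rw [h1, hinv x, Matrix.dotProduct_mulVec]
    rfl
  refine ⟨fun x => col (s x), ⟨?_, fun x => ⟨s x, hs1 x, rfl⟩, ?_, ?_, ?_⟩, ?_⟩
  · intro x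
    apply huniq
    rw [hact, hρ.odd, matB_neg, matB_one, Matrix.neg_mulVec, Matrix.one_mulVec, hcol x]
    rw [← Matrix.mulVec_neg]
    congr 1
  · intro r hr
    obtain ⟨x, hx⟩ := hsurj r hr
    exact ⟨x, hx⟩
  · intro g
    obtain ⟨x1, hx1⟩ := hsurj 1 (one_mem _)
    have hrot : rot (tk k) ∈ full (ro k) := by
      have h : ∀ k : Fin 5, k ≠ 0 → rot (tk k) ∈ full (ro k) := by decide
      exact h k hk
    obtain ⟨x2, hx2⟩ := hsurj _ hrot
    refine ⟨!![col (s (g • x1)) 0, col (s (g • x2)) 0; col (s (g • x1)) 1, col (s (g • x2)) 1], ?_⟩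
    intro x
    have hR : ∀ y, (fun i => ((col (s (g • y)) i : ℤ) : ℚ)) =
        (M⁻¹ * toQ2 (ρ g) * M).mulVec (fun i => ((col (s y) i : ℤ) : ℚ)) := by
      intro y
      rw [hinv (g • y), hact, hcol y, Matrix.mulVec_mulVec, Matrix.mulVec_mulVec, mul_assoc]
    obtain ⟨N, hN⟩ : ∃ N, N = M⁻¹ * toQ2 (ρ g) * M := ⟨_, rfl⟩
    rw [← hN] at hR
    have a0 : (col (s x1) 0 : ℤ) = 1 := by rw [hx1]; simp [col]
    have a1 : (col (s x1) 1 : ℤ) = 0 := by rw [hx1]; simp [col]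
    have b0 : (col (s x2) 0 : ℤ) = 0 := by rw [hx2]; simp [col, rot]
    have b1 : (col (s x2) 1 : ℤ) = 1 := by rw [hx2]; simp [col, rot]
    have c00 : ((col (s (g • x1)) 0 : ℤ) : ℚ) = N 0 0 := by
      have := congrFun (hR x1) 0
      simpa [Matrix.mulVec, dotProduct, Fin.sum_univ_two, a0, a1] using this
    have c10 : ((col (s (g • x1)) 1 : ℤ) : ℚ) = N 1 0 := by
      have := congrFun (hR x1) 1
      simpa [Matrix.mulVec, dotProduct, Fin.sum_univ_two, a0, a1] using this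
    have c01 : ((col (s (g • x2)) 0 : ℤ) : ℚ) = N 0 1 := by
      have := congrFun (hR x2) 0
      simpa [Matrix.mulVec, dotProduct, Fin.sum_univ_two, b0, b1] using this
    have c11 : ((col (s (g • x2)) 1 : ℤ) : ℚ) = N 1 1 := by
      have := congrFun (hR x2) 1
      simpa [Matrix.mulVec, dotProduct, Fin.sum_univ_two, b0, b1] using this
    have d0 := congrFun (hR x) 0
    have d1 := congrFun (hR x) 1
    simp only [Matrix.mulVec, dotProduct, Fin.sum_univ_two] at d0 d1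
    rw [← c00, ← c01] at d0
    rw [← c10, ← c11] at d1
    funext i
    fin_cases i
    · have : col (s (g • x)) 0 = col (s (g • x1)) 0 * col (s x) 0 +
          col (s (g • x2)) 0 * col (s x) 1 := by exact_mod_cast d0
      simpa [Matrix.mulVec, dotProduct, Fin.sum_univ_two] using this
    · have : col (s (g • x)) 1 = col (s (g • x1)) 1 * col (s x) 0 +
          col (s (g • x2)) 1 * col (s x) 1 := by exact_mod_cast d1
      simpa [Matrix.mulVec, dotProduct, Fin.sum_univ_two] using this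
  · intro l hl
    have hv : Matrix.vecMul l M⁻¹ ≠ 0 := by
      intro h
      apply hl
      have h1 : Matrix.vecMul (Matrix.vecMul l M⁻¹) M = l := by
        rw [Matrix.vecMul_vecMul, Matrix.nonsing_inv_mul _ hMd, Matrix.vecMul_one]
      rw [← h1, h, Matrix.zero_vecMul]
    obtain ⟨g, hg⟩ := hirr _ hv
    have key : ∀ t : ℚ, (∀ x, ∑ i, l i * ((col (s (g • x)) i : ℤ) : ℚ) =
        t * ∑ i, l i * ((col (s x) i : ℤ) : ℚ)) → False := by
      intro t ht
      apply hg t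
      obtain ⟨v, hv'⟩ : ∃ v, v = Matrix.vecMul l M⁻¹ := ⟨_, rfl⟩
      rw [← hv']
      have h3 := hsp (Matrix.vecMul v (toQ2 (ρ g)) - t • v) (fun x => by
        have h1 := ht x
        rw [hdot, hdot, ← hv', hact] at h1
        have h2 : ∑ i, v i * ((toQ2 (ρ g)).mulVec (a' x)) i =
            ∑ i, (Matrix.vecMul v (toQ2 (ρ g))) i * a' x i :=
          Matrix.dotProduct_mulVec v _ _
        rw [h2, Finset.mul_sum] at h1
        calc ∑ i, (Matrix.vecMul v (toQ2 (ρ g)) - t • v) i * a' x i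
            = ∑ i, (Matrix.vecMul v (toQ2 (ρ g))) i * a' x i - ∑ i, t * (v i * a' x i) := by
              rw [← Finset.sum_sub_distrib]
              apply Finset.sum_congr rfl
              intro i _
              simp [sub_mul, mul_assoc]
          _ = 0 := by rw [h1, sub_self])
      exact sub_eq_zero.1 h3
    refine ⟨g, ?_, ?_⟩
    · by_contra hcon
      push Not at hcon
      exact key 1 (fun x => by rw [one_mul]; exact hcon x)
    · by_contra hcon
      push Not at hcon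
      exact key (-1) (fun x => by rw [neg_one_mul]; exact hcon x)
  · rw [Va, Finset.mem_filter]
    refine ⟨Finset.mem_univ _, hA, ?_⟩
    have h1 : ∑ x ∈ A, (fun i => ((col (s x) i : ℤ) : ℚ)) = 0 := by
      rw [Finset.sum_congr rfl (fun x _ => hinv x), ← Matrix.mulVec_sum, h0, Matrix.mulVec_zero]
    funext i
    have h2 := congrFun h1 i
    rw [Finset.sum_apply] at h2 ⊢
    have h3 : ((∑ x ∈ A, col (s x) i : ℤ) : ℚ) = 0 := by
      push_cast
      simpa using h2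
    simpa using (by exact_mod_cast h3 : (∑ x ∈ A, col (s x) i : ℤ) = 0)

/-- PROOF. `R c = -1` since `a (c • x) = - a x` and the values of `a` span the plane.  `cls_mat`
(GU/MatB.lean) gives `k ≠ 0`, `ρ`, `P`; let `a' x = P *ᵥ a x`, so `a' (g • x) = toQ2 (ρ g) *ᵥ a' x`, the values
of `a'` span, `hirr` holds for `ρ` (replace `v` by `v ᵥ* P`), `∑ x ∈ A, a' x = 0`; `w = a' x₀ ≠ 0`.
If `k = 1` or `k = 2` then `ro k = k` and `sml_vec` applies with `s = ρ g`.
Let `k = 3` or `k = 4`.  Case 1: `ρ g = 1` for all `g` in the stabiliser of `x₀`.  Then `M (g • x₀) = ρ g` is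
well defined and `(toQ2 (∑ x ∈ A, M x)) *ᵥ w = ∑ x ∈ A, a' x = 0`, so the determinant vanishes.
Case 2: there is `h` with `h • x₀ = x₀`, `s = ρ h ≠ 1`; `toQ2 s *ᵥ w = w`.  By `not_rot_of_fix`, `rot_cosets`
every `ρ g` is `r` or `r * s` with `r ∈ full (ro k)`, so `a' (g • x₀) = toQ2 r *ᵥ w`: `sml_vec` applies. -/
theorem sml_two {G X : Type*} [Group G] [Finite G] [MulAction G X] [MulAction.IsPretransitive G X]
    [Fintype X] {c : G} (x₀ : X) {A : Finset X} (hA : IsH (fun x => c • x) A)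
    {a : X → Fin 2 → ℚ} {R : G →* Matrix (Fin 2) (Fin 2) ℚ} (hodd : ∀ x, a (c • x) = - a x)
    (hact : ∀ g x, a (g • x) = (R g).mulVec (a x))
    (hsp : ∀ l : Fin 2 → ℚ, (∀ x, ∑ i, l i * a x i = 0) → l = 0)
    (hirr : ∀ v : Fin 2 → ℚ, v ≠ 0 → ∃ g, ∀ t : ℚ, Matrix.vecMul v (R g) ≠ t • v)
    (h0 : ∑ x ∈ A, a x = 0) :
    (∃ k : Fin 5, (k = 1 ∨ k = 2) ∧ ∃ b : X → Fin 2 → ℤ, VTyp G (fun x => c • x) k b ∧
      A ∈ Va (fun x => c • x) b) ∨
    ∃ k : Fin 5, (k = 3 ∨ k = 4) ∧ ∃ ρ : G →* M2, Typ c k ρ ∧ ∃ M : X → M2,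
      (∀ g, M (g • x₀) = ρ g) ∧ A ∈ Ma (fun x => c • x) M := by
  classical
  have hRc : R c = -1 := by
    have h1 : ∀ x, (R c + 1).mulVec (a x) = 0 := by
      intro x
      rw [Matrix.add_mulVec, Matrix.one_mulVec, ← hact, hodd, neg_add_cancel]
    have h2 : R c + 1 = 0 := by
      ext i j
      have h3 := hsp (fun j => (R c + 1) i j) (fun x => congrFun (h1 x) i)
      exact congrFun h3 j
    exact eq_neg_of_add_eq_zero_left h2
  obtain ⟨k, ρ, P, hk, hρ, hP, hPR⟩ := cls_mat R hRc hirr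
  have hPinv : ∀ l : Fin 2 → ℚ, Matrix.vecMul l P = 0 → l = 0 := by
    intro l hl
    have h1 : Matrix.vecMul (Matrix.vecMul l P) P⁻¹ = l := by
      rw [Matrix.vecMul_vecMul, Matrix.mul_nonsing_inv _ hP, Matrix.vecMul_one]
    rw [← h1, hl, Matrix.zero_vecMul]
  have hact' : ∀ g x, P.mulVec (a (g • x)) = (toQ2 (ρ g)).mulVec (P.mulVec (a x)) := by
    intro g x
    rw [hact, Matrix.mulVec_mulVec, Matrix.mulVec_mulVec, hPR]
  have hsp' : ∀ l : Fin 2 → ℚ, (∀ x, ∑ i, l i * (P.mulVec (a x)) i = 0) → l = 0 := by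
    intro l hl
    apply hPinv
    apply hsp
    intro x
    rw [← hl x]
    exact (Matrix.dotProduct_mulVec l P (a x)).symm
  have hirr' : ∀ v : Fin 2 → ℚ, v ≠ 0 → ∃ g, ∀ t : ℚ, Matrix.vecMul v (toQ2 (ρ g)) ≠ t • v := by
    intro v hv
    obtain ⟨g, hg⟩ := hirr (Matrix.vecMul v P) (fun h => hv (hPinv v h))
    refine ⟨g, fun t ht => hg t ?_⟩
    rw [Matrix.vecMul_vecMul, hPR, ← Matrix.vecMul_vecMul, ht, Matrix.smul_vecMul]
  have h0' : ∑ x ∈ A, P.mulVec (a x) = 0 := by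
    rw [← Matrix.mulVec_sum, h0, Matrix.mulVec_zero]
  have hw : P.mulVec (a x₀) ≠ 0 := by
    intro h
    have h1 : ∀ x, P.mulVec (a x) = 0 := by
      intro x
      obtain ⟨g, rfl⟩ := MulAction.exists_smul_eq G x₀ x
      rw [hact', h, Matrix.mulVec_zero]
    have h2 := hsp' (fun _ => 1) (fun x => by simp [h1 x])
    have h3 := congrFun h2 0
    simp at h3
  have hvec := fun hC => sml_vec x₀ hk hρ hact' hsp' hirr' hC hA h0'
  have hro : ro k = 1 ∨ ro k = 2 := by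
    have h : ∀ k : Fin 5, k ≠ 0 → ro k = 1 ∨ ro k = 2 := by decide
    exact h k hk
  by_cases hk12 : ro k = k
  · left
    refine ⟨ro k, hro, hvec ?_⟩
    intro g
    exact ⟨ρ g, by rw [hk12]; exact hρ.mem g, hact' g x₀⟩
  · by_cases hst : ∀ g : G, g • x₀ = x₀ → ρ g = 1
    · right
      have hk34 : k = 3 ∨ k = 4 := by
        have h : ∀ k : Fin 5, k ≠ 0 → ro k ≠ k → k = 3 ∨ k = 4 := by decide
        exact h k hk hk12
      have hex : ∀ x : X, ∃ g : G, g • x₀ = x := fun x => MulAction.exists_smul_eq G x₀ x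
      choose γ hγ using hex
      have hMr : ∀ g, ρ (γ (g • x₀)) = ρ g := by
        intro g
        have h1 : (g⁻¹ * γ (g • x₀)) • x₀ = x₀ := by
          rw [mul_smul, hγ, inv_smul_smul]
        have h2 := hst _ h1
        calc ρ (γ (g • x₀)) = ρ (g * (g⁻¹ * γ (g • x₀))) := by rw [mul_inv_cancel_left]
          _ = ρ g := by rw [map_mul, h2, mul_one]
      refine ⟨k, hk34, ρ, hρ, fun x => ρ (γ x), hMr, ?_⟩
      rw [Ma, Finset.mem_filter]
      refine ⟨Finset.mem_univ _, hA, ?_⟩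
      have h1 : (∑ x ∈ A, toQ2 (ρ (γ x))).mulVec (P.mulVec (a x₀)) = 0 := by
        rw [Matrix.sum_mulVec]
        rw [← h0']
        apply Finset.sum_congr rfl
        intro x _
        rw [← hact', hγ]
      have h2 : (∑ x ∈ A, toQ2 (ρ (γ x))).det = 0 :=
        Matrix.exists_mulVec_eq_zero_iff.1 ⟨_, hw, h1⟩
      have h3 : ∑ x ∈ A, toQ2 (ρ (γ x)) =
          (∑ x ∈ A, ρ (γ x)).map (fun z : ℤ => (z : ℚ)) := by
        ext i j
        simp [toQ2, Matrix.sum_apply]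
      rw [h3, Matrix.det_fin_two] at h2
      rw [Matrix.det_fin_two]
      simp only [Matrix.map_apply] at h2
      exact_mod_cast h2
    · left
      push Not at hst
      obtain ⟨h, hh1, hh2⟩ := hst
      have hfix : (toQ2 (ρ h)).mulVec (P.mulVec (a x₀)) = P.mulVec (a x₀) := by
        rw [← hact', hh1]
      have hnr := not_rot_of_fix hk (hρ.mem h) hh2 hw hfix
      refine ⟨ro k, hro, hvec ?_⟩
      intro g
      rcases rot_cosets k _ (hρ.mem h) hnr _ (hρ.mem g) with h1 | ⟨r, hr, h1⟩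
      · exact ⟨ρ g, h1, hact' g x₀⟩
      · refine ⟨r, hr, ?_⟩
        rw [hact', h1, matB_mul, ← Matrix.mulVec_mulVec, hfix]

end Pool.MP43e44c.GZ
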