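import Pool.Agent.H.MP_43e44c_ag.GZ.Sub
import Pool.Agent.H.MP_43e44c_ag.GZ.Fib
import Pool.Agent.H.MP_43e44c_ag.GU.Psi

/-!
From functions and representations to subfields.
-/

set_option autoImplicit false

open NumberField Finset Module

namespace Pool.MP43e44c.GZ

open Pool.MP43e44c.GL Pool.MP43e44c.GU

/-- A field on which complex conjugation is not trivial is not real. -/
theorem SmD_nr {K : Type*} [Field K] [NumberField K] (x₀ : K →+* ℂ) {F : IntermediateField ℚ K}
    (h : res F (conjG K • x₀) ≠ res F x₀) : NR F := by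
  by_contra hN
  apply h
  rw [res_eq_iff]
  intro z hz
  rw [conjG_smul, ComplexEmbedding.conjugate_coe_eq]
  apply Complex.conj_eq_iff_im.2
  by_contra him
  exact hN ⟨z, hz, x₀, him⟩

/-- PROOF. Let `F` be the field of `exists_sub` for `ρ.ker` (it contains the stabiliser); use the proof of
`exists_sub`: `F = (fixedField ρ.ker).comap (lft x₀)` and `F.map (lft x₀) = fixedField ρ.ker`
(`subf_map`), so `F` is isomorphic to `fixedField ρ.ker`, Galois with group `GG K ⧸ ρ.ker`, of type `k`
(`gtyp`, `gtyp_congr` as in `exists_Psi`, GU/Psi.lean).  It is not real since `ρ (conjG K) = -1 ≠ 1`. -/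
theorem exists_subG {K : Type*} [Field K] [NumberField K] [IsCMField K] (x₀ : K →+* ℂ) {k : Fin 5}
    {ρ : GG K →* M2} (hρ : Typ (conjG K) k ρ) (hst : ∀ g : GG K, g • x₀ = x₀ → ρ g = 1) :
    ∃ F ∈ GSub K k, ∀ g : GG K, ρ g = 1 ↔ res F (g • x₀) = res F x₀ := by
  have hH : MulAction.stabilizer (GG K) x₀ ≤ ρ.ker := by
    intro g hg
    exact hst g hg
  have hfd : FiniteDimensional ℚ (GC K) := inferInstance
  have hgal : IsGalois ℚ (IntermediateField.fixedField ρ.ker) :=
    IsGalois.of_fixedField_normal_subgroup ρ.ker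
  have hmap := subf_map x₀ hH
  let F : IntermediateField ℚ K := (IntermediateField.fixedField ρ.ker).comap (lft x₀)
  let f : IntermediateField.fixedField ρ.ker ≃ₐ[ℚ] F :=
    ((F.equivMap (lft x₀)).trans (IntermediateField.equivOfEq hmap)).symm
  have key : ∀ g : GG K, ρ g = 1 ↔ res F (g • x₀) = res F x₀ := by
    intro g
    rw [res_eq_iff]
    constructor
    · intro hg z hz
      have h1 : lft x₀ z ∈ IntermediateField.fixedField ρ.ker := hz
      have hg' : g ∈ ρ.ker := hg
      have h2 : g (lft x₀ z) = lft x₀ z := by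
        rw [← IntermediateField.fixingSubgroup_fixedField ρ.ker,
          IntermediateField.mem_fixingSubgroup_iff] at hg'
        exact hg' _ h1
      rw [smul_apply, h2, coe_lft]
    · intro h
      show g ∈ ρ.ker
      rw [← IntermediateField.fixingSubgroup_fixedField ρ.ker,
        IntermediateField.mem_fixingSubgroup_iff]
      intro w hw
      rw [← hmap] at hw
      obtain ⟨z, hz, rfl⟩ := hw
      exact Subtype.ext (h z hz)
  refine ⟨F, ⟨IsGalois.of_algEquiv f, ?_, ?_⟩, key⟩
  · apply SmD_nr x₀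
    intro h
    have h1 := (key (conjG K)).2 h
    rw [hρ.odd] at h1
    exact absurd h1 (by decide)
  · exact gtyp_congr ((IsGalois.normalAutEquivQuotient ρ.ker).trans (AlgEquiv.autCongr f))
      (gtyp hρ)

/-- The values of a vector function are translated by the group. -/
theorem SmD_eq {G X : Type*} [Group G] [MulAction G X] {a : X → Fin 2 → ℤ}
    (act : ∀ g : G, ∃ R : M2, ∀ x, a (g • x) = R.mulVec (a x)) {x y : X} (h : a x = a y) (g : G) :
    a (g • x) = a (g • y) := by
  obtain ⟨R, hR⟩ := act g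
  rw [hR, hR, h]

theorem SmD_col (k : Fin 5) : ∀ s ∈ full k, s 0 0 ≠ 0 ∨ s 1 0 ≠ 0 := by
  revert k
  decide

/-- The field of a vector function.  PROOF. Let `x₀` be an embedding, `H` the subgroup of the `g` with
`a (g • x₀) = a x₀`; it is a subgroup by `act` (if `a (g • x₀) = a x₀` and `R` belongs to `h` then
`a (h • g • x₀) = R *ᵥ a x₀ = a (h • x₀)`).  Its index is the number of the values of `a`, which is
`2 * hc k` (`surj`, `mem`, `col_inj`, `full_card`; orbit of `a x₀`, or `fib_mul` and
`card (stabilizer)`).  `F` from `exists_sub`; then `a x = a y ↔ res F x = res F y` for `x = g • x₀`,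
`y = h • x₀`: both sides are equivalent to `h⁻¹ * g ∈ H` (for `res`: `res_smul`).  `F` is not real:
`res F (conjG K • x₀) ≠ res F x₀` as `conjG K ∉ H` (`a` is odd and does not vanish). -/
theorem exists_subV {K : Type*} [Field K] [NumberField K] [IsCMField K] {k : Fin 5}
    (hk : k = 1 ∨ k = 2) {a : (K →+* ℂ) → Fin 2 → ℤ}
    (h : VTyp (GG K) (ComplexEmbedding.conjugate : (K →+* ℂ) → (K →+* ℂ)) k a) :
    ∃ F : IntermediateField ℚ K, NR F ∧ finrank ℚ F = 2 * hc k ∧
      ∀ x y, a x = a y ↔ res F x = res F y := by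
  classical
  obtain ⟨x₀⟩ : Nonempty (K →+* ℂ) := inferInstance
  let H : Subgroup (GG K) :=
    { carrier := {g | a (g • x₀) = a x₀}
      one_mem' := by
        show a ((1 : GG K) • x₀) = a x₀
        rw [one_smul]
      mul_mem' := by
        intro g g' hg hg'
        show a ((g * g') • x₀) = a x₀
        rw [mul_smul]
        exact (SmD_eq h.act hg' g).trans hg
      inv_mem' := by
        intro g hg
        show a (g⁻¹ • x₀) = a x₀
        have h1 := SmD_eq h.act (show a (g • x₀) = a x₀ from hg) g⁻¹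
        rw [inv_smul_smul] at h1
        exact h1.symm }
  have hmem : ∀ g : GG K, g ∈ H ↔ a (g • x₀) = a x₀ := fun g => Iff.rfl
  have hrel : ∀ g g' : GG K, g'⁻¹ * g ∈ H ↔ a (g • x₀) = a (g' • x₀) := by
    intro g g'
    rw [hmem, mul_smul]
    constructor
    · intro h1
      have h2 := SmD_eq h.act h1 g'
      rwa [smul_inv_smul] at h2
    · intro h1
      have h2 := SmD_eq h.act h1 g'⁻¹
      rwa [inv_smul_smul] at h2
  have hidx : H.index = 2 * hc k := by
    rw [Subgroup.index_eq_card, ← full_card k]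
    choose s hs has using h.mem
    have hout : ∀ g : GG K, a (Quotient.out (QuotientGroup.mk g : GG K ⧸ H) • x₀) = a (g • x₀) := by
      intro g
      obtain ⟨h1, hh⟩ := QuotientGroup.mk_out_eq_mul H g
      rw [hh, mul_smul]
      exact SmD_eq h.act ((hmem _).1 h1.2) g
    have hb : Function.Bijective (fun q : GG K ⧸ H =>
        (⟨s (Quotient.out q • x₀), hs _⟩ : {s // s ∈ full k})) := by
      constructor
      · intro q q' hq
        have h1 : s (Quotient.out q • x₀) = s (Quotient.out q' • x₀) := congrArg Subtype.val hq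
        have h2 : a (Quotient.out q • x₀) = a (Quotient.out q' • x₀) := by
          rw [has, has, h1]
        rw [← hrel] at h2
        have h3 : (QuotientGroup.mk (Quotient.out q') : GG K ⧸ H)
            = QuotientGroup.mk (Quotient.out q) := QuotientGroup.eq.2 h2
        rw [← Quotient.out_eq' q, ← Quotient.out_eq' q']
        exact h3.symm
      · rintro ⟨s', hs'⟩
        obtain ⟨x, hx⟩ := h.surj s' hs'
        obtain ⟨g, rfl⟩ := exists_smul_eq x₀ x
        refine ⟨QuotientGroup.mk g, Subtype.ext ?_⟩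
        apply col_inj hk _ (hs _) _ hs'
        rw [← has, hout, hx]
    rw [Nat.card_congr (Equiv.ofBijective _ hb), Nat.card_eq_fintype_card, Fintype.card_coe]
  have hst : MulAction.stabilizer (GG K) x₀ ≤ H := by
    intro g hg
    rw [hmem, MulAction.mem_stabilizer_iff.1 hg]
  obtain ⟨F, hF1, hF2⟩ := exists_sub x₀ hst
  refine ⟨F, ?_, hF1.trans hidx, ?_⟩
  · apply SmD_nr x₀
    intro h1
    rw [hF2, hmem, conjG_smul, h.odd] at h1
    obtain ⟨s, hs, has⟩ := h.mem x₀
    rw [has] at h1
    have h2 := congrFun h1 0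
    have h3 := congrFun h1 1
    simp only [Pi.neg_apply, col] at h2 h3
    rcases SmD_col k s hs with h4 | h4 <;> omega
  · intro x y
    obtain ⟨g, rfl⟩ := exists_smul_eq x₀ x
    obtain ⟨g', rfl⟩ := exists_smul_eq x₀ y
    rw [← hrel, ← hF2, mul_smul]
    constructor
    · intro h1
      have h2 := res_smul F h1 g'
      rwa [smul_inv_smul] at h2
    · intro h1
      have h2 := res_smul F h1 g'⁻¹
      rwa [inv_smul_smul] at h2

/-- A quadratic field which is not real has two embeddings. -/
theorem SmD_two {K : Type*} [Field K] [NumberField K] [IsCMField K] {E : IntermediateField ℚ K}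
    (h2 : finrank ℚ E = 2) (hN : NR E) (x y : K →+* ℂ) :
    res E x = res E y ∨ res E x = res E (ComplexEmbedding.conjugate y) := by
  classical
  have hc := NumberField.Embeddings.card E ℂ
  rw [h2] at hc
  have hne : res E (ComplexEmbedding.conjugate y) ≠ res E y := nr_iff hN y
  have h1 : ({res E y, res E (ComplexEmbedding.conjugate y)} : Finset (E →+* ℂ)) = univ := by
    apply Finset.eq_univ_of_card
    rw [hc, Finset.card_pair hne.symm]
  have h3 := mem_univ (res E x)
  rw [← h1, mem_insert, mem_singleton] at h3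
  exact h3

/-- The restriction to a smaller field. -/
theorem SmD_le {K : Type*} [Field K] [NumberField K] {E F : IntermediateField ℚ K} (h : E ≤ F)
    {x y : K →+* ℂ} (hxy : res F x = res F y) : res E x = res E y := by
  rw [res_eq_iff] at hxy ⊢
  exact fun z hz => hxy z (h hz)

/-- PROOF. `F` from `exists_subV`, of degree `4`; `finrank F K = n / 2` is even as `4 ∣ n`.  Suppose that
`E ≤ F` is quadratic and not real.  `E` has two embeddings (`nr_iff`), so with `e x = 1` if
`res E x = res E x₀` and `e x = -1` otherwise, `e` is odd, `e (g • x) = ± e x` with a sign which depends only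
on `g` (`res_smul`), and `e x` depends only on `res F x`, hence only on `a x`.  Let `e = α` where
`a = col 1` (`= e₁`) and `e = β` where `a = col (rot 0)` (`= e₂`); then `e x = ∑ i, l i * a x i` with
`l = ![α, β] ≠ 0` (`e` and `a` are odd), which contradicts `irr`. -/
theorem exists_subV1 {K : Type*} [Field K] [NumberField K] [IsCMField K] {n : ℕ}
    (hK : finrank ℚ K = 2 * n) (h4 : 4 ∣ n) {a : (K →+* ℂ) → Fin 2 → ℤ}
    (h : VTyp (GG K) (ComplexEmbedding.conjugate : (K →+* ℂ) → (K →+* ℂ)) 1 a) :
    ∃ F ∈ XSub K 1, ∀ x y, a x = a y ↔ res F x = res F y := by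
  classical
  obtain ⟨x₀⟩ : Nonempty (K →+* ℂ) := inferInstance
  obtain ⟨F, hN, hF, hiff⟩ := exists_subV (Or.inl rfl) h
  have hF4 : finrank ℚ F = 4 := hF
  refine ⟨F, ⟨hN, hF4, ?_, ?_⟩, hiff⟩
  · have h1 := Module.finrank_mul_finrank ℚ F K
    rw [hF4, hK] at h1
    obtain ⟨m, rfl⟩ := h4
    exact ⟨m, by omega⟩
  · intro E hE hE2 hNE
    let e : (K →+* ℂ) → ℚ := fun x => if res E x = res E x₀ then 1 else -1
    have hcne : ∀ x : K →+* ℂ, res E (ComplexEmbedding.conjugate x) ≠ res E x := nr_iff hNE
    have hcc : ∀ x : K →+* ℂ,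
        ComplexEmbedding.conjugate (ComplexEmbedding.conjugate x) = x := conj_conj
    have hresc : ∀ x y : K →+* ℂ, res E x = res E y →
        res E (ComplexEmbedding.conjugate x) = res E (ComplexEmbedding.conjugate y) := by
      intro x y hxy
      rw [res_conj, res_conj, hxy]
    have he1 : ∀ x, res E x = res E x₀ → e x = 1 := fun x hx => if_pos hx
    have he2 : ∀ x, res E x = res E (ComplexEmbedding.conjugate x₀) → e x = -1 := by
      intro x hx
      apply if_neg
      intro h1
      exact hcne x₀ (hx.symm.trans h1)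
    have hodd : ∀ x, e (ComplexEmbedding.conjugate x) = -e x := by
      intro x
      rcases SmD_two hE2 hNE x x₀ with h1 | h1
      · rw [he1 x h1, he2 _ (hresc _ _ h1)]
      · have h2 := hresc _ _ h1
        rw [hcc] at h2
        rw [he2 x h1, he1 _ h2, neg_neg]
    have hval : ∀ x, e x = 1 ∨ e x = -1 := by
      intro x
      rcases SmD_two hE2 hNE x x₀ with h1 | h1
      · exact Or.inl (he1 x h1)
      · exact Or.inr (he2 x h1)
    have hres : ∀ x y, res E x = res E y → e x = e y := by
      intro x y hxy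
      show (if _ then _ else _) = (if _ then _ else _)
      rw [hxy]
    have hact : ∀ (g : GG K) x, e (g • x) = e (g • x₀) * e x := by
      intro g x
      rcases SmD_two hE2 hNE x x₀ with h1 | h1
      · rw [he1 x h1, mul_one]
        exact hres _ _ (res_smul E h1 g)
      · rw [he2 x h1, mul_neg_one, ← hodd, ← hcgK]
        exact hres _ _ (res_smul E h1 g)
    have hea : ∀ x y, a x = a y → e x = e y := fun x y hxy =>
      hres _ _ (SmD_le hE ((hiff x y).1 hxy))
    obtain ⟨x1, hx1⟩ := h.surj 1 (by decide)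
    obtain ⟨x2, hx2⟩ := h.surj (rot 0) (by decide)
    have hlin : ∀ x, e x = ∑ i, (![e x1, e x2] : Fin 2 → ℚ) i * (a x i : ℚ) := by
      intro x
      obtain ⟨s, hs, has⟩ := h.mem x
      have hcases : s = 1 ∨ s = rot 0 ∨ -s = 1 ∨ -s = rot 0 := by
        have h5 : ∀ s ∈ full 1, s = 1 ∨ s = rot 0 ∨ -s = 1 ∨ -s = rot 0 := by decide
        exact h5 s hs
      have hcol : ∀ s : M2, col (-s) = -col s := fun s => rfl
      have hneg : a (ComplexEmbedding.conjugate x) = col (-s) := by
        rw [h.odd, has, hcol]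
      rw [Fin.sum_univ_two]
      rcases hcases with h5 | h5 | h5 | h5
      · rw [hea x x1 (by rw [has, h5, hx1]), has, h5]
        simp [col]
      · rw [hea x x2 (by rw [has, h5, hx2]), has, h5]
        simp [col, rot]
      · have h6 := hea _ x1 (by rw [hneg, h5, hx1])
        have h7 : s = -1 := by rw [← h5, neg_neg]
        rw [hodd] at h6
        rw [has, h7, ← h6]
        simp [col]
      · have h6 := hea _ x2 (by rw [hneg, h5, hx2])
        have h7 : s = -rot 0 := by rw [← h5, neg_neg]
        rw [hodd] at h6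
        rw [has, h7, ← h6]
        simp [col, rot]
    have hl0 : (![e x1, e x2] : Fin 2 → ℚ) ≠ 0 := by
      intro h0
      have h1 : e x1 = 0 := congrFun h0 0
      rcases hval x1 with h2 | h2 <;> rw [h2] at h1 <;> norm_num at h1
    obtain ⟨g, ⟨x, hx⟩, ⟨y, hy⟩⟩ := h.irr _ hl0
    rw [← hlin, ← hlin, hact] at hx hy
    rcases hval (g • x₀) with h2 | h2
    · apply hx
      rw [h2, one_mul]
    · apply hy
      rw [h2, neg_one_mul]

/-- The sign of the six vectors. -/
def SmD_sg (v : Fin 2 → ℤ) : ℤ :=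
  if (v 0 = 1 ∧ v 1 = 0) ∨ (v 0 = 0 ∧ v 1 = -1) ∨ (v 0 = -1 ∧ v 1 = 1) then 1 else -1

/-- PROOF. `F` from `exists_subV`, of degree `6`.  Let `e x = 1` if `a x` is one of the vectors
`(1, 0), (0, -1), (-1, 1)` and `e x = -1` otherwise (then `- a x` is one of them).  If `R` is the matrix of
`act` for `g`, it maps the six vectors to such vectors, and the three vectors with sum `0` to three
vectors with sum `0`: a check of the finitely many pairs (`R *ᵥ (1, 0)`, `R *ᵥ (0, -1)`) shows that they
are the same three vectors or their negatives.  So `e (g • x) = ± e x`, with a sign depending only on `g`.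
Let `H'` be the subgroup of the `g` with `e (g • x₀) = e x₀`, of index two (it contains the stabiliser and
not `conjG K`), `E` from `exists_sub`; `E ≤ F` by `sub_le`, `E` is quadratic and not real. -/
theorem exists_subV2 {K : Type*} [Field K] [NumberField K] [IsCMField K]
    {a : (K →+* ℂ) → Fin 2 → ℤ}
    (h : VTyp (GG K) (ComplexEmbedding.conjugate : (K →+* ℂ) → (K →+* ℂ)) 2 a) :
    ∃ F ∈ XSub K 2, ∀ x y, a x = a y ↔ res F x = res F y := by
  classical
  obtain ⟨x₀⟩ : Nonempty (K →+* ℂ) := inferInstance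
  obtain ⟨F, hN, hF, hiff⟩ := exists_subV (Or.inr rfl) h
  have hF6 : finrank ℚ F = 6 := hF
  let e : (K →+* ℂ) → ℤ := fun x => SmD_sg (a x)
  have hval : ∀ x, e x = 1 ∨ e x = -1 := by
    intro x
    show SmD_sg _ = 1 ∨ SmD_sg _ = -1
    unfold SmD_sg
    split_ifs
    · exact Or.inl rfl
    · exact Or.inr rfl
  have hcol : ∀ s : M2, col (-s) = -col s := fun s => rfl
  have hodd : ∀ x, e (ComplexEmbedding.conjugate x) = -e x := by
    intro x
    obtain ⟨s, hs, has⟩ := h.mem x
    show SmD_sg (a _) = -SmD_sg (a x)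
    rw [h.odd, has]
    have h5 : ∀ s ∈ full 2, SmD_sg (-col s) = -SmD_sg (col s) := by decide
    exact h5 s hs
  obtain ⟨x1, hx1⟩ := h.surj 1 (by decide)
  obtain ⟨x2, hx2⟩ := h.surj (-rot 1) (by decide)
  have hact : ∀ g : GG K, ∀ x, e (g • x) = e (g • x1) * e x := by
    intro g x
    obtain ⟨R, hR⟩ := h.act g
    obtain ⟨s1, hs1, has1⟩ := h.mem (g • x1)
    obtain ⟨s2, hs2, has2⟩ := h.mem (g • x2)
    obtain ⟨x3, hx3⟩ := h.surj (rot 1 * rot 1) (by decide)
    obtain ⟨s3, hs3, has3⟩ := h.mem (g • x3)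
    have hsum : col (1 : M2) + col (-rot 1) + col (rot 1 * rot 1) = 0 := by decide
    have hsum2 : col s1 + col s2 + col s3 = 0 := by
      rw [← has1, ← has2, ← has3, hR, hR, hR, hx1, hx2, hx3, ← Matrix.mulVec_add,
        ← Matrix.mulVec_add, hsum, Matrix.mulVec_zero]
    have h5 : ∀ s1 ∈ full 2, ∀ s2 ∈ full 2, ∀ s3 ∈ full 2,
        (s1 0 0 + s2 0 0 + s3 0 0 = 0 ∧ s1 1 0 + s2 1 0 + s3 1 0 = 0) →
        SmD_sg (col s2) = SmD_sg (col s1) ∧ SmD_sg (col s3) = SmD_sg (col s1) := by decide
    obtain ⟨h6, h7⟩ := h5 s1 hs1 s2 hs2 s3 hs3 ⟨congrFun hsum2 0, congrFun hsum2 1⟩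
    have h8 : e (g • x1) = SmD_sg (col s1) := by
      show SmD_sg (a _) = _
      rw [has1]
    have hneg : ∀ y, a (g • ComplexEmbedding.conjugate y) = -a (g • y) := by
      intro y
      rw [hcgK, h.odd]
    have h9 : ∀ s ∈ full 2, SmD_sg (-col s) = -SmD_sg (col s) := by decide
    obtain ⟨s, hs, has⟩ := h.mem x
    have hcases : (s = 1 ∨ s = -rot 1 ∨ s = rot 1 * rot 1) ∨
        (-s = 1 ∨ -s = -rot 1 ∨ -s = rot 1 * rot 1) := by
      have h5 : ∀ s ∈ full 2, (s = 1 ∨ s = -rot 1 ∨ s = rot 1 * rot 1) ∨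
        (-s = 1 ∨ -s = -rot 1 ∨ -s = rot 1 * rot 1) := by decide
      exact h5 s hs
    rw [h8]
    show SmD_sg (a _) = _ * SmD_sg (a x)
    rcases hcases with (h10 | h10 | h10) | (h10 | h10 | h10)
    · rw [SmD_eq h.act (show a x = a x1 by rw [has, h10, hx1]) g, has1, has, h10]
      have h11 : SmD_sg (col (1 : M2)) = 1 := by decide
      rw [h11, mul_one]
    · rw [SmD_eq h.act (show a x = a x2 by rw [has, h10, hx2]) g, has2, has, h10, h6]
      have h11 : SmD_sg (col (-rot 1)) = 1 := by decide
      rw [h11, mul_one]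
    · rw [SmD_eq h.act (show a x = a x3 by rw [has, h10, hx3]) g, has3, has, h10, h7]
      have h11 : SmD_sg (col (rot 1 * rot 1)) = 1 := by decide
      rw [h11, mul_one]
    · have h12 : s = -1 := by rw [← h10, neg_neg]
      rw [SmD_eq h.act (show a x = a (ComplexEmbedding.conjugate x1) by
        rw [has, h12, h.odd, hx1, hcol]) g, hneg, has1, has, h12, h9 s1 hs1]
      have h11 : SmD_sg (col (-1 : M2)) = -1 := by decide
      rw [h11, mul_neg_one]
    · have h12 : s = -(-rot 1) := by rw [← h10, neg_neg]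
      rw [SmD_eq h.act (show a x = a (ComplexEmbedding.conjugate x2) by
        rw [has, h12, h.odd, hx2, hcol]) g, hneg, has2, has, h12, h9 s2 hs2, h6]
      have h11 : SmD_sg (col (-(-rot 1) : M2)) = -1 := by decide
      rw [h11, mul_neg_one]
    · have h12 : s = -(rot 1 * rot 1) := by rw [← h10, neg_neg]
      rw [SmD_eq h.act (show a x = a (ComplexEmbedding.conjugate x3) by
        rw [has, h12, h.odd, hx3, hcol]) g, hneg, has3, has, h12, h9 s3 hs3, h7]
      have h11 : SmD_sg (col (-(rot 1 * rot 1) : M2)) = -1 := by decide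
      rw [h11, mul_neg_one]
  have hx1e : e x1 = 1 := by
    show SmD_sg (a x1) = 1
    rw [hx1]
    decide
  let H : Subgroup (GG K) :=
    { carrier := {g | ∀ x, e (g • x) = e x}
      one_mem' := fun x => by rw [one_smul]
      mul_mem' := by
        intro g g' hg hg' x
        rw [mul_smul]
        exact (hg _).trans (hg' x)
      inv_mem' := by
        intro g hg x
        have h1 := hg (g⁻¹ • x)
        rw [smul_inv_smul] at h1
        exact h1.symm }
  have hmem : ∀ g : GG K, g ∈ H ↔ ∀ x, e (g • x) = e x := fun g => Iff.rfl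
  have hmem1 : ∀ g : GG K, g ∈ H ↔ e (g • x1) = 1 := by
    intro g
    rw [hmem]
    constructor
    · intro h1
      rw [h1, hx1e]
    · intro h1 x
      rw [hact, h1, one_mul]
  have hidx : H.index = 2 := by
    rw [Subgroup.index_eq_two_iff]
    refine ⟨conjG K, fun b => ?_⟩
    rw [hmem1, hmem1, mul_smul, conjG_smul, hcgK, hodd]
    rcases hval (b • x1) with h1 | h1
    · rw [h1]
      right
      exact ⟨rfl, by norm_num⟩
    · rw [h1]
      left
      exact ⟨by norm_num, by norm_num⟩
  have hst : MulAction.stabilizer (GG K) x₀ ≤ H := by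
    intro g hg
    rw [MulAction.mem_stabilizer_iff] at hg
    rw [hmem1]
    have h1 := hact g x₀
    rw [hg] at h1
    rcases hval x₀ with h2 | h2
    · rw [h2, mul_one] at h1
      exact h1.symm
    · rw [h2] at h1
      omega
  obtain ⟨E, hE1, hE2⟩ := exists_sub x₀ hst
  refine ⟨F, ⟨hN, hF6, E, ?_, hE1.trans hidx, ?_⟩, hiff⟩
  · apply sub_le x₀
    intro g hg
    rw [hE2, hmem1]
    rw [← hiff] at hg
    have h1 : e (g • x₀) = e x₀ := by
      show SmD_sg (a _) = SmD_sg (a _)
      rw [hg]
    have h2 := hact g x₀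
    rw [h1] at h2
    rcases hval x₀ with h3 | h3
    · rw [h3, mul_one] at h2
      exact h2.symm
    · rw [h3] at h2
      omega
  · apply SmD_nr x₀
    intro h1
    rw [hE2, hmem1, conjG_smul, hodd, hx1e] at h1
    norm_num at h1

end Pool.MP43e44c.GZ
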