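import Pool.Agent.H.MP_43e44c_ag.GZ.VPair
import Pool.Agent.H.MP_43e44c_ag.GZ.MUni
import Pool.Agent.H.MP_43e44c_ag.GL.UpB
import Pool.Agent.H.MP_43e44c_ag.GL.UpD

/-!
Upper bounds for the events, parity.
-/

set_option autoImplicit false

open Finset

namespace Pool.MP43e44c.GZ

open Pool.MP43e44c.GL

/-- Two values in the half which are independent. -/
theorem SmE_basis {k : Fin 5} (hk : k = 1 ∨ k = 2) : ∃ s : Fin 2 → M2, (∀ q, s q ∈ hf k) ∧
    LinearIndependent ℚ (fun (q : Fin 2) (p : Fin 2) => (col (s q) p : ℚ)) := by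
  have key : ∀ r : ℤ, LinearIndependent ℚ
      (fun (q : Fin 2) (p : Fin 2) => (col ((![1, rot r] : Fin 2 → M2) q) p : ℚ)) := by
    intro r
    rw [Fintype.linearIndependent_iff]
    intro l hl
    have h0 := congrFun hl 0
    have h1 := congrFun hl 1
    simp [Fin.sum_univ_two, col, rot] at h0 h1
    intro i
    fin_cases i
    · exact h0
    · exact h1
  rcases hk with rfl | rfl
  · refine ⟨![1, rot 0], ?_, key 0⟩
    decide
  · refine ⟨![1, rot 1], ?_, key 1⟩
    decide

/-- PROOF. As `va_pair` (GZ/VPair.lean) for one function: `T` from `half_preV`, `atom` with `κ = Fin 2`,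
`η = 1 / 24`, `b q = a (t q)` where `a (t 0) = col 1`, `a (t 1) = col (rot _)` (in `hf k`, so `t q ∈ T`;
linearly independent), `z = 0`. -/
theorem va_up.{v, u} {k : Fin 5} (hk : k = 1 ∨ k = 2) : ∃ C : ℝ, 0 < C ∧
    ∀ {G : Type v} {X : Type u} [Group G] [MulAction G X] [MulAction.IsPretransitive G X]
      [Fintype X] {c : X → X} {a : X → Fin 2 → ℤ}, Inv c → VTyp G c k a →
      ∀ n : ℕ, Fintype.card X = 2 * n → 1 ≤ n → ((Va c a).card : ℝ) ≤ C * al k n * 2 ^ n := by
  obtain ⟨C₁, c₁, hC₁, hc₁, hatom⟩ := atom.{u, 0} (Fin 2) (η := 1 / 24) (by norm_num)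
  refine ⟨C₁, hC₁, ?_⟩
  intro G X _ _ _ _ c a hc h n hn h1n
  classical
  obtain ⟨T, hTdef⟩ : ∃ T : Finset X, T = univ.filter fun x => ∃ s ∈ hf k, a x = col s :=
    ⟨_, rfl⟩
  have hTm : ∀ x, x ∈ T ↔ ∃ s ∈ hf k, a x = col s := fun x => by
    rw [hTdef, mem_filter]
    simp
  have hT : IsH c T := half_preV hk h T hTm
  have hTn : T.card = n := by
    have h1 := half_cardX hc hT
    omega
  have hTc : Fintype.card T = n := by
    rw [Fintype.card_coe, hTn]
  obtain ⟨s, hs, hsl⟩ := SmE_basis hk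
  have hex : ∀ q, ∃ t : T, a t = col (s q) := by
    intro q
    obtain ⟨x, hx⟩ := h.surj (s q) (mem_union_left _ (hs q))
    exact ⟨⟨x, (hTm x).2 ⟨s q, hs q, hx⟩⟩, hx⟩
  choose t ht using hex
  have hn0 : (0 : ℝ) < n := by exact_mod_cast h1n
  have habs : ∀ x p, |a x p| ≤ 1 := by
    intro x p
    obtain ⟨s, hs, hs2⟩ := h.mem x
    simp only [hs2, col]
    exact full_abs k s hs _ _
  have hfib : ∀ i : T, (1 / 24 : ℝ) * n ≤ ({j : T | a j = a i}.ncard : ℝ) := by
    intro i
    have h1 := fib_mul (G := G) a (by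
      intro g x y hxy
      obtain ⟨R, hR⟩ := h.act g
      rw [hR, hR, hxy]) (i : X)
    have h2 : (univ.image a).card ≤ 12 := by
      have h3 : univ.image a ⊆ (full k).image col := by
        intro z hz
        obtain ⟨x, -, rfl⟩ := mem_image.1 hz
        obtain ⟨s, hs, hs2⟩ := h.mem x
        exact mem_image.2 ⟨s, hs, hs2.symm⟩
      refine (card_le_card h3).trans (card_image_le.trans ?_)
      rw [full_card]
      exact VPair_hc k
    have h3 : {z | a z = a i}.ncard ≤ {j : T | a j = a i}.ncard := by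
      have hsub : {z | a z = a i} ⊆ Subtype.val '' {j : T | a j = a i} := by
        intro z hz
        have hz' : a z = a i := hz
        have hzT : z ∈ T := by
          rw [hTm, hz']
          exact (hTm _).1 i.2
        exact ⟨⟨z, hzT⟩, hz', rfl⟩
      exact (Set.ncard_le_ncard hsub (Set.toFinite _)).trans (Set.ncard_image_le (Set.toFinite _))
    have h4 : 2 * n ≤ 12 * {j : T | a j = a i}.ncard := by
      rw [← hn, ← h1]
      exact Nat.mul_le_mul h2 h3
    have h5 : (2 * n : ℝ) ≤ 12 * ({j : T | a j = a i}.ncard : ℝ) := by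
      exact_mod_cast h4
    linarith
  have h1 := half_leX hc hT (fun A => ∑ x ∈ A, a x = 0)
    (fun v => ∑ i : T, (if v i then a i else - a i) = 0) (by
      intro A hA hAz
      have h3 := half_sumX hc hT hA (fun x => a x) h.odd
      rw [← hAz, h3]
      refine Finset.sum_congr rfl fun i _ => ?_
      by_cases hi : (i : X) ∈ A
      · simp [hi]
      · simp [hi])
  have h3 := hatom (ι := T) (fun i => a i) (fun i p => habs i p)
    (fun q => col (s q)) hsl (by
      intro q
      rw [hTc]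
      have h6 := hfib (t q)
      rw [ht q] at h6
      exact h6) (by omega) 0
  rw [hTc] at h3
  have h4 : ((Va c a).card : ℝ) ≤ ({A | IsH c A ∧ ∑ x ∈ A, a x = 0}.ncard : ℝ) := by
    rw [← Set.ncard_coe_finset]
    refine Nat.cast_le.2 (Set.ncard_le_ncard ?_ (Set.toFinite _))
    intro A hA
    have hA2 := Finset.mem_coe.1 hA
    simp only [Va, Finset.mem_filter] at hA2
    exact hA2.2
  refine h4.trans (((Nat.cast_le.2 h1).trans h3).trans (le_of_eq ?_))
  have h5 : (n : ℝ) ^ (-(Fintype.card (Fin 2) : ℝ) / 2) = al k n := by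
    have e1 : (-(Fintype.card (Fin 2) : ℝ) / 2) = ((-1 : ℤ) : ℝ) := by
      simp
    have e2 : al k n = 1 / n := by
      rcases hk with rfl | rfl
      · rfl
      · rfl
    rw [e1, Real.rpow_intCast, e2]
    rw [zpow_neg, one_div, zpow_one]
  rw [h5]
  simp

/-- PROOF. As `ma_union` (GZ/MUni.lean) for one representation: `card_Ma` instead of `card_biUnion_Ma`,
and `ev_up` (GL/UpB.lean). -/
theorem ma_up.{u, v} (k : Fin 5) : ∃ C : ℝ, 0 < C ∧
    ∀ {G : Type u} {X : Type v} [Group G] [Finite G] [MulAction G X] [MulAction.IsPretransitive G X]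
      [Fintype X] {c : G} (x₀ : X), c * c = 1 → (∀ g, c * g = g * c) → (∀ x : X, c • x ≠ x) →
    ∀ {ρ : G →* M2} {M : X → M2}, Typ c k ρ → (∀ g : G, M (g • x₀) = ρ g) →
      ∀ n : ℕ, Fintype.card X = 2 * n → 2 ≤ n →
      ((Ma (fun x => c • x) M).card : ℝ) ≤ C * al k n * 2 ^ n := by
  classical
  obtain ⟨C₀, hC₀, hmain⟩ := ev_up.{u} k
  refine ⟨C₀, hC₀, ?_⟩
  intro G X _ _ _ _ _ c x₀ hcc hcen hfix ρ M hρ hM n hn hn2
  obtain ⟨S, hS⟩ : ∃ S : Finset Unit, S = {()} := ⟨_, rfl⟩
  have hmem : () ∈ S := by rw [hS]; exact mem_singleton_self _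
  obtain ⟨ρ'', hρ'', hTyp', -⟩ := exists_quot (c := c) (k := k) S
    (fun _ => ρ) (fun _ _ => hρ) (fun i _ j _ hij => absurd (Subsingleton.elim i j) hij)
  have hex : ∀ x : X, ∃ g : G, g • x₀ = x := fun x => MulAction.exists_smul_eq G x₀ x
  choose γ hγ using hex
  set Q := G ⧸ cker S (fun _ : Unit => ρ) with hQ
  obtain ⟨ρ', hρ'def⟩ : ∃ ρ' : Q →* M2, ρ' = ρ'' () := ⟨_, rfl⟩
  have hρ' : ∀ g : G, ρ' (g : Q) = ρ g := fun g => by
    rw [hρ'def]
    exact hρ'' () hmem g
  have hTyp : Typ (c : Q) k ρ' := by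
    rw [hρ'def]
    exact hTyp' () hmem
  let p : X → Q := fun x => (γ x : Q)
  have hp1 : ∀ g : G, p (g • x₀) = (g : Q) := by
    intro g
    show ((γ (g • x₀) : G) : Q) = (g : Q)
    rw [QuotientGroup.eq, MUni_mem_cker]
    intro i hi
    have h1 : ρ (γ (g • x₀)) = ρ g := by
      rw [← hM, ← hM, hγ]
    rw [map_mul, ← h1, ← map_mul, inv_mul_cancel, map_one]
  have hp2 : ∀ (g : G) (x : X), p (g • x) = (g : Q) * p x := by
    intro g x
    have h1 : p (g • x) = ((g * γ x : G) : Q) := by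
      rw [← hp1, mul_smul, hγ]
    rw [h1]
    rfl
  have hcQ : ∀ q : Q, (c : Q) * q = q * (c : Q) := by
    intro q
    obtain ⟨g, rfl⟩ := QuotientGroup.mk_surjective q
    have h1 : ((c * g : G) : Q) = ((g * c : G) : Q) := by rw [hcen]
    exact h1
  have hccQ : (c : Q) * (c : Q) = 1 := by
    have h1 : ((c * c : G) : Q) = ((1 : G) : Q) := by rw [hcc]
    exact h1
  have hpc : ∀ x : X, p (c • x) = p x * (c : Q) := by
    intro x
    rw [hp2, hcQ]
  have hcne : (c : Q) ≠ 1 := by
    intro h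
    have h1 : ρ' (c : Q) = 1 := by rw [h, map_one]
    rw [hTyp.odd] at h1
    have h2 := congrFun (congrFun h1 0) 0
    simp at h2
  have hsurj : Function.Surjective p := by
    intro q
    obtain ⟨g, rfl⟩ := QuotientGroup.mk_surjective q
    exact ⟨g • x₀, hp1 g⟩
  have hfib : ∀ (g : G) (x y : X), p x = p y → p (g • x) = p (g • y) := by
    intro g x y h
    rw [hp2, hp2, h]
  have hfinQ : Finite Q := by
    rw [hQ]
    infer_instance
  have : Fintype Q := Fintype.ofFinite Q
  set b : ℕ := {z | p z = p x₀}.ncard with hb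
  have hb0 : 0 < b := by
    rw [hb, Set.ncard_pos (Set.toFinite _)]
    exact ⟨x₀, rfl⟩
  have : NeZero b := ⟨hb0.ne'⟩
  have hcardQ : Fintype.card Q * b = Fintype.card X := by
    have h1 := fib_mul (G := G) p hfib x₀
    have h2 : (univ.image p) = (univ : Finset Q) := Finset.image_univ_of_surjective hsurj
    rw [h2, Finset.card_univ] at h1
    exact h1
  let Y := Q × Multiplicative (ZMod b)
  let c' : Y := ((c : Q), 1)
  have hcardY : Fintype.card Y = 2 * n := by
    rw [← hn, ← hcardQ]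
    show Fintype.card (Q × Multiplicative (ZMod b)) = _
    rw [Fintype.card_prod, Fintype.card_multiplicative, ZMod.card]
  have hc'2 : c' * c' = 1 := by
    show ((c : Q) * (c : Q), (1 : Multiplicative (ZMod b)) * 1) = 1
    rw [hccQ, mul_one]
    rfl
  have hcard : ∀ z : Q, {x | p x = z}.ncard = {y : Y | y.1 = z}.ncard := by
    intro z
    obtain ⟨x, rfl⟩ := hsurj z
    have h1 : {x' | p x' = p x}.ncard = b := fib_eq (G := G) p hfib x x₀
    have h2 : {y : Y | y.1 = p x} = (fun t : Multiplicative (ZMod b) => ((p x, t) : Y)) '' Set.univ := by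
      ext ⟨y1, y2⟩
      constructor
      · intro h
        refine ⟨y2, Set.mem_univ _, ?_⟩
        have h3 : y1 = p x := h
        rw [h3]
      · rintro ⟨t, -, ht⟩
        have h3 := congrArg Prod.fst ht
        exact h3.symm
    rw [h1, h2, Set.ncard_image_of_injective _ (fun t t' h => (congrArg Prod.snd h : t = t')),
      Set.ncard_univ, Nat.card_eq_fintype_card, Fintype.card_multiplicative, ZMod.card]
  obtain ⟨e, he1, he2⟩ := exists_equiv (c := fun x : X => c • x) (c' := fun y : Y => y * c')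
    (cz := fun q : Q => q * (c : Q))
    (fun x => by
      show c • c • x = x
      rw [← mul_smul, hcc, one_smul])
    (fun y => by
      show y * c' * c' = y
      rw [mul_assoc, hc'2, mul_one])
    ⟨fun q => by
      show q * (c : Q) * (c : Q) = q
      rw [mul_assoc, hccQ, mul_one], fun q h => by
      have h1 : q * (c : Q) = q := h
      exact hcne (mul_left_cancel (a := q) (by rw [mul_one]; exact h1))⟩
    p (Prod.fst : Y → Q) hpc (fun y => rfl) hcard
  have hMN : ∀ x, (fun (y : Y) => ρ' y.1) (e x) = M x := by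
    intro x
    show ρ' (e x).1 = M x
    rw [he2]
    show ρ' ((γ x : G) : Q) = M x
    rw [hρ', ← hM, hγ]
  have h10 := card_Ma (c := fun x : X => c • x) (c' := fun y : Y => y * c') e he1 (M := M)
    (N := fun (y : Y) => ρ' y.1) hMN
  rw [h10]
  let σ : Y →* M2 := ρ'.comp (MonoidHom.fst Q (Multiplicative (ZMod b)))
  have h11 : Ev c' σ = Ma (fun y : Y => y * c') (fun y : Y => ρ' y.1) :=
    MUni_Ev c' σ _ fun y => rfl
  rw [← h11]
  refine hmain (c := c') hc'2 ?_ n hcardY hn2
  refine ⟨hTyp.odd, fun y => hTyp.mem y.1, fun s hs => ?_⟩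
  obtain ⟨q, hq⟩ := hTyp.surj s hs
  exact ⟨((q, 1) : Y), hq⟩

/-- A sum of signs has the parity of the number of the summands. -/
theorem SmE_sign {X : Type*} (A : Finset X) (f : X → ℤ) (hf : ∀ x ∈ A, f x = 1 ∨ f x = -1) :
    (2 : ℤ) ∣ ∑ x ∈ A, f x - A.card := by
  have h1 : ∑ x ∈ A, f x - A.card = ∑ x ∈ A, (f x - 1) := by
    rw [sum_sub_distrib, sum_const, nsmul_eq_mul, mul_one]
  rw [h1]
  refine dvd_sum fun x hx => ?_
  rcases hf x hx with h | h
  · rw [h]
    norm_num
  · rw [h]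
    norm_num

theorem SmE_full0 : ∀ s ∈ full 0, (s 0 0 = 1 ∨ s 0 0 = -1) ∧ s 1 1 = s 0 0 ∧ s 0 1 = 0 := by
  decide

/-- PROOF. The values of `M` are `± 1`, so the sum over a half system (`n` elements) is `m • 1` with
`m ≡ n` modulo `2`, and the determinant is `m ^ 2 = 0`. -/
theorem par_M {G X : Type*} [Group G] [MulAction G X] [MulAction.IsPretransitive G X]
    [Fintype X] {c : G} (x₀ : X) (hc : Inv fun x : X => c • x) {ρ : G →* M2} {M : X → M2}
    (hρ : Typ c 0 ρ) (hM : ∀ g : G, M (g • x₀) = ρ g) {n : ℕ} (hn : Fintype.card X = 2 * n)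
    (hne : (Ma (fun x => c • x) M).Nonempty) : 2 ∣ n := by
  obtain ⟨A, hA⟩ := hne
  simp only [Ma, Finset.mem_filter] at hA
  obtain ⟨-, hAh, hdet⟩ := hA
  have hMf : ∀ x, M x ∈ full 0 := by
    intro x
    obtain ⟨g, rfl⟩ := MulAction.exists_smul_eq G x₀ x
    rw [hM]
    exact hρ.mem g
  have h1 : (∑ x ∈ A, M x) 0 0 = ∑ x ∈ A, M x 0 0 := Matrix.sum_apply _ _ _ _
  have h2 : (∑ x ∈ A, M x) 1 1 = ∑ x ∈ A, M x 0 0 := by
    rw [Matrix.sum_apply]
    exact sum_congr rfl fun x _ => (SmE_full0 _ (hMf x)).2.1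
  have h3 : (∑ x ∈ A, M x) 0 1 = 0 := by
    rw [Matrix.sum_apply]
    exact sum_eq_zero fun x _ => (SmE_full0 _ (hMf x)).2.2
  rw [Matrix.det_fin_two, h1, h2, h3, zero_mul, sub_zero] at hdet
  have h4 : ∑ x ∈ A, M x 0 0 = 0 := mul_self_eq_zero.1 hdet
  have h5 := SmE_sign A (fun x => M x 0 0) fun x _ => (SmE_full0 _ (hMf x)).1
  rw [h4] at h5
  have h6 := half_cardX hc hAh
  omega

theorem SmE_full1 : ∀ s ∈ full 1, (col s = col 1 → col s 0 = 1) ∧
    (col s = - col 1 → col s 0 = -1) ∧ (col s ≠ col 1 → col s ≠ - col 1 → col s 0 = 0) := by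
  decide

theorem SmE_card1 : ((full 1).image col).card = 4 := by
  decide

/-- PROOF. Let `A` be in the set and `A'` the set of the `x ∈ A` with `a x = ± e₁`.  The fibres of `a` have
`2 n / 4` elements (`fib_mul`, four values), so `A'` is a half of a set with `n` elements (stable under
`c`) and has `n / 2` elements.  The first coordinate of `∑ x ∈ A, a x = 0` is a sum of `n / 2` signs, so
`n / 2` is even. -/
theorem par_V {G X : Type*} [Group G] [MulAction G X] [MulAction.IsPretransitive G X]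
    [Fintype X] {c : X → X} (hc : Inv c) {a : X → Fin 2 → ℤ} (ha : VTyp G c 1 a) {n : ℕ}
    (hn : Fintype.card X = 2 * n) (hne : (Va c a).Nonempty) : 4 ∣ n := by
  classical
  obtain ⟨A, hA⟩ := hne
  simp only [Va, Finset.mem_filter] at hA
  obtain ⟨-, hAh, hsum⟩ := hA
  obtain ⟨x₁, hx₁⟩ := ha.surj 1 (one_mem 1)
  have himg : univ.image a = (full 1).image col := by
    ext z
    rw [mem_image, mem_image]
    constructor
    · rintro ⟨x, -, rfl⟩
      obtain ⟨s, hs, hs2⟩ := ha.mem x
      exact ⟨s, hs, hs2.symm⟩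
    · rintro ⟨s, hs, rfl⟩
      obtain ⟨x, hx⟩ := ha.surj s hs
      exact ⟨x, mem_univ _, hx⟩
  have h1 := fib_mul (G := G) a (by
    intro g x y hxy
    obtain ⟨R, hR⟩ := ha.act g
    rw [hR, hR, hxy]) x₁
  rw [himg, SmE_card1, hx₁, hn] at h1
  have h2 : {z | a z = col 1}.ncard = (univ.filter fun z => a z = col 1).card := by
    rw [← Set.ncard_coe_finset]
    congr 1
    ext z
    simp
  rw [h2] at h1
  -- the elements of `A` with value `± e₁`
  have h3 : (A.filter fun x => a x = - col 1).card =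
      ((univ.filter fun z => a z = col 1) \ A).card := by
    refine card_bij (fun x _ => c x) ?_ ?_ ?_
    · intro x hx
      rw [mem_filter] at hx
      rw [mem_sdiff, mem_filter]
      refine ⟨⟨mem_univ _, ?_⟩, (hAh x).1 hx.1⟩
      rw [ha.odd, hx.2, neg_neg]
    · intro x _ y _ hxy
      rw [← hc.cc x, ← hc.cc y]
      exact congrArg c hxy
    · intro y hy
      rw [mem_sdiff, mem_filter] at hy
      refine ⟨c y, ?_, hc.cc y⟩
      rw [mem_filter, ha.odd, hy.1.2]
      refine ⟨?_, rfl⟩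
      by_contra h
      exact hy.2 ((hAh y).2 h)
  have h4 : (A.filter fun x => a x = col 1).card =
      ((univ.filter fun z => a z = col 1) ∩ A).card := by
    congr 1
    ext x
    rw [mem_filter, mem_inter, mem_filter]
    constructor
    · rintro ⟨h5, h6⟩
      exact ⟨⟨mem_univ _, h6⟩, h5⟩
    · rintro ⟨⟨-, h6⟩, h5⟩
      exact ⟨h5, h6⟩
  have h5 := card_inter_add_card_sdiff (univ.filter fun z => a z = col 1) A
  have hne1 : (col 1 : Fin 2 → ℤ) ≠ - col 1 := by decide
  have h6 : (A.filter fun x => a x = col 1 ∨ a x = - col 1).card =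
      (A.filter fun x => a x = col 1).card + (A.filter fun x => a x = - col 1).card := by
    rw [filter_or, card_union_of_disjoint]
    rw [disjoint_filter]
    intro x _ hx hx'
    exact hne1 (hx.symm.trans hx')
  have h7 : 2 * (A.filter fun x => a x = col 1 ∨ a x = - col 1).card = n := by omega
  have h8 := SmE_sign (A.filter fun x => a x = col 1 ∨ a x = - col 1) (fun x => a x 0) (by
    intro x hx
    rw [mem_filter] at hx
    obtain ⟨s, hs, hs2⟩ := ha.mem x
    rcases hx.2 with h9 | h9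
    · left
      rw [hs2]
      exact (SmE_full1 s hs).1 (hs2.symm.trans h9)
    · right
      rw [hs2]
      exact (SmE_full1 s hs).2.1 (hs2.symm.trans h9))
  have h9 : ∑ x ∈ A.filter (fun x => a x = col 1 ∨ a x = - col 1), a x 0 = 0 := by
    have h10 : ∑ x ∈ A, a x 0 = 0 := by
      have h11 := congrFun hsum 0
      rw [Finset.sum_apply] at h11
      exact h11
    rw [← h10]
    refine sum_subset (filter_subset _ _) fun x hx hx' => ?_
    obtain ⟨s, hs, hs2⟩ := ha.mem x
    have h12 : ¬ (a x = col 1 ∨ a x = - col 1) := fun h => hx' (mem_filter.2 ⟨hx, h⟩)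
    rw [hs2] at h12
    rw [hs2]
    exact (SmE_full1 s hs).2.2 (fun h => h12 (Or.inl h)) (fun h => h12 (Or.inr h))
  have h10 : (2 : ℤ) ∣ 0 - ((A.filter fun x => a x = col 1 ∨ a x = - col 1).card : ℤ) := by
    rw [← h9]
    exact h8
  omega

end Pool.MP43e44c.GZ
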