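import Pool.Agent.H.MP_43e44c_ag.GZ.SmA
import Pool.Agent.H.MP_43e44c_ag.GZ.SmB
import Pool.Agent.H.MP_43e44c_ag.GZ.SmC
import Pool.Agent.H.MP_43e44c_ag.GZ.SmD
import Pool.Agent.H.MP_43e44c_ag.GZ.SmE
import Pool.Agent.H.MP_43e44c_ag.GZ.FG

/-!
The number of the CM types with an orthogonal stable subspace of dimension at most two.
-/

set_option autoImplicit false

open NumberField Finset Module

namespace Pool.MP43e44c.GZ

open Pool.MP43e44c.GL

variable {K : Type*} [Field K] [NumberField K]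

/-- PROOF. Such a function is determined by a function on the embeddings of `F` (`res_surj`), of which there
are `finrank ℚ F ≤ 12` (`NumberField.Embeddings.card`); it has values in the finite set `V`. -/
theorem fib_funs {β : Type*} [DecidableEq β] (V : Finset β) (hV : V.card ≤ 12)
    {F : IntermediateField ℚ K} (hF : finrank ℚ F ≤ 12) :
    {a : (K →+* ℂ) → β | (∀ x, a x ∈ V) ∧ ∀ x y, res F x = res F y → a x = a y}.ncard
      ≤ 12 ^ 12 := by
  classical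
  choose sec hsec using res_surj F
  have hle : {a : (K →+* ℂ) → β | (∀ x, a x ∈ V) ∧ ∀ x y, res F x = res F y → a x = a y}.ncard
      ≤ ((Fintype.piFinset fun _ : F →+* ℂ => V : Finset ((F →+* ℂ) → β)) :
        Set ((F →+* ℂ) → β)).ncard := by
    refine Set.ncard_le_ncard_of_injOn (fun a y => a (sec y)) ?_ ?_ (Finset.finite_toSet _)
    · rintro a ⟨h1, -⟩
      rw [Finset.mem_coe, Fintype.mem_piFinset]
      exact fun y => h1 _
    · rintro a ⟨-, ha⟩ b ⟨-, hb⟩ hab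
      funext x
      have h1 : a (sec (res F x)) = b (sec (res F x)) := congrFun hab (res F x)
      rw [ha x (sec (res F x)) (hsec _).symm, hb x (sec (res F x)) (hsec _).symm, h1]
  refine hle.trans ?_
  rw [Set.ncard_coe_finset, Fintype.card_piFinset, Finset.prod_const, Finset.card_univ,
    NumberField.Embeddings.card]
  calc V.card ^ finrank ℚ F ≤ 12 ^ finrank ℚ F := Nat.pow_le_pow_left hV _
    _ ≤ 12 ^ 12 := Nat.pow_le_pow_right (by norm_num) hF

/-- The functions in question form a finite set. -/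
theorem SmF_fin {β : Type*} [DecidableEq β] (V : Finset β)
    (F : IntermediateField ℚ K) :
    {a : (K →+* ℂ) → β | (∀ x, a x ∈ V) ∧ ∀ x y, res F x = res F y → a x = a y}.Finite := by
  classical
  refine Set.Finite.subset (Finset.finite_toSet (Fintype.piFinset fun _ : K →+* ℂ => V)) ?_
  rintro a ⟨h1, -⟩
  rw [Finset.mem_coe, Fintype.mem_piFinset]
  exact h1

/-- The union bound for the functions. -/
theorem SmF_union {β : Type*} [DecidableEq β] (V : Finset β) (hV : V.card ≤ 12)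
    {F : IntermediateField ℚ K} (hF : finrank ℚ F ≤ 12)
    {P : ((K →+* ℂ) → β) → Prop} (hP : ∀ a, P a → (∀ x, a x ∈ V) ∧
      ∀ x y, res F x = res F y → a x = a y) {E : ((K →+* ℂ) → β) → Finset (Finset (K →+* ℂ))}
    {B : ℝ} (hB0 : 0 ≤ B) (hB : ∀ a, P a → ((E a).card : ℝ) ≤ B)
    {S : Set (Finset (K →+* ℂ))} (hS : ∀ A ∈ S, ∃ a, P a ∧ A ∈ E a) :
    (S.ncard : ℝ) ≤ 12 ^ 12 * B := by
  classical
  have hfin : {a | P a}.Finite := (SmF_fin V F).subset hP
  have h1 : {a | P a}.ncard ≤ 12 ^ 12 :=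
    (Set.ncard_le_ncard (show {a | P a} ⊆ _ from hP) (SmF_fin V F)).trans (fib_funs V hV hF)
  have h2 : S ⊆ ((hfin.toFinset.biUnion E : Finset (Finset (K →+* ℂ))) :
      Set (Finset (K →+* ℂ))) := by
    intro A hA
    obtain ⟨a, ha, hAa⟩ := hS A hA
    rw [Finset.mem_coe, Finset.mem_biUnion]
    exact ⟨a, (Set.Finite.mem_toFinset _).2 ha, hAa⟩
  have h3 : S.ncard ≤ (hfin.toFinset.biUnion E).card := by
    rw [← Set.ncard_coe_finset]
    exact Set.ncard_le_ncard h2 (Finset.finite_toSet _)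
  have h4 : (hfin.toFinset.biUnion E).card ≤ ∑ a ∈ hfin.toFinset, (E a).card :=
    Finset.card_biUnion_le
  have h5 : (((∑ a ∈ hfin.toFinset, (E a).card : ℕ)) : ℝ) ≤ hfin.toFinset.card * B := by
    rw [Nat.cast_sum, ← nsmul_eq_mul]
    refine Finset.sum_le_card_nsmul _ _ _ fun a ha => ?_
    exact hB a ((Set.Finite.mem_toFinset _).1 ha)
  have h6 : (hfin.toFinset.card : ℝ) ≤ 12 ^ 12 := by
    rw [← Set.ncard_eq_toFinset_card _ hfin]
    exact_mod_cast h1
  calc (S.ncard : ℝ) ≤ ((∑ a ∈ hfin.toFinset, (E a).card : ℕ) : ℝ) := by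
        exact_mod_cast h3.trans h4
    _ ≤ hfin.toFinset.card * B := h5
    _ ≤ 12 ^ 12 * B := mul_le_mul_of_nonneg_right h6 hB0

theorem SmF_al (k : Fin 5) (n : ℕ) : 0 ≤ al k n := by
  have h1 : 0 ≤ Real.log n / n := div_nonneg (Real.log_natCast_nonneg n) (Nat.cast_nonneg n)
  have h2 : (0 : ℝ) ≤ 1 / n := by positivity
  have h0 : (0 : ℝ) ≤ 1 / √n := by positivity
  fin_cases k
  · exact h0
  · exact h2
  · exact h2
  · exact h1
  · exact h1

theorem SmF_hc (k : Fin 5) : 2 * hc k ≤ 12 := by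
  revert k; decide

theorem SmF_gfin {k : Fin 5} (hk : k = 3 ∨ k = 4) {F : IntermediateField ℚ K}
    (hF : F ∈ GSub K k) : finrank ℚ F ≤ 12 := by
  obtain ⟨hG, -, ht⟩ := hF
  have : IsGalois ℚ F := hG
  rw [← IsGalois.card_aut_eq_finrank]
  rcases hk with rfl | rfl
  · obtain ⟨e⟩ : Nonempty ((F ≃ₐ[ℚ] F) ≃* DihedralGroup 4) := ht
    rw [Nat.card_congr e.toEquiv, DihedralGroup.nat_card]
    norm_num
  · obtain ⟨e⟩ : Nonempty ((F ≃ₐ[ℚ] F) ≃* DihedralGroup 6) := ht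
    rw [Nat.card_congr e.toEquiv, DihedralGroup.nat_card]

theorem SmF_deg {k : Fin 5} {F : IntermediateField ℚ K} (hF : F ∈ XSub K k) :
    finrank ℚ F ≤ 12 := by
  fin_cases k
  · have h : finrank ℚ F = 2 := hF.2.1
    omega
  · have h : finrank ℚ F = 4 := hF.2.1
    omega
  · have h : finrank ℚ F = 6 := hF.2.1
    omega
  · exact SmF_gfin (Or.inl rfl) hF
  · exact SmF_gfin (Or.inr rfl) hF

theorem SmF_inv (K : Type*) [Field K] [NumberField K] [IsCMField K] :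
    Inv (ComplexEmbedding.conjugate : (K →+* ℂ) → (K →+* ℂ)) :=
  ⟨conj_conj, conj_ne⟩

theorem SmF_card {n : ℕ} (hK : finrank ℚ K = 2 * n) : Fintype.card (K →+* ℂ) = 2 * n := by
  rw [NumberField.Embeddings.card, hK]

/-- The event of a subfield, for `k = 1, 2`. -/
def EvV (k : Fin 5) (F : IntermediateField ℚ K) : Set (Finset (K →+* ℂ)) :=
  {A | ∃ a : (K →+* ℂ) → Fin 2 → ℤ,
    VTyp (GG K) (ComplexEmbedding.conjugate : (K →+* ℂ) → (K →+* ℂ)) k a ∧
    (∀ x y, a x = a y ↔ res F x = res F y) ∧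
    A ∈ Va (ComplexEmbedding.conjugate : (K →+* ℂ) → (K →+* ℂ)) a}

/-- The event of a subfield, for `k = 0, 3, 4`. -/
def EvM (x₀ : K →+* ℂ) (k : Fin 5) (F : IntermediateField ℚ K) : Set (Finset (K →+* ℂ)) :=
  {A | ∃ (ρ : GG K →* M2) (M : (K →+* ℂ) → M2), Typ (conjG K) k ρ ∧ (∀ g : GG K, M (g • x₀) = ρ g) ∧
    (∀ x y, M x = M y ↔ res F x = res F y) ∧
    A ∈ Ma (ComplexEmbedding.conjugate : (K →+* ℂ) → (K →+* ℂ)) M}

/-- PROOF. The event is the union of the sets `Va conj a` over the functions `a` as in the definition; by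
`fib_funs` (`V` the first columns of the matrices in `full k`, at most `12`; `finrank ℚ F ≤ 6`, the number
of the values of `a`, or assume it from `XSub`) there are at most `12 ^ 12` of them; `va_up`. -/
theorem card_EvV.{u} {k : Fin 5} (hk : k = 1 ∨ k = 2) : ∃ C : ℝ, 0 < C ∧
    ∀ {K : Type u} [Field K] [NumberField K] [IsCMField K] {n : ℕ}, finrank ℚ K = 2 * n →
    ∀ F ∈ XSub K k, ((EvV k F).ncard : ℝ) ≤ C * al k n * 2 ^ n := by
  obtain ⟨C, hC, h⟩ := va_up.{0, u} hk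
  refine ⟨12 ^ 12 * C, by positivity, ?_⟩
  intro K _ _ _ n hK F hF
  classical
  have hn : 1 ≤ n := by
    have h1 : 0 < finrank ℚ K := finrank_pos
    omega
  have h0 : 0 ≤ C * al k n * 2 ^ n := by
    have := SmF_al k n
    positivity
  have h2 := SmF_union (K := K) ((full k).image col) (by
      refine Finset.card_image_le.trans ?_
      rw [full_card]
      exact SmF_hc k) (SmF_deg hF)
    (P := fun a => VTyp (GG K) (ComplexEmbedding.conjugate : (K →+* ℂ) → (K →+* ℂ)) k a ∧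
      ∀ x y, a x = a y ↔ res F x = res F y) (by
      rintro a ⟨h1, h2⟩
      refine ⟨fun x => ?_, fun x y hxy => (h2 x y).2 hxy⟩
      obtain ⟨s, hs, hx⟩ := h1.mem x
      rw [hx]
      exact mem_image_of_mem _ hs)
    (E := fun a => Va (ComplexEmbedding.conjugate : (K →+* ℂ) → (K →+* ℂ)) a) h0
    (fun a ha => h (G := GG K) (SmF_inv K) ha.1 n (SmF_card hK) hn)
    (S := EvV k F) (by
      rintro A ⟨a, h1, h2, h3⟩
      exact ⟨a, ⟨h1, h2⟩, h3⟩)
  calc ((EvV k F).ncard : ℝ) ≤ 12 ^ 12 * (C * al k n * 2 ^ n) := h2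
    _ = 12 ^ 12 * C * al k n * 2 ^ n := by ring

/-- PROOF. In the same way with `ma_up` for `c = conjG K` (`conjG_smul`, `conjG_comm`, `conjG_sq`); the
functions `M` have values in `full k` (at most `12` matrices, `full_card`), `finrank ℚ F = 2, 8, 12`. -/
theorem card_EvM.{u} {k : Fin 5} (hk : k = 0 ∨ k = 3 ∨ k = 4) : ∃ C : ℝ, 0 < C ∧
    ∀ {K : Type u} [Field K] [NumberField K] [IsCMField K] {n : ℕ} (x₀ : K →+* ℂ),
    finrank ℚ K = 2 * n → 2 ≤ n → ∀ F ∈ XSub K k, ((EvM x₀ k F).ncard : ℝ) ≤ C * al k n * 2 ^ n := by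
  obtain ⟨C, hC, h⟩ := ma_up.{0, u} k
  refine ⟨12 ^ 12 * C, by positivity, ?_⟩
  intro K _ _ _ n x₀ hK hn F hF
  classical
  have h0 : 0 ≤ C * al k n * 2 ^ n := by
    have := SmF_al k n
    positivity
  have hfun : (fun x : K →+* ℂ => conjG K • x) = ComplexEmbedding.conjugate :=
    funext fun x => conjG_smul x
  have h2 := SmF_union (K := K) (full k) (by
      rw [full_card]
      exact SmF_hc k) (SmF_deg hF)
    (P := fun M => ∃ ρ : GG K →* M2, Typ (conjG K) k ρ ∧ (∀ g : GG K, M (g • x₀) = ρ g) ∧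
      ∀ x y, M x = M y ↔ res F x = res F y) (by
      rintro M ⟨ρ, h1, h2, h3⟩
      refine ⟨fun x => ?_, fun x y hxy => (h3 x y).2 hxy⟩
      obtain ⟨g, rfl⟩ := exists_smul_eq x₀ x
      rw [h2]
      exact h1.mem g)
    (E := fun M => Ma (ComplexEmbedding.conjugate : (K →+* ℂ) → (K →+* ℂ)) M) h0
    (by
      rintro M ⟨ρ, h1, h2, -⟩
      have h4 := h (G := GG K) (X := K →+* ℂ) (c := conjG K) x₀ conjG_sq (fun g => conjG_comm g)
        (fun x => by rw [conjG_smul]; exact conj_ne x) h1 h2 n (SmF_card hK) hn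
      rw [hfun] at h4
      exact h4)
    (S := EvM x₀ k F) (by
      rintro A ⟨ρ, M, h1, h2, h3, h4⟩
      exact ⟨M, ⟨ρ, h1, h2, h3⟩, h4⟩)
  calc ((EvM x₀ k F).ncard : ℝ) ≤ 12 ^ 12 * (C * al k n * 2 ^ n) := h2
    _ = 12 ^ 12 * C * al k n * 2 ^ n := by ring

theorem SmF_iff {x₀ : K →+* ℂ} {ρ : GG K →* M2} {M : (K →+* ℂ) → M2}
    (hM : ∀ g : GG K, M (g • x₀) = ρ g) {F : IntermediateField ℚ K}
    (h : ∀ g : GG K, ρ g = 1 ↔ res F (g • x₀) = res F x₀) (x y : K →+* ℂ) :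
    M x = M y ↔ res F x = res F y := by
  obtain ⟨g, rfl⟩ := exists_smul_eq x₀ x
  obtain ⟨g', rfl⟩ := exists_smul_eq x₀ y
  rw [hM, hM]
  have h1 : ρ g = ρ g' ↔ ρ (g'⁻¹ * g) = 1 := by
    rw [map_mul]
    constructor
    · intro h2
      rw [h2, ← map_mul, inv_mul_cancel, map_one]
    · intro h2
      have h3 : ρ g' * (ρ g'⁻¹ * ρ g) = ρ g' * 1 := by rw [h2]
      rw [← mul_assoc, ← map_mul, mul_inv_cancel, map_one, one_mul, mul_one] at h3
      exact h3
  rw [h1, h]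
  constructor
  · intro h2
    have h3 := res_smul F h2 g'
    rw [← mul_smul, mul_inv_cancel_left] at h3
    exact h3
  · intro h2
    have h3 := res_smul F h2 g'⁻¹
    rw [← mul_smul, ← mul_smul, inv_mul_cancel, one_smul] at h3
    exact h3

theorem SmF_st {x₀ : K →+* ℂ} {ρ : GG K →* M2} {M : (K →+* ℂ) → M2}
    (hM : ∀ g : GG K, M (g • x₀) = ρ g) (g : GG K) (hg : g • x₀ = x₀) : ρ g = 1 := by
  have h1 := hM 1
  rw [one_smul, map_one] at h1
  rw [← hM g, hg, h1]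

/-- PROOF. `sml_cases`.  First case: `sml_one`, the field from `exists_subG` (`k = 0`; if `g • x₀ = x₀` then
`ρ g = M x₀ = ρ 1 = 1`); it is in `XSub K 0`: `finrank ℚ F = 2`, `finrank F K = n` even by `par_M`;
`M x = M y ↔ res F x = res F y` follows from `ρ g = 1 ↔ res F (g • x₀) = res F x₀` with `x = g • x₀`,
`y = h • x₀` (`M x = ρ g`, `res_smul`).  Second case: `sml_two`; `exists_subV1` with `par_V`,
`exists_subV2`, or `exists_subG` for `k = 3, 4` (`XSub K k = GSub K k`). -/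
theorem sml_event [IsCMField K] (x₀ : K →+* ℂ) {n : ℕ} (hK : finrank ℚ K = 2 * n)
    {A : Finset (K →+* ℂ)} (hA : IsCMType A)
    (h : Sml (GG K) (ComplexEmbedding.conjugate : (K →+* ℂ) → (K →+* ℂ)) A) :
    (∃ k : Fin 5, (k = 1 ∨ k = 2) ∧ ∃ F ∈ XSub K k, A ∈ EvV k F) ∨
      ∃ k : Fin 5, (k = 0 ∨ k = 3 ∨ k = 4) ∧ ∃ F ∈ XSub K k, A ∈ EvM x₀ k F := by
  classical
  have hfun : (fun x : K →+* ℂ => conjG K • x) = ComplexEmbedding.conjugate :=
    funext fun x => conjG_smul x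
  have hA' : IsH (fun x : K →+* ℂ => conjG K • x) A := by
    rw [hfun]
    exact hA
  rcases sml_cases h with ⟨f, hf, hodd, hs, h0⟩ | ⟨a, R, hodd, hact, hsp, hirr, h0⟩
  · right
    obtain ⟨ρ, hρ, M, hM, hAM⟩ := sml_one (G := GG K) (c := conjG K) x₀ hA' hf
      (fun x => by rw [conjG_smul]; exact hodd x) hs h0
    obtain ⟨F, hF, hFx⟩ := exists_subG x₀ hρ (SmF_st hM)
    have h2 : 2 ∣ n := by
      have hI : Inv fun x : K →+* ℂ => conjG K • x := by
        rw [hfun]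
        exact SmF_inv K
      exact par_M x₀ hI hρ hM (SmF_card hK) ⟨A, hAM⟩
    rw [hfun] at hAM
    refine ⟨0, Or.inl rfl, F, ?_, ρ, M, hρ, hM, SmF_iff hM hFx, hAM⟩
    obtain ⟨hG, hNR, -, ht⟩ := hF
    have : IsGalois ℚ F := hG
    rw [IsGalois.card_aut_eq_finrank] at ht
    refine ⟨hNR, ht, ?_⟩
    have h3 := finrank_mul_finrank ℚ F K
    rw [ht, hK] at h3
    obtain ⟨m, rfl⟩ := h2
    exact ⟨m, by omega⟩
  · rcases sml_two (G := GG K) (c := conjG K) x₀ hA'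
      (fun x => by rw [conjG_smul]; exact hodd x) hact hsp hirr h0 with
      ⟨k, hk, b, hb, hAb⟩ | ⟨k, hk, ρ, hρ, M, hM, hAM⟩
    · left
      rw [hfun] at hb hAb
      rcases hk with rfl | rfl
      · have h4 : 4 ∣ n := par_V (SmF_inv K) hb (SmF_card hK) ⟨A, hAb⟩
        obtain ⟨F, hF, hFx⟩ := exists_subV1 hK h4 hb
        exact ⟨1, Or.inl rfl, F, hF, b, hb, hFx, hAb⟩
      · obtain ⟨F, hF, hFx⟩ := exists_subV2 hb
        exact ⟨2, Or.inr rfl, F, hF, b, hb, hFx, hAb⟩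
    · right
      obtain ⟨F, hF, hFx⟩ := exists_subG x₀ hρ (SmF_st hM)
      rw [hfun] at hAM
      rcases hk with rfl | rfl
      · exact ⟨3, Or.inr (Or.inl rfl), F, hF, ρ, M, hρ, hM, SmF_iff hM hFx, hAM⟩
      · exact ⟨4, Or.inr (Or.inr rfl), F, hF, ρ, M, hρ, hM, SmF_iff hM hFx, hAM⟩

theorem SmF_ex.{u} (k : Fin 5) : ∃ C : ℝ, 0 < C ∧
    ∀ {K : Type u} [Field K] [NumberField K] [IsCMField K] {n : ℕ} (x₀ : K →+* ℂ),
    finrank ℚ K = 2 * n → 2 ≤ n → ∀ F ∈ XSub K k,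
      (({A | ((k = 1 ∨ k = 2) ∧ A ∈ EvV k F) ∨ ((k = 0 ∨ k = 3 ∨ k = 4) ∧ A ∈ EvM x₀ k F)} :
        Set (Finset (K →+* ℂ))).ncard : ℝ) ≤ C * al k n * 2 ^ n := by
  by_cases hk : k = 1 ∨ k = 2
  · obtain ⟨C, hC, h⟩ := card_EvV.{u} hk
    refine ⟨C, hC, ?_⟩
    intro K _ _ _ n x₀ hK hn F hF
    have hnk : ¬ (k = 0 ∨ k = 3 ∨ k = 4) := by
      rcases hk with rfl | rfl <;> decide
    have h1 : ({A | ((k = 1 ∨ k = 2) ∧ A ∈ EvV k F) ∨
        ((k = 0 ∨ k = 3 ∨ k = 4) ∧ A ∈ EvM x₀ k F)} : Set (Finset (K →+* ℂ))) = EvV k F := by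
      ext A
      constructor
      · rintro (⟨-, h2⟩ | ⟨h2, -⟩)
        · exact h2
        · exact absurd h2 hnk
      · intro h2
        exact Or.inl ⟨hk, h2⟩
    rw [h1]
    exact h hK F hF
  · have hk' : k = 0 ∨ k = 3 ∨ k = 4 := by
      revert hk
      revert k
      decide
    obtain ⟨C, hC, h⟩ := card_EvM.{u} hk'
    refine ⟨C, hC, ?_⟩
    intro K _ _ _ n x₀ hK hn F hF
    have h1 : ({A | ((k = 1 ∨ k = 2) ∧ A ∈ EvV k F) ∨
        ((k = 0 ∨ k = 3 ∨ k = 4) ∧ A ∈ EvM x₀ k F)} : Set (Finset (K →+* ℂ))) = EvM x₀ k F := by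
      ext A
      constructor
      · rintro (⟨h2, -⟩ | ⟨-, h2⟩)
        · exact absurd h2 hk
        · exact h2
      · intro h2
        exact Or.inr ⟨hk', h2⟩
    rw [h1]
    exact h x₀ hK hn F hF

/-- PROOF. `sml_event`, union bound over `k` and `F`, `card_EvV`, `card_EvM` (`al k n ≥ 0`). -/
theorem small_upper.{u} : ∃ C : ℝ, 0 < C ∧
    ∀ {K : Type u} [Field K] [NumberField K] [IsCMField K] {n : ℕ}, finrank ℚ K = 2 * n → 2 ≤ n →
    ({A : Finset (K →+* ℂ) | IsCMType A ∧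
        Sml (GG K) (ComplexEmbedding.conjugate : (K →+* ℂ) → (K →+* ℂ)) A}.ncard : ℝ)
      ≤ C * (∑ k, (XSub K k).ncard * al k n) * 2 ^ n := by
  choose C hC h using fun k => SmF_ex.{u} k
  refine ⟨∑ k, C k, Finset.sum_pos (fun k _ => hC k) ⟨0, mem_univ 0⟩, ?_⟩
  intro K _ _ _ n hK hn
  classical
  obtain ⟨x₀⟩ : Nonempty (K →+* ℂ) := inferInstance
  have : Finite (IntermediateField ℚ K) := Field.exists_primitive_element_iff_finite_intermediateField
    ℚ K |>.1 ⟨inferInstance, Field.exists_primitive_element ℚ K⟩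
  have hfin : ∀ k, (XSub K k).Finite := fun k => Set.toFinite _
  let E : Fin 5 → IntermediateField ℚ K → Set (Finset (K →+* ℂ)) := fun k F =>
    {A | ((k = 1 ∨ k = 2) ∧ A ∈ EvV k F) ∨ ((k = 0 ∨ k = 3 ∨ k = 4) ∧ A ∈ EvM x₀ k F)}
  let E' : Fin 5 → IntermediateField ℚ K → Finset (Finset (K →+* ℂ)) := fun k F =>
    (Set.toFinite (E k F)).toFinset
  have hE' : ∀ k F, (E' k F).card = (E k F).ncard := fun k F =>
    (Set.ncard_eq_toFinset_card _ _).symm
  let U : Finset (Finset (K →+* ℂ)) := univ.biUnion fun k => (hfin k).toFinset.biUnion (E' k)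
  have h1 : {A : Finset (K →+* ℂ) | IsCMType A ∧
      Sml (GG K) (ComplexEmbedding.conjugate : (K →+* ℂ) → (K →+* ℂ)) A} ⊆
      (U : Set (Finset (K →+* ℂ))) := by
    rintro A ⟨hA, hS⟩
    rw [Finset.mem_coe]
    rcases sml_event x₀ hK hA hS with ⟨k, hk, F, hF, hAF⟩ | ⟨k, hk, F, hF, hAF⟩
    · refine Finset.mem_biUnion.2 ⟨k, mem_univ k, Finset.mem_biUnion.2
        ⟨F, (Set.Finite.mem_toFinset _).2 hF, (Set.Finite.mem_toFinset _).2 ?_⟩⟩
      exact Or.inl ⟨hk, hAF⟩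
    · refine Finset.mem_biUnion.2 ⟨k, mem_univ k, Finset.mem_biUnion.2
        ⟨F, (Set.Finite.mem_toFinset _).2 hF, (Set.Finite.mem_toFinset _).2 ?_⟩⟩
      exact Or.inr ⟨hk, hAF⟩
  have h2 : {A : Finset (K →+* ℂ) | IsCMType A ∧
      Sml (GG K) (ComplexEmbedding.conjugate : (K →+* ℂ) → (K →+* ℂ)) A}.ncard ≤ U.card := by
    rw [← Set.ncard_coe_finset]
    exact Set.ncard_le_ncard h1 (Finset.finite_toSet _)
  have h3 : U.card ≤ ∑ k, ∑ F ∈ (hfin k).toFinset, (E' k F).card :=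
    Finset.card_biUnion_le.trans (Finset.sum_le_sum fun k _ => Finset.card_biUnion_le)
  have h4 : ((∑ k, ∑ F ∈ (hfin k).toFinset, (E' k F).card : ℕ) : ℝ) ≤
      ∑ k, ((XSub K k).ncard : ℝ) * (C k * al k n * 2 ^ n) := by
    rw [Nat.cast_sum]
    refine Finset.sum_le_sum fun k _ => ?_
    rw [Nat.cast_sum, Set.ncard_eq_toFinset_card _ (hfin k), ← nsmul_eq_mul]
    refine Finset.sum_le_card_nsmul _ _ _ fun F hF => ?_
    rw [hE']
    exact h k x₀ hK hn F ((Set.Finite.mem_toFinset _).1 hF)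
  have h5 : ∑ k, ((XSub K k).ncard : ℝ) * (C k * al k n * 2 ^ n) ≤
      (∑ k, C k) * (∑ k, (XSub K k).ncard * al k n) * 2 ^ n := by
    rw [Finset.mul_sum, Finset.sum_mul]
    refine Finset.sum_le_sum fun k _ => ?_
    have h6 : C k ≤ ∑ j, C j := Finset.single_le_sum (fun j _ => (hC j).le) (mem_univ k)
    have h7 : 0 ≤ ((XSub K k).ncard : ℝ) * al k n * 2 ^ n := by
      have := SmF_al k n
      positivity
    calc ((XSub K k).ncard : ℝ) * (C k * al k n * 2 ^ n)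
        = C k * (((XSub K k).ncard : ℝ) * al k n * 2 ^ n) := by ring
      _ ≤ (∑ j, C j) * (((XSub K k).ncard : ℝ) * al k n * 2 ^ n) :=
          mul_le_mul_of_nonneg_right h6 h7
      _ = (∑ j, C j) * (((XSub K k).ncard : ℝ) * al k n) * 2 ^ n := by ring
  refine le_trans ?_ (h4.trans h5)
  exact_mod_cast h2.trans h3

end Pool.MP43e44c.GZ
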