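import Pool.Agent.H.MP_43e44c_ag.SB.SubF
import Pool.Agent.H.MP_43e44c_ag.GL.FldA
import Pool.Agent.H.MP_43e44c_ag.GZ.Def

/-!
CM fields: the subfields which count, restriction of embeddings to subfields.
-/

set_option autoImplicit false

open NumberField Finset Module

namespace Pool.MP43e44c.GZ

open Pool.MP43e44c.GL

variable {K : Type*} [Field K] [NumberField K]

/-- The subfield is not real. -/
def NR (F : IntermediateField ℚ K) : Prop := ∃ x ∈ F, ∃ φ : K →+* ℂ, (φ x).im ≠ 0

/-- The subfields which count. -/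
def XSub (K : Type*) [Field K] [NumberField K] (k : Fin 5) : Set (IntermediateField ℚ K) :=
  match k with
  | 0 => {F | NR F ∧ finrank ℚ F = 2 ∧ Even (finrank F K)}
  | 1 => {F | NR F ∧ finrank ℚ F = 4 ∧ Even (finrank F K) ∧ ∀ E ≤ F, finrank ℚ E = 2 → ¬ NR E}
  | 2 => {F | NR F ∧ finrank ℚ F = 6 ∧ ∃ E ≤ F, finrank ℚ E = 2 ∧ NR E}
  | 3 => GSub K 3
  | 4 => GSub K 4

/-- Restriction of an embedding to a subfield. -/
def res (F : IntermediateField ℚ K) (φ : K →+* ℂ) : F →+* ℂ := φ.comp (algebraMap F K)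

theorem res_apply (F : IntermediateField ℚ K) (φ : K →+* ℂ) (z : F) : res F φ z = φ z := rfl

theorem res_eq_iff (F : IntermediateField ℚ K) (φ ψ : K →+* ℂ) :
    res F φ = res F ψ ↔ ∀ z ∈ F, φ z = ψ z := by
  constructor
  · intro h z hz
    exact RingHom.congr_fun h ⟨z, hz⟩
  · intro h
    ext z
    exact h z z.2

/-- Extension of embeddings to algebraic extensions of number fields (`NumberField.Embeddings`,
`IsAlgClosed.lift`). -/
theorem res_surj (F : IntermediateField ℚ K) : Function.Surjective (res F) := by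
  intro ψ
  let _ : Algebra F ℂ := ψ.toAlgebra
  have hK : Algebra.IsAlgebraic F K := inferInstance
  let χ : K →ₐ[F] ℂ := IsAlgClosed.lift
  refine ⟨χ.toRingHom, ?_⟩
  ext z
  exact χ.commutes z

theorem res_conj (F : IntermediateField ℚ K) (φ : K →+* ℂ) :
    res F (ComplexEmbedding.conjugate φ) = ComplexEmbedding.conjugate (res F φ) := rfl

/-- The action respects the restriction: `(g • φ) z` is `g` applied to `lft φ z`. -/
theorem res_smul (F : IntermediateField ℚ K) {φ ψ : K →+* ℂ} (h : res F φ = res F ψ) (g : GG K) :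
    res F (g • φ) = res F (g • ψ) := by
  rw [res_eq_iff] at h ⊢
  intro z hz
  rw [smul_apply, smul_apply]
  have h1 : lft φ z = lft ψ z := Subtype.ext (h z hz)
  rw [h1]

/-- PROOF. Let `σ = IsCMField.complexConj K`, `conj ψ = ψ ∘ σ` for all embeddings `ψ`.  There are `x ∈ F` and
`φ` with `φ x` not real, so `σ x ≠ x`, and `φ' x` is not real for every `φ'`. -/
theorem nr_iff [IsCMField K] {F : IntermediateField ℚ K} (h : NR F) (φ : K →+* ℂ) :
    ComplexEmbedding.conjugate (res F φ) ≠ res F φ := by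
  obtain ⟨x, hx, φ₁, him⟩ := h
  intro hc
  have h1 := RingHom.congr_fun hc ⟨x, hx⟩
  rw [ComplexEmbedding.conjugate_coe_eq] at h1
  have h2 : (starRingEnd ℂ) (φ x) = φ x := h1
  rw [← IsCMField.complexEmbedding_complexConj K φ] at h2
  have h3 := φ.injective h2
  apply him
  have h4 := IsCMField.complexEmbedding_complexConj K φ₁ x
  rw [h3] at h4
  exact Complex.conj_eq_iff_im.1 h4.symm

/-- A subgroup which contains the stabiliser comes from a subfield: PROOF. `F = (fixedField H).comap
(lft x₀)`; `subf_map`, `subf_finrank` (SB/SubF.lean).  If `g ∈ H` and `z ∈ F` then `g (lft x₀ z) = lft x₀ z`, so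
`res F (g • x₀) = res F x₀`.  Conversely such a `g` fixes `F.map (lft x₀) = fixedField H`
(`subf_map`), so it is in `H` (`IntermediateField.fixingSubgroup_fixedField`). -/
theorem exists_sub (x₀ : K →+* ℂ) {H : Subgroup (GG K)}
    (hH : MulAction.stabilizer (GG K) x₀ ≤ H) : ∃ F : IntermediateField ℚ K,
      finrank ℚ F = H.index ∧ ∀ g : GG K, res F (g • x₀) = res F x₀ ↔ g ∈ H := by
  refine ⟨(IntermediateField.fixedField H).comap (lft x₀), subf_finrank x₀ hH, fun g => ?_⟩
  rw [res_eq_iff]
  constructor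
  · intro h
    rw [← IntermediateField.fixingSubgroup_fixedField H, IntermediateField.mem_fixingSubgroup_iff]
    intro w hw
    rw [← subf_map x₀ hH] at hw
    obtain ⟨z, hz, rfl⟩ := hw
    exact Subtype.ext (h z hz)
  · intro hg z hz
    have h1 : lft x₀ z ∈ IntermediateField.fixedField H := hz
    have h2 : g (lft x₀ z) = lft x₀ z := by
      rw [← IntermediateField.fixingSubgroup_fixedField H,
        IntermediateField.mem_fixingSubgroup_iff] at hg
      exact hg _ h1
    rw [smul_apply, h2, coe_lft]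

/-- PROOF. Let `F' = F.map (lft x₀)` in `GC K`; `{g | res F (g • x₀) = res F x₀} = F'.fixingSubgroup`.  So
the hypothesis gives `E'.fixingSubgroup ≥ F'.fixingSubgroup` and `E' ≤ F'`
(`IntermediateField` Galois correspondence, `IsGalois.fixedField_fixingSubgroup`), and `lft x₀` is
injective. -/
theorem sub_le (x₀ : K →+* ℂ) {E F : IntermediateField ℚ K}
    (h : ∀ g : GG K, res F (g • x₀) = res F x₀ → res E (g • x₀) = res E x₀) : E ≤ F := by
  have key : ∀ (F : IntermediateField ℚ K) (g : GG K),
      g ∈ (F.map (lft x₀)).fixingSubgroup ↔ res F (g • x₀) = res F x₀ := by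
    intro F g
    rw [IntermediateField.mem_fixingSubgroup_iff, res_eq_iff]
    constructor
    · intro h1 z hz
      rw [smul_apply]
      exact congrArg Subtype.val (h1 (lft x₀ z) ⟨z, hz, rfl⟩)
    · rintro h1 _ ⟨z, hz, rfl⟩
      exact Subtype.ext (h1 z hz)
  have h1 : (F.map (lft x₀)).fixingSubgroup ≤ (E.map (lft x₀)).fixingSubgroup := by
    intro g hg
    rw [key] at hg ⊢
    exact h g hg
  have h2 := IntermediateField.fixedField_antitone h1
  rw [IsGalois.fixedField_fixingSubgroup, IsGalois.fixedField_fixingSubgroup] at h2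
  intro z hz
  obtain ⟨y, hy, hyz⟩ := h2 ⟨z, hz, rfl⟩
  have h3 : y = z := (lft x₀).injective hyz
  rw [← h3]
  exact hy

/-- PROOF. `sub_le` twice (`h` for `x = g • x₀`, `y = x₀`). -/
theorem sub_eq {E F : IntermediateField ℚ K}
    (h : ∀ x y : K →+* ℂ, res F x = res F y ↔ res E x = res E y) : E = F := by
  obtain ⟨x₀⟩ : Nonempty (K →+* ℂ) := inferInstance
  exact le_antisymm (sub_le x₀ fun g hg => (h _ _).1 hg) (sub_le x₀ fun g hg => (h _ _).2 hg)

end Pool.MP43e44c.GZ
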