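import Pool.Agent.H.MP_43e44c_ag.GZ.Def
import Pool.Agent.H.MP_43e44c_ag.Tower

/-!
The number of half systems with a symmetry.
-/

set_option autoImplicit false

open Finset

namespace Pool.MP43e44c.GZ

variable {G X : Type*} [Group G] [MulAction G X] [MulAction.IsPretransitive G X] [Fintype X]

/-- Two points are identified when all sets of the family agree on them. -/
private def SymX_setoid {X : Type*} (F : Set (Finset X)) : Setoid X where
  r u v := ∀ A ∈ F, (u ∈ A ↔ v ∈ A)
  iseqv := ⟨fun _ _ _ => Iff.rfl, fun h A hA => (h A hA).symm,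
    fun h h' A hA => (h A hA).trans (h' A hA)⟩

/-- A family of half systems, each of whose classes has two elements. -/
private theorem SymX_family {X : Type*} [Fintype X] {c : X → X} (hc : Inv c) {n : ℕ}
    (hn : Fintype.card X = 2 * n) (F : Set (Finset X)) (hF : ∀ A ∈ F, IsH c A)
    (h2 : ∀ x : X, ∃ x' : X, x' ≠ x ∧ ∀ A ∈ F, (x' ∈ A ↔ x ∈ A)) :
    F.ncard ≤ 2 ^ (n / 2) := by
  classical
  rcases F.eq_empty_or_nonempty with h0 | ⟨A₀, hA₀⟩
  · rw [h0, Set.ncard_empty]
    exact Nat.zero_le _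
  let st : Setoid X := SymX_setoid F
  let Q := Quotient st
  have hmk : ∀ u v : X, (Quotient.mk st u = Quotient.mk st v) ↔ ∀ A ∈ F, (u ∈ A ↔ v ∈ A) :=
    fun u v => Quotient.eq (r := st)
  have hresp : ∀ u v : X, (∀ A ∈ F, (u ∈ A ↔ v ∈ A)) → ∀ A ∈ F, (c u ∈ A ↔ c v ∈ A) := by
    intro u v h A hA
    have h3 := h A hA
    have h4 := hF A hA u
    have h5 := hF A hA v
    tauto
  let cq : Q → Q := Quotient.map c hresp
  have hcq : ∀ u : X, cq (Quotient.mk st u) = Quotient.mk st (c u) := fun _ => rfl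
  have hcc : ∀ q : Q, cq (cq q) = q := by
    intro q
    induction q using Quotient.inductionOn with
    | h u => rw [hcq, hcq, hc.cc]
  have hne : ∀ q : Q, cq q ≠ q := by
    intro q
    induction q using Quotient.inductionOn with
    | h u =>
      intro h
      rw [hcq, hmk] at h
      have h3 := h A₀ hA₀
      have h4 := hF A₀ hA₀ u
      tauto
  obtain ⟨S, hS⟩ := exists_half cq hcc hne
  have hfq : Fintype Q := Fintype.ofFinite Q
  have hcard := card_half hcc S hS
  set N := Nat.card {q : Q // S q} with hN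
  have hQ : Nat.card Q = 2 * N := by
    rw [Nat.card_eq_fintype_card]
    exact hcard
  -- the classes have two elements
  have h2Q : 2 * (2 * N) ≤ 2 * n := by
    rw [← hn, ← hcard, ← card_univ (α := X), ← card_univ (α := Q),
      card_eq_sum_card_fiberwise (f := fun u : X => Quotient.mk st u) (s := univ) (t := univ)
        (fun _ _ => mem_coe.2 (mem_univ _)), mul_comm, ← smul_eq_mul]
    refine card_nsmul_le_sum _ _ _ fun q _ => ?_
    induction q using Quotient.inductionOn with
    | h u =>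
      obtain ⟨u', hu', h3⟩ := h2 u
      have h4 : ({u', u} : Finset X) ⊆ univ.filter fun v => Quotient.mk st v = Quotient.mk st u := by
        intro v hv
        rw [mem_insert, mem_singleton] at hv
        rw [mem_filter]
        refine ⟨mem_univ _, ?_⟩
        rcases hv with rfl | rfl
        · exact (hmk _ _).2 h3
        · rfl
      have h5 := card_le_card h4
      rwa [card_pair hu'] at h5
  have hNn : N ≤ n / 2 := by omega
  -- images
  have himg : ∀ A ∈ F, ∀ u : X, Quotient.mk st u ∈ A.image (Quotient.mk st) ↔ u ∈ A := by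
    intro A hA u
    rw [mem_image]
    constructor
    · rintro ⟨v, hv, h3⟩
      exact ((hmk v u).1 h3 A hA).1 hv
    · intro hu
      exact ⟨u, hu, rfl⟩
  have hinj : Set.InjOn (fun A : Finset X => A.image (Quotient.mk st)) F := by
    intro A hA B hB h
    ext u
    rw [← himg A hA u, ← himg B hB u]
    have h' : A.image (Quotient.mk st) = B.image (Quotient.mk st) := h
    rw [h']
  rw [← hinj.ncard_image]
  refine (card_half_systems_le hcc hne hQ _ ?_).trans (Nat.pow_le_pow_right two_pos hNn)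
  rintro _ ⟨A, hA, rfl⟩ q
  induction q using Quotient.inductionOn with
  | h u =>
    change Quotient.mk st u ∈ A.image (Quotient.mk st) ↔
      ¬ Quotient.mk st (c u) ∈ A.image (Quotient.mk st)
    rw [himg A hA, himg A hA]
    exact hF A hA u

/-- PROOF. If there is no such `A` this is clear.  Let `A₀` be one.  Let `∼` be the equivalence relation
on `X` generated by `g • x₀ ∼ c (g • y)` for all `g` (`EqvGen`, `Relation.EqvGen.setoid`).  Every `A` of the set is a union of
classes: `g • x₀ ∈ A ↔ g • y ∉ A ↔ c (g • y) ∈ A`.  `c` respects `∼` (it commutes with the action, and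
`c (c (g • y)) = g • y`; from `g • x₀ ∼ c (g • y)` we need `c (g • x₀) ∼ g • y`: write `c (g • x₀) = h • x₀`
(transitivity); then `g • c x₀ = h • x₀`, so `(h⁻¹ g) • c x₀ = x₀`, `(h⁻¹ * g) • x₀ = c x₀` hence
`h • x₀ = g • (c x₀)`, and `h • x₀ ∼ c (h • y)`.  To avoid this take the equivalence relation generated by
both `g • x₀ ∼ c (g • y)` and `c (g • x₀) ∼ g • y`; the sets `A` are unions of its classes, too).  Let
`Q = X / ∼` with the induced involution `c̄`.  It has no fixed points, since `x ∈ A₀ ↔ c x ∉ A₀` and `A₀` is a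
union of classes.  Every class has at least two elements: it contains some `g • x₀` (transitivity) and
`c (g • y) ≠ g • x₀` (because `c y ≠ x₀`).  So `Nat.card Q ≤ n`, it is even, and the images of the `A` in `Q`
are half systems: at most `2 ^ (card Q / 2)` (`card_half_systems_le`, Tower.lean). -/
theorem symX_aux {c : X → X} (hc : Inv c) (hcg : ∀ (g : G) x, g • c x = c (g • x)) {n : ℕ}
    (hn : Fintype.card X = 2 * n) (x₀ y : X) (hy : y ≠ c x₀) :
    {A : Finset X | IsH c A ∧ ∀ g : G, g • x₀ ∈ A ↔ g • y ∉ A}.ncard ≤ 2 ^ (n / 2) := by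
  refine SymX_family hc hn _ (fun A hA => hA.1) fun x => ?_
  obtain ⟨g, rfl⟩ := MulAction.exists_smul_eq G x₀ x
  refine ⟨c (g • y), ?_, ?_⟩
  · intro h
    rw [← hcg] at h
    have h1 := smul_left_cancel g h
    exact hy (by rw [← h1, hc.cc])
  · intro A hA
    have h1 := hA.1 (g • y)
    have h2 := hA.2 g
    tauto

/-- PROOF. Fix `x₀`.  If `x, y` is as in the set, write `x = h • x₀`; then `y' = h⁻¹ • y` satisfies
`y' ≠ c x₀` and the condition for `x₀, y'`.  Union over `y' ≠ c x₀` (at most `2 * n` values) of the sets of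
`symX_aux`. -/
theorem card_symmX {c : X → X} (hc : Inv c) (hcg : ∀ (g : G) x, g • c x = c (g • x)) {n : ℕ}
    (hn : Fintype.card X = 2 * n) :
    {A : Finset X | IsH c A ∧ ∃ x y : X, y ≠ c x ∧ ∀ g : G, g • x ∈ A ↔ g • y ∉ A}.ncard
      ≤ 2 * n * 2 ^ (n / 2) := by
  rcases isEmpty_or_nonempty X with hem | ⟨⟨x₀⟩⟩
  · have h0 : {A : Finset X | IsH c A ∧ ∃ x y : X, y ≠ c x ∧ ∀ g : G, g • x ∈ A ↔ g • y ∉ A}
        = ∅ := by
      rw [Set.eq_empty_iff_forall_notMem]
      rintro A ⟨-, x, -⟩
      exact hem.elim x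
    rw [h0, Set.ncard_empty]
    exact Nat.zero_le _
  let T : X → Set (Finset X) := fun y =>
    {A : Finset X | y ≠ c x₀ ∧ IsH c A ∧ ∀ g : G, g • x₀ ∈ A ↔ g • y ∉ A}
  have hsub : {A : Finset X | IsH c A ∧ ∃ x y : X, y ≠ c x ∧ ∀ g : G, g • x ∈ A ↔ g • y ∉ A}
      ⊆ ⋃ y, T y := by
    rintro A ⟨hA, x, y, hxy, h⟩
    obtain ⟨h₁, rfl⟩ := MulAction.exists_smul_eq G x₀ x
    refine Set.mem_iUnion.2 ⟨h₁⁻¹ • y, ?_, hA, fun g => ?_⟩
    · intro h2
      apply hxy
      rw [inv_smul_eq_iff, hcg] at h2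
      exact h2
    · have h3 := h (g * h₁⁻¹)
      rw [smul_smul, inv_mul_cancel_right, mul_smul] at h3
      exact h3
  have hT : ∀ y, (T y).ncard ≤ 2 ^ (n / 2) := by
    intro y
    by_cases hy : y = c x₀
    · have h0 : T y = ∅ := by
        rw [Set.eq_empty_iff_forall_notMem]
        rintro A ⟨h, -⟩
        exact h hy
      rw [h0, Set.ncard_empty]
      exact Nat.zero_le _
    · refine le_trans (Set.ncard_le_ncard ?_ (Set.toFinite _)) (symX_aux hc hcg hn x₀ y hy)
      exact fun A hA => hA.2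
  calc _ ≤ (⋃ y, T y).ncard := Set.ncard_le_ncard hsub (Set.toFinite _)
    _ ≤ ∑ y : X, (T y).ncard := Set.ncard_iUnion_le_of_fintype T
    _ ≤ ∑ _y : X, 2 ^ (n / 2) := sum_le_sum fun y _ => hT y
    _ = 2 * n * 2 ^ (n / 2) := by rw [sum_const, card_univ, hn, smul_eq_mul]

end Pool.MP43e44c.GZ
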