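import Pool.Agent.H.MP_43e44c_ag.GZ.Def
import Pool.Agent.H.MP_43e44c_ag.GL.Sp

/-!
Vector valued functions: linear independence of two functions.
-/

set_option autoImplicit false

open Finset

namespace Pool.MP43e44c.GZ

open Pool.MP43e44c.GL

/-- The values of the function span the plane. -/
theorem VLin_span {G X : Type*} [Group G] [MulAction G X] {c : X → X} {k : Fin 5}
    (hk : k = 1 ∨ k = 2) {a : X → Fin 2 → ℤ} (h : VTyp G c k a) {l : Fin 2 → ℚ}
    (h0 : ∀ x, ∑ i, l i * (a x i : ℚ) = 0) : l = 0 := by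
  have h1 : (1 : M2) ∈ full k := GL.one_mem k
  have h2 : ∀ k : Fin 5, k = 1 ∨ k = 2 → ∃ s ∈ full k, s 0 0 = 0 ∧ s 1 0 = 1 := by
    decide
  obtain ⟨x, hx⟩ := h.surj 1 h1
  obtain ⟨s, hs, hs0, hs1⟩ := h2 k hk
  obtain ⟨y, hy⟩ := h.surj s hs
  have e1 := h0 x
  have e2 := h0 y
  rw [hx, Fin.sum_univ_two] at e1
  rw [hy, Fin.sum_univ_two] at e2
  simp only [col, hs0, hs1, Matrix.one_apply_eq, ne_eq, one_ne_zero, not_false_eq_true,
    Matrix.one_apply_ne, Int.cast_one, Int.cast_zero, mul_one, mul_zero, add_zero, zero_add]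
    at e1 e2
  funext i
  fin_cases i
  · exact e1
  · exact e2

/-- PROOF. Let `h x = ∑ i, l i * a x i = - ∑ i, l' i * a' x i` and suppose `(l, l') ≠ 0`.  If `l = 0`, then
`∑ i, l' i * a' x i = 0` for all `x`, and `l' = 0` since the values of `a'` span the plane (by `surj` they
contain the first columns of two matrices of `full k` which are linearly independent, e.g. the first
columns of `1` and of `rot`; `k = 1` or `k = 2`).  So `l ≠ 0` and (again since the values of `a` span)
`h ≠ 0`.  By `irr` there is `g` with `h (g • ·) ≠ ± h`.  By `act`, `h (g • x) = ∑ i, m i * a x i` with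
`m = l ᵥ* R` and `h (g • x) = - ∑ i, m' i * a' x i` with `m' = l' ᵥ* R'`.  The vectors `l, m` are linearly
independent: if `m = s • l` with `s` rational then `h (g • x) = s * h x` for all `x`; comparing the maxima
of the absolute values (`x ↦ g • x` is a bijection of the finite set `X`) gives `|s| = 1`, a
contradiction.  Hence `e₁` and `e₂` are linear combinations of `l` and `m`, and each coordinate
`a x i` is a linear combination (with coefficients independent of `x`) of `h x` and `h (g • x)`, which are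
linear functions of `a' x`.  So `a' x = a' y` implies `a x = a y`. -/
theorem sep_of_dep {G X : Type*} [Group G] [MulAction G X] [Fintype X] {c : X → X} {k : Fin 5}
    (hk : k = 1 ∨ k = 2) {a a' : X → Fin 2 → ℤ} (h : VTyp G c k a) (h' : VTyp G c k a')
    {l l' : Fin 2 → ℚ} (hl : l ≠ 0 ∨ l' ≠ 0)
    (h0 : ∀ x, ∑ i, l i * (a x i : ℚ) + ∑ i, l' i * (a' x i : ℚ) = 0) :
    ∀ x y, a' x = a' y → a x = a y := by
  have hl0 : l ≠ 0 := by
    intro hl0
    rcases hl with hl | hl
    · exact hl hl0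
    · apply hl
      refine VLin_span hk h' fun x => ?_
      have h1 := h0 x
      rw [hl0] at h1
      simpa using h1
  obtain ⟨g, hg1, hg2⟩ := h.irr l hl0
  obtain ⟨R, hR⟩ := h.act g
  obtain ⟨R', hR'⟩ := h'.act g
  set m : Fin 2 → ℚ := fun j => ∑ i, l i * (R i j : ℚ) with hm
  have hgx : ∀ x, ∑ i, l i * (a (g • x) i : ℚ) = ∑ j, m j * (a x j : ℚ) := by
    intro x
    rw [hR x]
    simp only [hm, Matrix.mulVec, dotProduct, Fin.sum_univ_two, Int.cast_add, Int.cast_mul]
    ring
  have hdet : l 0 * m 1 - l 1 * m 0 ≠ 0 := by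
    intro hd
    obtain ⟨s, hs0, hs1⟩ : ∃ s : ℚ, m 0 = s * l 0 ∧ m 1 = s * l 1 := by
      by_cases h00 : l 0 = 0
      · have h11 : l 1 ≠ 0 := by
          intro h11
          apply hl0
          funext i
          fin_cases i
          · exact h00
          · exact h11
        refine ⟨m 1 / l 1, ?_, by field_simp⟩
        rw [h00, zero_mul, zero_sub, neg_eq_zero] at hd
        rw [h00, mul_zero]
        exact (mul_eq_zero.1 hd).resolve_left h11
      · refine ⟨m 0 / l 0, by field_simp, ?_⟩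
        rw [div_mul_eq_mul_div, eq_div_iff h00]
        linear_combination hd
    have hsc : ∀ x, ∑ i, l i * (a (g • x) i : ℚ) = s * ∑ i, l i * (a x i : ℚ) := by
      intro x
      rw [hgx x, Fin.sum_univ_two, Fin.sum_univ_two, hs0, hs1]
      ring
    obtain ⟨f, hf⟩ : ∃ f : X → ℚ, ∀ x, f x = ∑ i, l i * (a x i : ℚ) := ⟨_, fun _ => rfl⟩
    have hfs : ∀ x, f (g • x) = s * f x := by
      intro x
      rw [hf, hf, hsc]
    obtain ⟨x1, hx1⟩ : ∃ x, f x ≠ 0 := by
      by_contra hcon
      push Not at hcon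
      exact hl0 (VLin_span hk h fun x => by rw [← hf, hcon x])
    have hne : (univ : Finset X).Nonempty := ⟨x1, mem_univ _⟩
    obtain ⟨x0, _, hx0⟩ := exists_max_image univ (fun x => |f x|) hne
    have hpos : 0 < |f x0| := (abs_pos.2 hx1).trans_le (hx0 x1 (mem_univ _))
    have hs_le : |s| ≤ 1 := by
      have h1 := hx0 (g • x0) (mem_univ _)
      simp only [hfs, abs_mul] at h1
      by_contra hcon
      rw [not_le] at hcon
      nlinarith
    have hs_ge : 1 ≤ |s| := by
      have h1 : |f x0| = |s| * |f (g⁻¹ • x0)| := by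
        rw [← abs_mul, ← hfs, smul_inv_smul]
      have h2 := hx0 (g⁻¹ • x0) (mem_univ _)
      by_contra hcon
      rw [not_le] at hcon
      have h3 : |s| * |f (g⁻¹ • x0)| ≤ |s| * |f x0| := mul_le_mul_of_nonneg_left h2 (abs_nonneg s)
      nlinarith
    have hs1' : |s| = 1 := le_antisymm hs_le hs_ge
    rcases (abs_eq zero_le_one).1 hs1' with h1 | h1
    · obtain ⟨x, hx⟩ := hg1
      apply hx
      rw [hsc x, h1, one_mul]
    · obtain ⟨x, hx⟩ := hg2
      apply hx
      rw [hsc x, h1]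
      ring
  intro x y hxy
  have e1 : ∑ i, l i * (a x i : ℚ) = ∑ i, l i * (a y i : ℚ) := by
    have h1 := h0 x
    have h2 := h0 y
    rw [hxy] at h1
    linarith
  have e2 : ∑ j, m j * (a x j : ℚ) = ∑ j, m j * (a y j : ℚ) := by
    rw [← hgx x, ← hgx y]
    have h1 := h0 (g • x)
    have h2 := h0 (g • y)
    rw [hR' x, hxy, ← hR' y] at h1
    linarith
  rw [Fin.sum_univ_two, Fin.sum_univ_two] at e1 e2
  have u0 : (a x 0 : ℚ) = a y 0 := by
    have h1 : (l 0 * m 1 - l 1 * m 0) * ((a x 0 : ℚ) - a y 0) = 0 := by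
      linear_combination m 1 * e1 - l 1 * e2
    exact sub_eq_zero.1 ((mul_eq_zero.1 h1).resolve_left hdet)
  have u1 : (a x 1 : ℚ) = a y 1 := by
    have h1 : (l 0 * m 1 - l 1 * m 0) * ((a x 1 : ℚ) - a y 1) = 0 := by
      linear_combination l 0 * e2 - m 0 * e1
    exact sub_eq_zero.1 ((mul_eq_zero.1 h1).resolve_left hdet)
  funext i
  fin_cases i
  · exact_mod_cast u0
  · exact_mod_cast u1

/-- The joint function. -/
def jnt {X : Type*} (a a' : X → Fin 2 → ℤ) (x : X) : Fin 2 ⊕ Fin 2 → ℤ := Sum.elim (a x) (a' x)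

/-- PROOF. Otherwise the vectors `jnt a a' t`, `t ∈ T`, do not span `ℚ⁴` (`Fin 2 ⊕ Fin 2 → ℚ`), so there
is a nonzero `L` with `∑ q, L q * jnt a a' t q = 0` for `t ∈ T`, hence for all `x` (`x ∈ T` or `c x ∈ T`, and
the functions are odd).  Apply `sep_of_dep` twice (also with exchanged roles of `a` and `a'`): then
`a x = a y ↔ a' x = a' y`, against `hne`.  For the choice of the `t q` compare `basis_pair` (GL/Sp.lean). -/
theorem basis_pairV {G X : Type*} [Group G] [MulAction G X] [Fintype X] {c : X → X} {k : Fin 5}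
    (hk : k = 1 ∨ k = 2) {a a' : X → Fin 2 → ℤ} (h : VTyp G c k a) (h' : VTyp G c k a')
    (hne : ¬ ∀ x y, a x = a y ↔ a' x = a' y) {T : Finset X} (hT : IsH c T) :
    ∃ t : Fin 2 ⊕ Fin 2 → T,
      LinearIndependent ℚ (fun q p => (jnt a a' (t q : X) p : ℚ)) := by
  refine exists_basis (fun (t : T) => jnt a a' t) fun L hL => ?_
  by_contra hL0
  apply hne
  obtain ⟨l, hl⟩ : ∃ l : Fin 2 → ℚ, ∀ i, l i = L (Sum.inl i) := ⟨_, fun _ => rfl⟩
  obtain ⟨l', hl'⟩ : ∃ l' : Fin 2 → ℚ, ∀ i, l' i = L (Sum.inr i) := ⟨_, fun _ => rfl⟩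
  have hll : l ≠ 0 ∨ l' ≠ 0 := by
    by_contra hcon
    push Not at hcon
    apply hL0
    funext q
    rcases q with i | i
    · rw [← hl, hcon.1]
      rfl
    · rw [← hl', hcon.2]
      rfl
  have hTx : ∀ x ∈ T, ∑ i, l i * (a x i : ℚ) + ∑ i, l' i * (a' x i : ℚ) = 0 := by
    intro x hx
    have h1 := hL ⟨x, hx⟩
    rw [Fintype.sum_sum_type] at h1
    simpa [jnt, hl, hl'] using h1
  have hall : ∀ x, ∑ i, l i * (a x i : ℚ) + ∑ i, l' i * (a' x i : ℚ) = 0 := by
    intro x
    by_cases hx : x ∈ T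
    · exact hTx x hx
    · have hx' : c x ∈ T := by
        by_contra hcon
        exact hx ((hT x).2 hcon)
      have h1 := hTx _ hx'
      rw [h.odd, h'.odd] at h1
      simp only [Pi.neg_apply, Int.cast_neg, mul_neg, Finset.sum_neg_distrib] at h1
      linarith
  have hall' : ∀ x, ∑ i, l' i * (a' x i : ℚ) + ∑ i, l i * (a x i : ℚ) = 0 := by
    intro x
    rw [add_comm]
    exact hall x
  intro x y
  exact ⟨sep_of_dep hk h' h hll.symm hall' x y, sep_of_dep hk h h' hll hall x y⟩

end Pool.MP43e44c.GZ
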