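import Pool.Agent.H.MP_43e44c_ag.GZ.Trans
import Pool.Agent.H.MP_43e44c_ag.GZ.Fib
import Pool.Agent.H.MP_43e44c_ag.GL.MainA

/-!
Vector valued functions: lower bound for one function.
-/

set_option autoImplicit false

open Finset

namespace Pool.MP43e44c.GZ

open Pool.MP43e44c.GL

/-- A cyclic model group.  PROOF. `exists_model` (GL/FldA.lean) for `Γ = Multiplicative (ZMod (2 * hc k))`
(`GTyp 1`, `GTyp 2`; `hc 1 = 2`, `hc 2 = 3`); the group is cyclic and has `2 * hc k` elements.  The element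
`z` of order two is `Multiplicative.ofAdd (hc k)`. -/
theorem exists_cyc {k : Fin 5} (hk : k = 1 ∨ k = 2) :
    ∃ (Γ : Type) (_ : Group Γ) (_ : Fintype Γ) (τ : Γ →* M2) (z : Γ), Function.Injective τ ∧
      (∀ g, τ g ∈ full k) ∧ (∀ s ∈ full k, ∃ g, τ g = s) ∧ z * z = 1 ∧ τ z = -1 := by
  rcases hk with rfl | rfl
  · obtain ⟨τ, h1, h2, h3, h4⟩ := fldA_four
    refine ⟨Multiplicative (ZMod 4), inferInstance, inferInstance, τ,
      Multiplicative.ofAdd (2 : ZMod 4), h1, h2, h3, by decide, ?_⟩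
    exact h4 _ (by decide) (by decide) (fun g => mul_comm _ _)
  · obtain ⟨τ, h1, h2, h3, h4⟩ := fldA_six
    refine ⟨Multiplicative (ZMod 6), inferInstance, inferInstance, τ,
      Multiplicative.ofAdd (3 : ZMod 6), h1, h2, h3, by decide, ?_⟩
    exact h4 _ (by decide) (by decide) (fun g => mul_comm _ _)

theorem VLow_form {k : Fin 5} (hk : k = 1 ∨ k = 2) : ∃ t : ℤ, (t = 0 ∨ t = 1) ∧
    ∀ s ∈ full k, s 0 1 = - s 1 0 ∧ s 1 1 = s 0 0 + t * s 1 0 := by
  rcases hk with rfl | rfl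
  · exact ⟨0, Or.inl rfl, by decide⟩
  · exact ⟨1, Or.inr rfl, by decide⟩

/-- The determinant of a sum of matrices in `full k` vanishes only if the sum of the first columns
vanishes.  PROOF. A sum `N` of matrices in `full 1` has the form `!![x, -y; y, x]`, one of matrices in
`full 2` the form `!![x, -y; y, x + y]` (`Finset.sum_induction`, `decide` for the matrices in `full k`);
the determinants are `x ^ 2 + y ^ 2` and `x ^ 2 + x * y + y ^ 2`. -/
theorem det_col {k : Fin 5} (hk : k = 1 ∨ k = 2) {X : Type*} (A : Finset X) {M : X → M2}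
    (hM : ∀ x ∈ A, M x ∈ full k) : (∑ x ∈ A, M x).det = 0 ↔ ∑ x ∈ A, col (M x) = 0 := by
  obtain ⟨t, ht, hs⟩ := VLow_form hk
  have e01 : (∑ x ∈ A, M x) 0 1 = -(∑ x ∈ A, M x) 1 0 := by
    rw [Matrix.sum_apply, Matrix.sum_apply, ← sum_neg_distrib]
    exact sum_congr rfl fun x hx => (hs _ (hM x hx)).1
  have e11 : (∑ x ∈ A, M x) 1 1 = (∑ x ∈ A, M x) 0 0 + t * (∑ x ∈ A, M x) 1 0 := by
    rw [Matrix.sum_apply, Matrix.sum_apply, Matrix.sum_apply, mul_sum, ← sum_add_distrib]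
    exact sum_congr rfl fun x hx => (hs _ (hM x hx)).2
  have c0 : (∑ x ∈ A, col (M x)) 0 = (∑ x ∈ A, M x) 0 0 := by
    rw [Finset.sum_apply, Matrix.sum_apply]
    rfl
  have c1 : (∑ x ∈ A, col (M x)) 1 = (∑ x ∈ A, M x) 1 0 := by
    rw [Finset.sum_apply, Matrix.sum_apply]
    rfl
  rw [Matrix.det_fin_two, e01, e11]
  constructor
  · intro h
    have h2 : (∑ x ∈ A, M x) 0 0 = 0 ∧ (∑ x ∈ A, M x) 1 0 = 0 := by
      generalize (∑ x ∈ A, M x) 0 0 = x at h
      generalize (∑ x ∈ A, M x) 1 0 = y at h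
      rcases ht with rfl | rfl
      · have h3 : x ^ 2 + y ^ 2 = 0 := by linear_combination h
        have h4 : x ^ 2 = 0 := by nlinarith [sq_nonneg x, sq_nonneg y]
        have h5 : y ^ 2 = 0 := by nlinarith [sq_nonneg x, sq_nonneg y]
        exact ⟨pow_eq_zero_iff two_ne_zero |>.1 h4, pow_eq_zero_iff two_ne_zero |>.1 h5⟩
      · have h3 : (2 * x + y) ^ 2 + 3 * y ^ 2 = 0 := by linear_combination 4 * h
        have h5 : y ^ 2 = 0 := by nlinarith [sq_nonneg (2 * x + y), sq_nonneg y]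
        have h6 : y = 0 := pow_eq_zero_iff two_ne_zero |>.1 h5
        have h4 : (2 * x + y) ^ 2 = 0 := by nlinarith [sq_nonneg (2 * x + y), sq_nonneg y]
        have h7 : 2 * x + y = 0 := pow_eq_zero_iff two_ne_zero |>.1 h4
        exact ⟨by omega, h6⟩
    funext i
    fin_cases i
    · exact c0.trans h2.1
    · exact c1.trans h2.2
  · intro h
    rw [h] at c0 c1
    have d0 : (∑ x ∈ A, M x) 0 0 = 0 := c0.symm
    have d1 : (∑ x ∈ A, M x) 1 0 = 0 := c1.symm
    rw [d0, d1]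
    ring

/-- PROOF. Let `M x` be the element of `full k` with first column `a x` (unique, `col_inj`), so
`M (c x) = - M x` and `Va c a = Ma c M` (`det_col`).  The fibres of `M` are the fibres of `a`, invariant
under the group by `act`; by `fib_mul` each has `b = card X / (2 * hc k)` elements (the image of `M` is
`full k`, `full_card`), `b ≥ 1`.  With `Γ, τ, z` from `exists_cyc` let `Y = Γ × Multiplicative (ZMod b)`,
`c' y = y * (z, 1)`, `ρ = τ ∘ fst : Y →* M2`; then `Typ (z, 1) k ρ` and `Fintype.card Y = 2 * n`.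
`exists_equiv` with `Z = {s // s ∈ full k}`, `cz s = - s` (`neg_mem`; `s ≠ -s` for `s ∈ full k` by
`decide`), `p = M`, `q = ρ`; `card_Ma` gives `(Va c a).card = (Ma c' ρ).card = (Ev (z, 1) ρ).card`, and
`ev_low` (GL/MainA.lean) applies.  (`Ma (fun g => g * c) ρ` and `Ev c ρ` are the same by `isH_iff`.) -/
theorem va_low.{v, u} {k : Fin 5} (hk : k = 1 ∨ k = 2) : ∃ c₀ : ℝ, 0 < c₀ ∧ ∃ n₀ : ℕ,
    ∀ {G : Type v} {X : Type u} [Group G] [MulAction G X] [MulAction.IsPretransitive G X]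
      [Fintype X] {c : X → X} {a : X → Fin 2 → ℤ}, Inv c → VTyp G c k a →
      ∀ n : ℕ, Fintype.card X = 2 * n → n₀ ≤ n → (k = 1 → 4 ∣ n) →
      c₀ * al k n * 2 ^ n ≤ ((Va c a).card : ℝ) := by
  classical
  obtain ⟨c₀, hc₀, n₀, hlow⟩ := ev_low.{0} k
  obtain ⟨Γ, _, _, τ, z, hinj, hmem, hsurj, hzz, hz⟩ := exists_cyc hk
  refine ⟨c₀, hc₀, n₀, ?_⟩
  intro G X _ _ _ _ c a hI hV n hcard hn hk4
  -- the matrices
  have hM0 : ∀ x, ∃ s : M2, s ∈ full k ∧ a x = col s := fun x => hV.mem x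
  choose M hMf hMa using hM0
  have hMeq : ∀ x y, M x = M y ↔ a x = a y := by
    intro x y
    constructor
    · intro h
      rw [hMa x, hMa y, h]
    · intro h
      exact col_inj hk _ (hMf x) _ (hMf y) (by rw [← hMa x, ← hMa y, h])
  have hcolneg : ∀ s : M2, col (-s) = - col s := fun s => rfl
  have hMc : ∀ x, M (c x) = - M x := by
    intro x
    refine col_inj hk _ (hMf _) _ (GL.neg_mem k _ (hMf x)) ?_
    rw [hcolneg, ← hMa, ← hMa, hV.odd]
  have hMs : ∀ s ∈ full k, ∃ x, M x = s := by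
    intro s hs
    obtain ⟨x, hx⟩ := hV.surj s hs
    exact ⟨x, col_inj hk _ (hMf x) _ hs (by rw [← hMa x, hx])⟩
  have hVM : Va c a = Ma c M := by
    ext A
    simp only [Va, Ma, mem_filter, mem_univ, true_and]
    rw [det_col hk A fun x _ => hMf x]
    have h1 : ∑ x ∈ A, a x = ∑ x ∈ A, col (M x) := sum_congr rfl fun x _ => hMa x
    rw [h1]
  -- the fibres of M
  let p : X → {s // s ∈ full k} := fun x => ⟨M x, hMf x⟩
  have hpeq : ∀ x y, p x = p y ↔ a x = a y := fun x y => by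
    rw [← hMeq x y]
    exact Subtype.mk_eq_mk
  have hpG : ∀ (g : G) x y, p x = p y → p (g • x) = p (g • y) := by
    intro g x y hxy
    obtain ⟨R, hR⟩ := hV.act g
    rw [hpeq] at hxy ⊢
    rw [hR, hR, hxy]
  have hpsurj : Function.Surjective p := by
    rintro ⟨s, hs⟩
    obtain ⟨x, hx⟩ := hMs s hs
    exact ⟨x, Subtype.ext hx⟩
  have hZcard : Fintype.card {s // s ∈ full k} = 2 * hc k := by
    rw [Fintype.card_coe, full_card]
  have himg : (univ.image p).card = 2 * hc k := by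
    rw [image_univ_of_surjective hpsurj, card_univ, hZcard]
  obtain ⟨x₀, _⟩ := hMs 1 (GL.one_mem k)
  obtain ⟨b, hb⟩ : ∃ b : ℕ, b = {y | p y = p x₀}.ncard := ⟨_, rfl⟩
  have hfib : ∀ w, {y | p y = w}.ncard = b := by
    intro w
    obtain ⟨x, rfl⟩ := hpsurj w
    rw [hb]
    exact fib_eq p hpG x x₀
  have hmul : 2 * hc k * b = 2 * n := by
    have h1 := fib_mul p hpG x₀
    rw [himg, ← hb, hcard] at h1
    exact h1
  have hhc : 0 < hc k := by
    rcases hk with rfl | rfl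
    · decide
    · decide
  have hb0 : b ≠ 0 := by
    rw [hb]
    have h1 : x₀ ∈ {y | p y = p x₀} := rfl
    exact (Set.ncard_pos (Set.toFinite _)).2 ⟨x₀, h1⟩ |>.ne'
  have : NeZero b := ⟨hb0⟩
  -- the model
  let ρ : Γ × Multiplicative (ZMod b) →* M2 := τ.comp (MonoidHom.fst Γ (Multiplicative (ZMod b)))
  have hρ : ∀ y, ρ y = τ y.1 := fun y => rfl
  let c' : Γ × Multiplicative (ZMod b) := (z, 1)
  have hc'2 : c' * c' = 1 := by
    change (z * z, (1 : Multiplicative (ZMod b)) * 1) = 1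
    rw [hzz, one_mul]
    rfl
  have hT : Typ c' k ρ := by
    refine ⟨hz, fun g => hmem _, fun s hs => ?_⟩
    obtain ⟨g, hg⟩ := hsurj s hs
    exact ⟨(g, 1), hg⟩
  have hΓ : Fintype.card Γ = 2 * hc k := by
    rw [← hZcard]
    refine Fintype.card_of_bijective (f := fun g => (⟨τ g, hmem g⟩ : {s // s ∈ full k})) ⟨?_, ?_⟩
    · intro g g' hgg
      exact hinj (Subtype.mk_eq_mk.1 hgg)
    · rintro ⟨s, hs⟩
      obtain ⟨g, hg⟩ := hsurj s hs
      exact ⟨g, Subtype.ext hg⟩
  have hYcard : Fintype.card (Γ × Multiplicative (ZMod b)) = 2 * n := by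
    rw [Fintype.card_prod, hΓ, ← hmul]
    congr 1
    exact (Fintype.card_multiplicative _).trans (ZMod.card b)
  let q : Γ × Multiplicative (ZMod b) → {s // s ∈ full k} := fun y => ⟨ρ y, hmem _⟩
  have hqsurj : Function.Surjective q := by
    rintro ⟨s, hs⟩
    obtain ⟨g, hg⟩ := hsurj s hs
    exact ⟨(g, 1), Subtype.ext hg⟩
  have hqG : ∀ (g : Γ × Multiplicative (ZMod b)) x y, q x = q y → q (g • x) = q (g • y) := by
    intro g x y hxy
    have h1 : ρ x = ρ y := Subtype.mk_eq_mk.1 hxy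
    refine Subtype.ext ?_
    change ρ (g * x) = ρ (g * y)
    rw [map_mul, map_mul, h1]
  have hqfib : ∀ w, {y | q y = w}.ncard = b := by
    intro w
    obtain ⟨y, rfl⟩ := hqsurj w
    have h1 := fib_mul q hqG y
    rw [image_univ_of_surjective hqsurj, card_univ, hZcard, hYcard, ← hmul] at h1
    exact Nat.eq_of_mul_eq_mul_left (by omega) h1
  let cz : {s // s ∈ full k} → {s // s ∈ full k} := fun s => ⟨-s.1, GL.neg_mem k _ s.2⟩
  have hcz : Inv cz := by
    refine ⟨fun s => Subtype.ext (neg_neg _), fun s hs => ?_⟩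
    have h1 : -s.1 = s.1 := congrArg Subtype.val hs
    have h2 : ∀ k : Fin 5, ∀ s ∈ full k, -s ≠ s := by decide
    exact h2 k s.1 s.2 h1
  obtain ⟨e, he1, he2⟩ := exists_equiv (c := c) (c' := fun y => y * c') (cz := cz) hI.cc
    (fun y => by rw [mul_assoc, hc'2, mul_one]) hcz p q
    (fun x => Subtype.ext (hMc x))
    (fun y => Subtype.ext (by
      change ρ (y * c') = - ρ y
      rw [map_mul, hT.odd, mul_neg, mul_one]))
    (fun w => by rw [hfib, hqfib])
  have hcM : (Ma c M).card = (Ma (fun y => y * c') (fun y => ρ y)).card := by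
    refine card_Ma e he1 fun x => ?_
    exact congrArg Subtype.val (he2 x)
  have hEv : Ma (fun y => y * c') (fun y => ρ y) = Ev c' ρ := by
    ext A
    simp only [Ma, Ev, mem_filter, mem_univ, true_and]
    exact Iff.rfl
  rw [hVM, hcM, hEv]
  refine hlow hc'2 hT n hYcard hn ?_ hk4
  intro h0
  rcases hk with h1 | h1
  · rw [h0] at h1
    exact absurd h1 (by decide)
  · rw [h0] at h1
    exact absurd h1 (by decide)

end Pool.MP43e44c.GZ
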